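import Mathlib
import Pool.Agent.P.MP_eb0bd2_lc.PTLib
import Pool.Agent.P.MP_eb0bd2_lc.Defs

-- part Pool.Agent.P.MP_eb0bd2_lc.Walk
section

set_option autoImplicit false

namespace Pool.Agent.P.MP_eb0bd2_lc

open Finset

/-- A directed multigraph frame: ends of arcs and a finite vertex set. -/
structure MG (V E : Type) where
  src : E → V
  tgt : E → V
  Vs : Finset V

namespace MG

variable {V E : Type} (G : MG V E)

/-- The reversed frame. -/
def rev : MG V E := ⟨G.tgt, G.src, G.Vs⟩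

@[simp] theorem rev_src : G.rev.src = G.tgt := rfl
@[simp] theorem rev_tgt : G.rev.tgt = G.src := rfl
@[simp] theorem rev_Vs : G.rev.Vs = G.Vs := rfl
@[simp] theorem rev_rev : G.rev.rev = G := rfl

/-- Walks as lists of arcs. -/
inductive Walk : V → V → List E → Prop
  | nil (x : V) : Walk x x []
  | cons (e : E) (y : V) (l : List E) : Walk (G.tgt e) y l → Walk (G.src e) y (e :: l)

/-- The vertices of a walk. -/
def verts (x : V) (l : List E) : List V := x :: l.map G.tgt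

/-- Reachability inside an arc set. -/
def Reach (F : Finset E) (x y : V) : Prop := ∃ l, G.Walk x y l ∧ ∀ e ∈ l, e ∈ F

/-- All arcs have their ends in the vertex set. -/
def WF (A : Finset E) : Prop := ∀ e ∈ A, G.src e ∈ G.Vs ∧ G.tgt e ∈ G.Vs

variable {G}

theorem WF.mono {A B : Finset E} (h : G.WF B) (hAB : A ⊆ B) : G.WF A := fun e he => h e (hAB he)

theorem WF.rev {A : Finset E} (h : G.WF A) : G.rev.WF A := fun e he => (h e he).symm

theorem walk_nil_iff {x y : V} : G.Walk x y [] ↔ x = y :=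
  ⟨fun h => by cases h; rfl, fun h => h ▸ Walk.nil x⟩

theorem walk_cons_iff {x y : V} {e : E} {l : List E} :
    G.Walk x y (e :: l) ↔ G.src e = x ∧ G.Walk (G.tgt e) y l :=
  ⟨fun h => by cases h; exact ⟨rfl, by assumption⟩, fun h => h.1 ▸ Walk.cons e y l h.2⟩

theorem walk_append_iff {x y : V} {l₁ l₂ : List E} :
    G.Walk x y (l₁ ++ l₂) ↔ ∃ z, G.Walk x z l₁ ∧ G.Walk z y l₂ := by
  induction l₁ generalizing x with
  | nil => simp [walk_nil_iff]
  | cons e l ih =>
    simp only [List.cons_append, walk_cons_iff, ih]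
    constructor
    · rintro ⟨h, z, h1, h2⟩; exact ⟨z, ⟨h, h1⟩, h2⟩
    · rintro ⟨z, ⟨h, h1⟩, h2⟩; exact ⟨h, z, h1, h2⟩

theorem Walk.append {x y z : V} {l₁ l₂ : List E} (h₁ : G.Walk x z l₁) (h₂ : G.Walk z y l₂) :
    G.Walk x y (l₁ ++ l₂) := walk_append_iff.2 ⟨z, h₁, h₂⟩

theorem Walk.single (e : E) : G.Walk (G.src e) (G.tgt e) [e] := Walk.cons e _ _ (Walk.nil _)

theorem Walk.rev {x y : V} {l : List E} (h : G.Walk x y l) : G.rev.Walk y x l.reverse := by
  induction h with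
  | nil x => exact Walk.nil x
  | cons e y l _ ih =>
    rw [List.reverse_cons]
    exact ih.append (Walk.single (G := G.rev) e)

theorem Walk.unique {x y z : V} {l : List E} (h₁ : G.Walk x y l) (h₂ : G.Walk x z l) : y = z := by
  induction h₁ with
  | nil x => exact walk_nil_iff.1 h₂
  | cons e y l _ ih => exact ih (walk_cons_iff.1 h₂).2

theorem Walk.split_arc {x y : V} {l₁ l₂ : List E} {e : E} (h : G.Walk x y (l₁ ++ e :: l₂)) :
    G.Walk x (G.src e) l₁ ∧ G.Walk (G.tgt e) y l₂ := by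
  obtain ⟨z, h1, h2⟩ := walk_append_iff.1 h
  obtain ⟨rfl, h3⟩ := walk_cons_iff.1 h2
  exact ⟨h1, h3⟩

theorem Walk.split_vert {x y u : V} {l : List E} (h : G.Walk x y l) (hu : u ∈ G.verts x l) :
    ∃ l₁ l₂, l = l₁ ++ l₂ ∧ G.Walk x u l₁ ∧ G.Walk u y l₂ := by
  induction h with
  | nil x =>
    simp only [verts, List.map_nil, List.mem_singleton] at hu
    subst hu
    exact ⟨[], [], rfl, Walk.nil _, Walk.nil _⟩
  | cons e y l hw ih =>
    simp only [verts, List.map_cons, List.mem_cons] at hu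
    rcases hu with rfl | hu
    · exact ⟨[], e :: l, rfl, Walk.nil _, Walk.cons e y l hw⟩
    · obtain ⟨l₁, l₂, rfl, h1, h2⟩ := ih (by simpa [verts] using hu)
      exact ⟨e :: l₁, l₂, rfl, Walk.cons e _ _ h1, h2⟩

theorem Walk.end_mem {x y : V} {l : List E} (h : G.Walk x y l) : y ∈ G.verts x l := by
  induction h with
  | nil x => simp [verts]
  | cons e y l _ ih => simp only [verts, List.map_cons] at ih ⊢; exact List.mem_cons_of_mem _ ih

theorem tgt_mem_verts {x : V} {l : List E} {e : E} (he : e ∈ l) : G.tgt e ∈ G.verts x l :=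
  List.mem_cons_of_mem _ (List.mem_map_of_mem he)

theorem Walk.src_mem {x y : V} {l : List E} (h : G.Walk x y l) {e : E} (he : e ∈ l) :
    G.src e ∈ G.verts x l := by
  obtain ⟨l₁, l₂, rfl⟩ := List.append_of_mem he
  have := h.split_arc.1.end_mem
  simp only [verts, List.map_append, List.mem_cons, List.mem_append] at this ⊢
  tauto

theorem Walk.verts_suffix {x z : V} {l₁ : List E} (h : G.Walk x z l₁) (l₂ : List E) :
    G.verts z l₂ <:+ G.verts x (l₁ ++ l₂) := by
  induction h with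
  | nil x => simp
  | cons e y l _ ih =>
    simp only [verts, List.cons_append, List.map_cons] at ih ⊢
    exact ih.trans (List.suffix_cons _ _)

/-- Every walk contains a path. -/
theorem Walk.exists_simple {x y : V} {l : List E} (h : G.Walk x y l) :
    ∃ l', l'.Sublist l ∧ G.Walk x y l' ∧ (G.verts x l').Nodup := by
  induction h with
  | nil x => exact ⟨[], List.Sublist.refl _, Walk.nil x, by simp [verts]⟩
  | cons e y l _ ih =>
    obtain ⟨l', hs, hw, hn⟩ := ih
    by_cases hm : G.src e ∈ G.verts (G.tgt e) l'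
    · obtain ⟨l₁, l₂, rfl, h1, h2⟩ := hw.split_vert hm
      exact ⟨l₂, ((List.sublist_append_right _ _).trans hs).cons _, h2,
        hn.sublist (h1.verts_suffix l₂).sublist⟩
    · exact ⟨e :: l', hs.cons_cons _, Walk.cons e y l' hw, List.nodup_cons.2 ⟨hm, hn⟩⟩

theorem nodup_of_verts {x : V} {l : List E} (h : (G.verts x l).Nodup) : l.Nodup :=
  List.Nodup.of_map _ (List.nodup_cons.1 h).2

/-- Positions along a path. -/
theorem Walk.exists_pos {x y : V} {l : List E} (h : G.Walk x y l) (hn : (G.verts x l).Nodup) :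
    ∃ pos : V → ℕ, pos x = 0 ∧ (∀ e ∈ l, pos (G.tgt e) = pos (G.src e) + 1) ∧
      (∀ u ∈ G.verts x l, ∀ v ∈ G.verts x l, pos u = pos v → u = v) ∧
      (∀ u l₁ l₂, l = l₁ ++ l₂ → G.Walk x u l₁ → pos u = l₁.length) := by
  classical
  have key : ∀ u l₁ l₂, l = l₁ ++ l₂ → G.Walk x u l₁ → (G.verts x l).idxOf u = l₁.length := by
    rintro u l₁ l₂ rfl h1
    clear h
    induction h1 with
    | nil x => simp [verts]
    | cons e u l hw ih =>
      simp only [verts, List.cons_append, List.map_cons] at hn ih ⊢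
      have h2 := List.nodup_cons.1 hn
      have h3 : u ∈ G.tgt e :: List.map G.tgt (l ++ l₂) := by
        have := hw.end_mem
        simp only [verts, List.map_append, List.mem_cons, List.mem_append] at this ⊢
        tauto
      have h4 : G.src e ≠ u := fun h => h2.1 (h ▸ h3)
      rw [List.idxOf_cons_ne _ h4, ih h2.2]
      simp
  refine ⟨fun v => (G.verts x l).idxOf v, by simp [verts], fun e he => ?_,
    fun u hu v hv huv => (List.idxOf_inj hu).1 huv, key⟩
  obtain ⟨l₁, l₂, rfl⟩ := List.append_of_mem he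
  have h1 := h.split_arc.1
  show List.idxOf _ _ = List.idxOf _ _ + 1
  rw [key _ l₁ (e :: l₂) rfl h1, key _ (l₁ ++ [e]) l₂ (by simp) (h1.append (Walk.single e))]
  simp

theorem tgt_inj_of_nodup {x : V} {l : List E} (hn : (G.verts x l).Nodup) {e f : E} (he : e ∈ l)
    (hf : f ∈ l) (h : G.tgt e = G.tgt f) : e = f :=
  List.inj_on_of_nodup_map (List.nodup_cons.1 hn).2 he hf h

theorem Walk.src_inj {x y : V} {l : List E} (h : G.Walk x y l) (hn : (G.verts x l).Nodup)
    {e f : E} (he : e ∈ l) (hf : f ∈ l) (hef : G.src e = G.src f) : e = f := by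
  obtain ⟨pos, -, h1, h2, -⟩ := h.exists_pos hn
  refine tgt_inj_of_nodup hn he hf (h2 _ (tgt_mem_verts he) _ (tgt_mem_verts hf) ?_)
  rw [h1 e he, h1 f hf, hef]

theorem Walk.sum_eq {x y : V} {l : List E} (h : G.Walk x y l) (φ : V → ℤ) :
    (l.map fun e => φ (G.src e) - φ (G.tgt e)).sum = φ x - φ y := by
  induction h with
  | nil x => simp
  | cons e y l _ ih => simp [ih]

theorem Reach.refl (F : Finset E) (x : V) : G.Reach F x x := ⟨[], Walk.nil x, by simp⟩

theorem Reach.trans {F : Finset E} {x y z : V} (h₁ : G.Reach F x y) (h₂ : G.Reach F y z) :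
    G.Reach F x z := by
  obtain ⟨l₁, h1, m1⟩ := h₁
  obtain ⟨l₂, h2, m2⟩ := h₂
  refine ⟨l₁ ++ l₂, h1.append h2, fun e he => ?_⟩
  rcases List.mem_append.1 he with h | h
  exacts [m1 e h, m2 e h]

theorem Reach.single {F : Finset E} {e : E} (he : e ∈ F) : G.Reach F (G.src e) (G.tgt e) :=
  ⟨[e], Walk.single e, by simpa using he⟩

theorem Reach.mono {F F' : Finset E} {x y : V} (h : G.Reach F x y) (hF : F ⊆ F') :
    G.Reach F' x y := by
  obtain ⟨l, h1, m1⟩ := h
  exact ⟨l, h1, fun e he => hF (m1 e he)⟩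

theorem Reach.rev {F : Finset E} {x y : V} (h : G.Reach F x y) : G.rev.Reach F y x := by
  obtain ⟨l, h1, m1⟩ := h
  exact ⟨l.reverse, h1.rev, by simpa using m1⟩

theorem reach_rev_iff {F : Finset E} {x y : V} : G.rev.Reach F y x ↔ G.Reach F x y :=
  ⟨fun h => h.rev, fun h => h.rev⟩

theorem Walk.reach [DecidableEq E] {x y : V} {l : List E} (h : G.Walk x y l) :
    G.Reach l.toFinset x y := ⟨l, h, by simp⟩

theorem Reach.induction {F : Finset E} {x y : V} (h : G.Reach F x y) (S : V → Prop) (hx : S x)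
    (hS : ∀ e ∈ F, S (G.src e) → S (G.tgt e)) : S y := by
  obtain ⟨l, h1, m1⟩ := h
  induction h1 with
  | nil x => exact hx
  | cons e y l _ ih =>
    exact ih (hS e (m1 e (by simp)) hx) fun f hf => m1 f (by simp [hf])

theorem reach_iff_rtg {F : Finset E} {x y : V} :
    G.Reach F x y ↔ Relation.ReflTransGen (fun a b => ∃ e ∈ F, G.src e = a ∧ G.tgt e = b) x y := by
  constructor
  · intro h
    exact h.induction _ Relation.ReflTransGen.refl fun e he ih => ih.tail ⟨e, he, rfl, rfl⟩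
  · intro h
    induction h with
    | refl => exact Reach.refl _ _
    | tail _ h ih =>
      obtain ⟨e, he, rfl, rfl⟩ := h
      exact ih.trans (Reach.single he)

theorem Reach.exists_simple {F : Finset E} {x y : V} (h : G.Reach F x y) :
    ∃ l, G.Walk x y l ∧ (∀ e ∈ l, e ∈ F) ∧ (G.verts x l).Nodup := by
  obtain ⟨l, h1, m1⟩ := h
  obtain ⟨l', hs, hw, hn⟩ := h1.exists_simple
  exact ⟨l', hw, fun e he => m1 e (hs.subset he), hn⟩

theorem Reach.mem_Vs {F : Finset E} {x y : V} (h : G.Reach F x y) (hF : G.WF F) (hx : x ∈ G.Vs) :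
    y ∈ G.Vs := h.induction _ hx fun e he _ => (hF e he).2

variable (G) in
open Classical in
/-- Arcs of `A` leaving `S`. -/
noncomputable def cut (A : Finset E) (S : Set V) : Finset E :=
  A.filter fun e => G.src e ∈ S ∧ G.tgt e ∉ S

theorem mem_cut {A : Finset E} {S : Set V} {e : E} :
    e ∈ G.cut A S ↔ e ∈ A ∧ G.src e ∈ S ∧ G.tgt e ∉ S := by
  simp [cut]

theorem cut_rev (A : Finset E) (S : Set V) : G.rev.cut A Sᶜ = G.cut A S := by
  ext e; simp [mem_cut]; tauto

theorem cut_mono {A B : Finset E} (h : A ⊆ B) (S : Set V) : G.cut A S ⊆ G.cut B S := by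
  intro e he
  rw [mem_cut] at he ⊢
  exact ⟨h he.1, he.2⟩

variable (G) in
/-- Every cut separating `x` from `y` has at least `K` arcs. -/
def Rich (A : Finset E) (K : ℕ) (x y : V) : Prop :=
  ∀ S : Set V, x ∈ S → y ∉ S → K ≤ (G.cut A S).card

theorem Rich.refl (A : Finset E) (K : ℕ) (x : V) : G.Rich A K x x := fun _ h h' => absurd h h'

theorem Rich.trans {A : Finset E} {K : ℕ} {x y z : V} (h₁ : G.Rich A K x y) (h₂ : G.Rich A K y z) :
    G.Rich A K x z := fun S hx hz => by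
  by_cases hy : y ∈ S
  exacts [h₂ S hy hz, h₁ S hx hy]

theorem Rich.mono {A B : Finset E} {K : ℕ} {x y : V} (h : G.Rich A K x y) (hAB : A ⊆ B) :
    G.Rich B K x y := fun S hx hy => (h S hx hy).trans (card_le_card (cut_mono hAB S))

theorem Rich.of_le {A : Finset E} {K K' : ℕ} {x y : V} (h : G.Rich A K x y) (hK : K' ≤ K) :
    G.Rich A K' x y := fun S hx hy => hK.trans (h S hx hy)

theorem sum_indicator [DecidableEq E] (H : Finset E) (S : Set V) [DecidablePred (· ∈ S)] :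
    ∑ e ∈ H, ((if G.src e ∈ S then (1 : ℤ) else 0) - (if G.tgt e ∈ S then 1 else 0)) =
      (G.cut H S).card - (G.cut H Sᶜ).card := by
  have h1 : G.cut H S = H.filter fun e => G.src e ∈ S ∧ G.tgt e ∉ S := by
    ext e; simp [mem_cut]
  have h2 : G.cut H Sᶜ = H.filter fun e => G.src e ∉ S ∧ G.tgt e ∈ S := by
    ext e; simp [mem_cut]
  rw [h1, h2, card_filter, card_filter]
  push_cast
  rw [← sum_sub_distrib]
  refine sum_congr rfl fun e _ => ?_
  by_cases ha : G.src e ∈ S <;> by_cases hb : G.tgt e ∈ S <;> simp [ha, hb]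

variable (G) in
/-- Pairwise arc-disjoint connections for the demands indexed by `I`. -/
def Feas {ι : Type} (A : Finset E) (dem : ι → V × V) (I : Finset ι) : Prop :=
  ∃ F : ι → Finset E, (∀ i ∈ I, F i ⊆ A ∧ G.Reach (F i) (dem i).1 (dem i).2) ∧
    ∀ i ∈ I, ∀ j ∈ I, i ≠ j → Disjoint (F i) (F j)

theorem Feas.mono {ι : Type} {A B : Finset E} {dem : ι → V × V} {I : Finset ι}
    (h : G.Feas A dem I) (hAB : A ⊆ B) : G.Feas B dem I := by
  obtain ⟨F, h1, h2⟩ := h
  exact ⟨F, fun i hi => ⟨(h1 i hi).1.trans hAB, (h1 i hi).2⟩, h2⟩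

/-- Augmenting a flow. -/
theorem exists_flow [DecidableEq V] [DecidableEq E] {A : Finset E} {s t : V} (k : ℕ)
    (h : G.Rich A k s t) :
    ∃ H ⊆ A, ∀ φ : V → ℤ, ∑ e ∈ H, (φ (G.src e) - φ (G.tgt e)) = k * (φ s - φ t) := by
  classical
  induction k with
  | zero => exact ⟨∅, by simp, by simp⟩
  | succ k ih =>
    obtain ⟨H, hHA, hH⟩ := ih (h.of_le (by omega))
    let W : Finset V := insert s (A.image G.src ∪ A.image G.tgt)
    let P : Finset V → Prop := fun T => s ∈ T ∧ ∀ x ∈ T, ∃ H' ⊆ A,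
      (∀ φ : V → ℤ, ∑ e ∈ H', (φ (G.src e) - φ (G.tgt e)) = k * (φ s - φ t) + (φ s - φ x)) ∧
      ∀ e, ¬ (G.src e ∈ T ∧ G.tgt e ∈ T) → (e ∈ H' ↔ e ∈ H)
    have h0 : ({s} : Finset V) ∈ W.powerset.filter P := by
      simp only [mem_filter, mem_powerset, P, W]
      refine ⟨by simp, by simp, fun x hx => ⟨H, hHA, fun φ => ?_, fun _ _ => Iff.rfl⟩⟩
      rw [mem_singleton.1 hx, hH]; ring
    obtain ⟨T, hT, hmax⟩ := exists_max_image (W.powerset.filter P) card ⟨_, h0⟩
    obtain ⟨hTW, hsT, hT⟩ : T ⊆ W ∧ P T := by simpa using hT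
    have grow : ∀ y ∈ W, y ∉ T → (∃ H' ⊆ A,
        (∀ φ : V → ℤ, ∑ e ∈ H', (φ (G.src e) - φ (G.tgt e)) = k * (φ s - φ t) + (φ s - φ y)) ∧
        ∀ e, ¬ (G.src e ∈ insert y T ∧ G.tgt e ∈ insert y T) → (e ∈ H' ↔ e ∈ H)) → False := by
      intro y hyW hy hex
      have : insert y T ∈ W.powerset.filter P := by
        simp only [mem_filter, mem_powerset, P]
        refine ⟨insert_subset hyW hTW, mem_insert_of_mem hsT, fun x hx => ?_⟩
        rcases mem_insert.1 hx with rfl | hx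
        · exact hex
        · obtain ⟨H', h1, h2, h3⟩ := hT x hx
          exact ⟨H', h1, h2, fun e he => h3 e fun h' =>
            he ⟨mem_insert_of_mem h'.1, mem_insert_of_mem h'.2⟩⟩
      have := hmax _ this
      rw [card_insert_of_notMem hy] at this
      omega
    by_cases ht : t ∈ T
    · obtain ⟨H', h1, h2, -⟩ := hT t ht
      exact ⟨H', h1, fun φ => by rw [h2]; push_cast; ring⟩
    exfalso
    have hout : G.cut A (T : Set V) ⊆ G.cut H (T : Set V) := by
      intro e he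
      obtain ⟨heA, h1, h2⟩ := mem_cut.1 he
      refine mem_cut.2 ⟨?_, h1, h2⟩
      by_contra heH
      obtain ⟨H', m1, m2, m3⟩ := hT _ h1
      have heH' : e ∉ H' := fun h' => heH ((m3 e fun h'' => h2 h''.2).1 h')
      refine grow (G.tgt e) (by simp [W]; right; right; exact ⟨e, heA, rfl⟩) h2
        ⟨insert e H', insert_subset heA m1, fun φ => ?_, fun f hf => ?_⟩
      · rw [sum_insert heH', m2]; ring
      · have hfe : f ≠ e := by
          rintro rfl
          exact hf ⟨mem_insert_of_mem h1, mem_insert_self _ _⟩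
        rw [mem_insert, ← m3 f fun h' => hf ⟨mem_insert_of_mem h'.1, mem_insert_of_mem h'.2⟩]
        simp [hfe]
    have hin : G.cut H (T : Set V)ᶜ = ∅ := by
      refine eq_empty_of_forall_notMem fun e he => ?_
      obtain ⟨heH, h1, h2⟩ := mem_cut.1 he
      have h2 : G.tgt e ∈ T := by simpa using h2
      have h1 : G.src e ∉ T := by simpa using h1
      obtain ⟨H', m1, m2, m3⟩ := hT _ h2
      have heH' : e ∈ H' := (m3 e fun h'' => h1 h''.1).2 heH
      refine grow (G.src e) (by simp [W]; right; left; exact ⟨e, hHA heH, rfl⟩) h1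
        ⟨H'.erase e, (erase_subset _ _).trans m1, fun φ => ?_, fun f hf => ?_⟩
      · have := add_sum_erase H' (fun e => φ (G.src e) - φ (G.tgt e)) heH'
        rw [m2] at this
        linarith
      · have hfe : f ≠ e := by
          rintro rfl
          exact hf ⟨mem_insert_self _ _, mem_insert_of_mem h2⟩
        rw [mem_erase, ← m3 f fun h' => hf ⟨mem_insert_of_mem h'.1, mem_insert_of_mem h'.2⟩]
        simp [hfe]
    have h1 := hH fun v => if v ∈ (T : Set V) then 1 else 0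
    rw [sum_indicator, hin] at h1
    have h2 := (h (T : Set V) hsT ht).trans (card_le_card hout)
    simp [hsT, ht] at h1
    omega

/-- Decomposing a flow into walks. -/
theorem exists_walks [DecidableEq V] [DecidableEq E] {s t : V} (k : ℕ) (H : Finset E)
    (hH : ∀ φ : V → ℤ, ∑ e ∈ H, (φ (G.src e) - φ (G.tgt e)) = k * (φ s - φ t)) :
    G.Feas H (fun _ : ℕ => (s, t)) (range k) := by
  classical
  induction k generalizing H with
  | zero => exact ⟨fun _ => ∅, by simp, by simp⟩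
  | succ k ih =>
    have hr : G.Reach H s t := by
      by_contra hr
      let S : Set V := {v | G.Reach H s v}
      have h1 := hH fun v => if v ∈ S then 1 else 0
      have h2 : G.cut H S = ∅ := by
        refine eq_empty_of_forall_notMem fun e he => ?_
        obtain ⟨heH, h1, h2⟩ := mem_cut.1 he
        exact h2 (Reach.trans h1 (Reach.single heH))
      have hs : s ∈ S := Reach.refl _ _
      have ht : t ∉ S := hr
      rw [sum_indicator, h2] at h1
      simp [hs, ht] at h1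
      omega
    obtain ⟨l, hw, hl, hn⟩ := hr.exists_simple
    have hsub : l.toFinset ⊆ H := fun e he => hl e (List.mem_toFinset.1 he)
    obtain ⟨F, h1, h2⟩ := ih (H \ l.toFinset) fun φ => by
      have := sum_sdiff (f := fun e => φ (G.src e) - φ (G.tgt e)) hsub
      rw [hH, List.sum_toFinset _ (nodup_of_verts hn), hw.sum_eq] at this
      push_cast at this
      linarith
    refine ⟨Function.update F k l.toFinset, fun i hi => ?_, fun i hi j hj hij => ?_⟩
    · by_cases hik : i = k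
      · subst hik
        simpa using ⟨hsub, hw.reach⟩
      · rw [Function.update_of_ne hik]
        have := h1 i (by simp at hi ⊢; omega)
        exact ⟨this.1.trans sdiff_subset, this.2⟩
    · have hd : ∀ i ∈ range (k + 1), i ≠ k → Disjoint (F i) l.toFinset := fun i hi hik =>
        Disjoint.mono_left (h1 i (by simp at hi ⊢; omega)).1 sdiff_disjoint
      by_cases hik : i = k
      · subst hik
        rw [Function.update_self, Function.update_of_ne hij.symm]
        exact (hd j hj hij.symm).symm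
      · by_cases hjk : j = k
        · subst hjk
          rw [Function.update_self, Function.update_of_ne hik]
          exact hd i hi hik
        · rw [Function.update_of_ne hik, Function.update_of_ne hjk]
          exact h2 i (by simp at hi ⊢; omega) j (by simp at hj ⊢; omega) hij

/-- Menger's theorem for arc-disjoint paths. -/
theorem menger [DecidableEq V] [DecidableEq E] {A : Finset E} {s t : V} {k : ℕ}
    (h : G.Rich A k s t) : G.Feas A (fun _ : ℕ => (s, t)) (range k) := by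
  obtain ⟨H, hHA, hH⟩ := exists_flow k h
  exact (exists_walks k H hH).mono hHA

end MG

end Pool.Agent.P.MP_eb0bd2_lc
end

-- part Pool.Agent.P.MP_eb0bd2_lc.Rich
section

set_option autoImplicit false

namespace Pool.Agent.P.MP_eb0bd2_lc

open Finset

namespace MG

variable {V E : Type} {G : MG V E}

variable (G) in
/-- There is an arc of `A` from `x` to `y`. -/
def Arc (A : Finset E) (x y : V) : Prop := ∃ e ∈ A, G.src e = x ∧ G.tgt e = y

theorem arc_rev {A : Finset E} {x y : V} : G.rev.Arc A x y ↔ G.Arc A y x := by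
  simp [Arc, and_comm]

variable (G) in
/-- Adjacent by an arc of `A` or exceptional. -/
def Nb (A : Finset E) (X : V → Finset V) (x y : V) : Prop := G.Arc A x y ∨ G.Arc A y x ∨ y ∈ X x

variable (G) in
/-- Independence number at most two, after adding a graph of maximum degree `Δ`. -/
def Rob (A : Finset E) (Δ : ℕ) : Prop :=
  ∃ X : V → Finset V, (∀ x, (X x).card ≤ Δ) ∧ (∀ x y, y ∈ X x → x ∈ X y) ∧
    ∀ x ∈ G.Vs, ∀ y ∈ G.Vs, ∀ z ∈ G.Vs, x ≠ y → y ≠ z → x ≠ z →
      G.Nb A X x y ∨ G.Nb A X y z ∨ G.Nb A X x z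

theorem Arc.mono {A B : Finset E} {x y : V} (h : G.Arc A x y) (hAB : A ⊆ B) : G.Arc B x y := by
  obtain ⟨e, he, h⟩ := h
  exact ⟨e, hAB he, h⟩

theorem Rob.mono {A B : Finset E} {Δ : ℕ} (h : G.Rob A Δ) (hAB : A ⊆ B) : G.Rob B Δ := by
  obtain ⟨X, h1, h2, h3⟩ := h
  refine ⟨X, h1, h2, fun x hx y hy z hz a b c => ?_⟩
  have m : ∀ {u v}, G.Nb A X u v → G.Nb B X u v := fun h =>
    h.imp (·.mono hAB) (Or.imp_left (·.mono hAB))
  exact (h3 x hx y hy z hz a b c).imp m (Or.imp m m)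

theorem Rob.rev {A : Finset E} {Δ : ℕ} (h : G.Rob A Δ) : G.rev.Rob A Δ := by
  obtain ⟨X, h1, h2, h3⟩ := h
  refine ⟨X, h1, h2, fun x hx y hy z hz a b c => ?_⟩
  have m : ∀ {u v}, G.Nb A X u v → G.rev.Nb A X u v := fun h => by
    simp only [Nb, arc_rev] at h ⊢; tauto
  exact (h3 x hx y hy z hz a b c).imp m (Or.imp m m)

variable [DecidableEq V] [DecidableEq E]

variable (G) in
/-- Every vertex is an end of at most `d` arcs of `F`. -/
def Deg (F : Finset E) (d : ℕ) : Prop :=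
  ∀ x, (F.filter fun e => G.src e = x ∨ G.tgt e = x).card ≤ d

theorem Rob.sdiff {A F : Finset E} {Δ d : ℕ} (h : G.Rob A Δ) (hF : G.Deg F d) :
    G.Rob (A \ F) (Δ + d) := by
  obtain ⟨X, h1, h2, h3⟩ := h
  let Y : V → Finset V := fun x =>
    (F.filter fun e => G.src e = x ∨ G.tgt e = x).image fun e =>
      if G.src e = x then G.tgt e else G.src e
  have hY : ∀ x y, y ∈ Y x ↔ G.Arc F x y ∨ G.Arc F y x := by
    intro x y
    simp only [Y, mem_image, mem_filter, Arc]
    constructor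
    · rintro ⟨e, ⟨he, h⟩, rfl⟩
      by_cases hs : G.src e = x
      · exact Or.inl ⟨e, he, hs, by simp [hs]⟩
      · exact Or.inr ⟨e, he, by simp [hs], h.resolve_left hs⟩
    · rintro (⟨e, he, rfl, rfl⟩ | ⟨e, he, rfl, rfl⟩)
      · exact ⟨e, ⟨he, Or.inl rfl⟩, by simp⟩
      · refine ⟨e, ⟨he, Or.inr rfl⟩, ?_⟩
        split_ifs with h
        · exact h.symm
        · rfl
  refine ⟨fun x => X x ∪ Y x, fun x => ?_, fun x y h => ?_, fun x hx y hy z hz a b c => ?_⟩
  · exact (card_union_le _ _).trans (add_le_add (h1 x) (card_image_le.trans (hF x)))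
  · simp only [mem_union, hY] at h ⊢
    have := h2 x y
    tauto
  · have s : ∀ {u v}, G.Arc A u v → G.Arc (A \ F) u v ∨ G.Arc F u v := by
      rintro u v ⟨e, he, h⟩
      by_cases hf : e ∈ F
      · exact Or.inr ⟨e, hf, h⟩
      · exact Or.inl ⟨e, mem_sdiff.2 ⟨he, hf⟩, h⟩
    have m : ∀ {u v}, G.Nb A X u v → G.Nb (A \ F) (fun x => X x ∪ Y x) u v := fun h => by
      simp only [Nb, mem_union, hY] at h ⊢
      rcases h with h | h | h
      · have := s h; tauto
      · have := s h; tauto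
      · tauto
    exact (h3 x hx y hy z hz a b c).imp m (Or.imp m m)

theorem Walk.deg {x y : V} {l : List E} (h : G.Walk x y l) (hn : (G.verts x l).Nodup) :
    G.Deg l.toFinset 2 := by
  intro v
  have h1 : (l.toFinset.filter fun e => G.src e = v).card ≤ 1 := card_le_one.2 fun a ha b hb => by
    simp only [mem_filter, List.mem_toFinset] at ha hb
    exact h.src_inj hn ha.1 hb.1 (ha.2.trans hb.2.symm)
  have h2 : (l.toFinset.filter fun e => G.tgt e = v).card ≤ 1 := card_le_one.2 fun a ha b hb => by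
    simp only [mem_filter, List.mem_toFinset] at ha hb
    exact tgt_inj_of_nodup hn ha.1 hb.1 (ha.2.trans hb.2.symm)
  rw [filter_or]
  exact (card_union_le _ _).trans (by omega)

theorem deg_biUnion {ι : Type} {I : Finset ι} {F : ι → Finset E} {d : ℕ}
    (h : ∀ i ∈ I, G.Deg (F i) d) : G.Deg (I.biUnion F) (I.card * d) := by
  intro x
  rw [filter_biUnion]
  exact card_biUnion_le_card_mul _ _ _ fun i hi => h i hi x

theorem deg_card (F : Finset E) : G.Deg F F.card := fun _ => card_filter_le _ _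

theorem Deg.of_le {F : Finset E} {d d' : ℕ} (h : G.Deg F d) (hd : d ≤ d') : G.Deg F d' :=
  fun x => (h x).trans hd

open Classical in
/-- A vertex set all of whose members have few out-neighbours inside it is small. -/
theorem Rob.card_le {A : Finset E} {Δ f : ℕ} (h : G.Rob A Δ) {R : Finset V} (hR : R ⊆ G.Vs)
    (hf : ∀ v ∈ R, (R.filter fun z => z ≠ v ∧ G.Arc A v z).card ≤ f) :
    R.card ≤ 2 * (2 * f + Δ + 1) := by
  obtain ⟨X, h1, h2, h3⟩ := h
  have sub : ∀ R' ⊆ R, R'.Nonempty → ∃ v ∈ R', ∃ R'' ⊆ R', R'.card ≤ R''.card + (2 * f + Δ + 1) ∧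
      ∀ z ∈ R'', z ≠ v ∧ ¬ G.Nb A X v z := by
    intro R' hR' hne
    have hsum := sum_card_bipartiteAbove_eq_sum_card_bipartiteBelow (s := R') (t := R')
      (fun v z => z ≠ v ∧ G.Arc A v z)
    have hle : ∑ z ∈ R', (R'.bipartiteBelow (fun v z => z ≠ v ∧ G.Arc A v z) z).card ≤
        ∑ z ∈ R', f := by
      rw [← hsum]
      refine sum_le_sum fun v hv => le_trans (card_le_card ?_) (hf v (hR' hv))
      exact filter_subset_filter _ hR'
    obtain ⟨v, hv, hin⟩ := exists_le_of_sum_le hne hle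
    let B : Finset V := insert v (((R.filter fun z => z ≠ v ∧ G.Arc A v z) ∪
      R'.bipartiteBelow (fun v z => z ≠ v ∧ G.Arc A v z) v) ∪ X v)
    have hB : B.card ≤ 2 * f + Δ + 1 := by
      refine (card_insert_le _ _).trans ?_
      have a1 := card_union_le ((R.filter fun z => z ≠ v ∧ G.Arc A v z) ∪
        R'.bipartiteBelow (fun v z => z ≠ v ∧ G.Arc A v z) v) (X v)
      have a2 := card_union_le (R.filter fun z => z ≠ v ∧ G.Arc A v z)
        (R'.bipartiteBelow (fun v z => z ≠ v ∧ G.Arc A v z) v)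
      have a3 := hf v (hR' hv)
      have a4 := h1 v
      omega
    refine ⟨v, hv, R' \ B, sdiff_subset, ?_, fun z hz => ?_⟩
    · have := le_card_sdiff B R'
      omega
    · obtain ⟨hz1, hz2⟩ := mem_sdiff.1 hz
      simp only [B, mem_insert, mem_union, mem_filter, mem_bipartiteBelow, not_or] at hz2
      refine ⟨hz2.1, ?_⟩
      rintro (h | h | h)
      · exact hz2.2.1.1 ⟨hR' hz1, hz2.1, h⟩
      · exact hz2.2.1.2 ⟨hz1, Ne.symm hz2.1, h⟩
      · exact hz2.2.2 h
  by_contra hc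
  obtain ⟨x, hx, R₁, hR₁, c1, m1⟩ := sub R Subset.rfl (card_pos.1 (by omega))
  obtain ⟨y, hy, R₂, hR₂, c2, m2⟩ := sub R₁ hR₁ (card_pos.1 (by omega))
  obtain ⟨z, hz⟩ : R₂.Nonempty := card_pos.1 (by omega)
  rcases h3 x (hR hx) y (hR (hR₁ hy)) z (hR (hR₁ (hR₂ hz))) (m1 y hy).1.symm (m2 z hz).1.symm
    (m1 z (hR₂ hz)).1.symm with h | h | h
  exacts [(m1 y hy).2 h, (m2 z hz).2 h, (m1 z (hR₂ hz)).2 h]

/-- The width bound of the richness preorder. -/
def wd (Δ K : ℕ) : ℕ := 2 * (2 * (2 * (2 * K + Δ + 1)) + Δ + 1)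

theorem Rob.exists_rich {A : Finset E} {Δ : ℕ} (h : G.Rob A Δ) (K : ℕ) {X : Finset V}
    (hX : X ⊆ G.Vs) (hc : wd Δ K < X.card) : ∃ x ∈ X, ∃ y ∈ X, x ≠ y ∧ G.Rich A K x y := by
  classical
  obtain ⟨x, hx, hO⟩ : ∃ x ∈ X, 2 * (2 * K + Δ + 1) <
      (X.filter fun z => z ≠ x ∧ G.Arc A x z).card := by
    by_contra hcon
    push Not at hcon
    have := h.card_le hX (f := 2 * (2 * K + Δ + 1)) (by convert hcon)
    unfold wd at hc
    omega
  set O := X.filter fun z => z ≠ x ∧ G.Arc A x z with hOdef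
  obtain ⟨y, hy, hZ⟩ : ∃ y ∈ O, K < (O.filter fun z => z ≠ y ∧ G.rev.Arc A y z).card := by
    by_contra hcon
    push Not at hcon
    have := h.rev.card_le (R := O) ((filter_subset _ _).trans hX) (f := K) (by convert hcon)
    omega
  obtain ⟨hyX, hyx, -⟩ := mem_filter.1 hy
  refine ⟨x, hx, y, hyX, hyx.symm, fun S hxS hyS => ?_⟩
  refine hZ.le.trans (le_trans (card_le_card ?_) (card_image_le
    (f := fun e => if G.src e = x then G.tgt e else G.src e)))
  intro z hz
  obtain ⟨hzO, -, hzy⟩ := mem_filter.1 hz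
  obtain ⟨-, hzx, hxz⟩ := mem_filter.1 hzO
  rw [arc_rev] at hzy
  by_cases hzS : z ∈ S
  · obtain ⟨e, he, rfl, rfl⟩ := hzy
    exact mem_image.2 ⟨e, mem_cut.2 ⟨he, hzS, hyS⟩, by simp [hzx]⟩
  · obtain ⟨e, he, rfl, rfl⟩ := hxz
    exact mem_image.2 ⟨e, mem_cut.2 ⟨he, hxS, hzS⟩, by simp⟩

omit [DecidableEq E] in
theorem exists_gen {r : V → V → Prop} (hrefl : ∀ x, r x x)
    (htrans : ∀ x y z, r x y → r y z → r x z) (Y : Finset V) (w : ℕ)
    (hw : ∀ X ⊆ Y, w < X.card → ∃ x ∈ X, ∃ y ∈ X, x ≠ y ∧ r x y) :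
    ∃ Gs ⊆ Y, Gs.card ≤ w ∧ ∀ y ∈ Y, ∃ g ∈ Gs, r g y := by
  classical
  obtain ⟨Gs, hGs, hmin⟩ := exists_min_image
    (Y.powerset.filter fun Gs => ∀ y ∈ Y, ∃ g ∈ Gs, r g y) card
    ⟨Y, by simp only [mem_filter, mem_powerset]; exact ⟨Subset.rfl, fun y hy => ⟨y, hy, hrefl y⟩⟩⟩
  obtain ⟨h1, h2⟩ : Gs ⊆ Y ∧ ∀ y ∈ Y, ∃ g ∈ Gs, r g y := by simpa using hGs
  refine ⟨Gs, h1, ?_, h2⟩
  by_contra hc
  obtain ⟨x, hx, y, hy, hxy, hr⟩ := hw Gs h1 (by omega)
  have := hmin (Gs.erase y) (by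
    simp only [mem_filter, mem_powerset]
    refine ⟨(erase_subset _ _).trans h1, fun z hz => ?_⟩
    obtain ⟨g, hg, hgz⟩ := h2 z hz
    by_cases hgy : g = y
    · subst hgy
      exact ⟨x, mem_erase.2 ⟨hxy, hx⟩, htrans _ _ _ hr hgz⟩
    · exact ⟨g, mem_erase.2 ⟨hgy, hg⟩, hgz⟩)
  rw [card_erase_of_mem hy] at this
  have := card_pos.2 ⟨y, hy⟩
  omega

/-- Small generating sets on both sides of a cut. -/
theorem Rob.exists_gens {A : Finset E} {Δ : ℕ} (h : G.Rob A Δ) (K : ℕ) (S : Set V) :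
    ∃ Gs Hs : Finset V, Gs.card ≤ wd Δ K ∧ Hs.card ≤ wd Δ K ∧ (∀ g ∈ Gs, g ∈ G.Vs ∧ g ∈ S) ∧
      (∀ g ∈ Hs, g ∈ G.Vs ∧ g ∉ S) ∧ (∀ y ∈ G.Vs, y ∈ S → ∃ g ∈ Gs, G.Rich A K g y) ∧
      (∀ y ∈ G.Vs, y ∉ S → ∃ g ∈ Hs, G.Rich A K y g) := by
  classical
  obtain ⟨Gs, a1, a2, a3⟩ := exists_gen (r := G.Rich A K) (Rich.refl A K)
    (fun _ _ _ => Rich.trans) (G.Vs.filter (· ∈ S)) (wd Δ K)
    fun X hX hc => h.exists_rich K (hX.trans (filter_subset _ _)) hc
  obtain ⟨Hs, b1, b2, b3⟩ := exists_gen (r := fun x y => G.Rich A K y x) (Rich.refl A K)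
    (fun _ _ _ h h' => Rich.trans h' h) (G.Vs.filter (· ∉ S)) (wd Δ K)
    fun X hX hc => by
      obtain ⟨x, hx, y, hy, hxy, hr⟩ := h.exists_rich K (hX.trans (filter_subset _ _)) hc
      exact ⟨y, hy, x, hx, hxy.symm, hr⟩
  exact ⟨Gs, Hs, a2, b2, fun g hg => mem_filter.1 (a1 hg), fun g hg => mem_filter.1 (b1 hg),
    fun y hy hS => a3 y (mem_filter.2 ⟨hy, hS⟩), fun y hy hS => b3 y (mem_filter.2 ⟨hy, hS⟩)⟩

/-- Arcs of `U` leaving `S`, counted through the generating sets. -/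
theorem Rob.card_cut_le {A U : Finset E} {Δ : ℕ} (h : G.Rob A Δ) (hU : G.WF U) (K m : ℕ)
    (S : Set V) (hS : ∀ g ∈ G.Vs, g ∈ S → ∀ g' ∈ G.Vs, g' ∉ S → ∀ B ⊆ U,
      (∀ e ∈ B, G.Rich A K g (G.src e) ∧ G.Rich A K (G.tgt e) g') → B.card ≤ m) :
    (G.cut U S).card ≤ wd Δ K * wd Δ K * m := by
  classical
  obtain ⟨Gs, Hs, c1, c2, m1, m2, g1, g2⟩ := h.exists_gens K S
  have hsub : G.cut U S ⊆ (Gs ×ˢ Hs).biUnion fun p =>
      U.filter fun e => G.Rich A K p.1 (G.src e) ∧ G.Rich A K (G.tgt e) p.2 := by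
    intro e he
    obtain ⟨heU, h1, h2⟩ := mem_cut.1 he
    obtain ⟨g, hg, r1⟩ := g1 _ (hU e heU).1 h1
    obtain ⟨g', hg', r2⟩ := g2 _ (hU e heU).2 h2
    exact mem_biUnion.2 ⟨(g, g'), mem_product.2 ⟨hg, hg'⟩, mem_filter.2 ⟨heU, r1, r2⟩⟩
  refine (card_le_card hsub).trans ((card_biUnion_le_card_mul _ _ m fun p hp => ?_).trans ?_)
  · obtain ⟨hg, hg'⟩ := mem_product.1 hp
    exact hS _ (m1 _ hg).1 (m1 _ hg).2 _ (m2 _ hg').1 (m2 _ hg').2 _ (filter_subset _ _)
      fun e he => (mem_filter.1 he).2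
  · rw [card_product]
    gcongr

/-- Sets closed under richness have small cuts. -/
theorem Rob.card_cut_le_of_closed {A : Finset E} {Δ : ℕ} (h : G.Rob A Δ) (hA : G.WF A) (K : ℕ)
    (S : Set V) (hS : ∀ g ∈ G.Vs, g ∈ S → ∀ g' ∈ G.Vs, G.Rich A K g g' → g' ∈ S) :
    (G.cut A S).card ≤ wd Δ K * wd Δ K * K := by
  refine h.card_cut_le hA K K S fun g hg hgS g' hg' hg'S B hB hr => ?_
  have : ¬ G.Rich A K g g' := fun h' => hg'S (hS g hg hgS g' hg' h')
  simp only [Rich, not_forall, not_le] at this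
  obtain ⟨C, h1, h2, h3⟩ := this
  refine le_trans (card_le_card fun e he => mem_cut.2 ⟨hB he, ?_, ?_⟩) h3.le
  · by_contra hc
    exact absurd ((hr e he).1 C h1 hc) (not_le.2 h3)
  · intro hc
    exact absurd ((hr e he).2 C hc h2) (not_le.2 h3)

end MG

end Pool.Agent.P.MP_eb0bd2_lc
end

-- part Pool.Agent.P.MP_eb0bd2_lc.AllRich
section

set_option autoImplicit false
set_option linter.unusedSectionVars false

namespace Pool.Agent.P.MP_eb0bd2_lc

open Finset

theorem exists_halves {E : Type} [DecidableEq E] (f : E → ℤ) (r : ℕ) (L : Finset E)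
    (hf : ∀ a ∈ L, ∀ b ∈ L, f a = f b → a = b) (hL : 2 * r ≤ L.card) :
    ∃ L₁ ⊆ L, ∃ L₂ ⊆ L, r ≤ L₁.card ∧ r ≤ L₂.card ∧ ∀ a ∈ L₁, ∀ b ∈ L₂, f a < f b := by
  induction r generalizing L with
  | zero => exact ⟨∅, by simp, ∅, by simp, by simp, by simp, by simp⟩
  | succ r ih =>
    obtain ⟨a, ha, hmin⟩ := exists_min_image L f (card_pos.1 (by omega))
    have c1 := card_erase_of_mem ha
    obtain ⟨b, hb, hmax⟩ := exists_max_image (L.erase a) f (card_pos.1 (by omega))
    have c2 := card_erase_of_mem hb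
    have hsub : (L.erase a).erase b ⊆ L := (erase_subset _ _).trans (erase_subset _ _)
    obtain ⟨L₁, s1, L₂, s2, d1, d2, hlt⟩ := ih ((L.erase a).erase b)
      (fun x hx y hy => hf x (hsub hx) y (hsub hy)) (by omega)
    have hlo : ∀ x ∈ L.erase a, f a < f x := fun x hx =>
      lt_of_le_of_ne (hmin x (mem_of_mem_erase hx)) fun h =>
        (mem_erase.1 hx).1 (hf _ ha _ (mem_of_mem_erase hx) h).symm
    refine ⟨insert a L₁, insert_subset ha (s1.trans hsub), insert b L₂,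
      insert_subset (mem_of_mem_erase hb) (s2.trans hsub), ?_, ?_, fun x hx y hy => ?_⟩
    · rw [card_insert_of_notMem fun h => by simpa using s1 h]; omega
    · rw [card_insert_of_notMem fun h => by simpa using s2 h]; omega
    · rcases mem_insert.1 hx with rfl | hx <;> rcases mem_insert.1 hy with rfl | hy
      · exact hlo _ hb
      · exact hlo _ (mem_of_mem_erase (s2 hy))
      · exact lt_of_le_of_ne (hmax x (mem_of_mem_erase (s1 hx))) fun h =>
          (mem_erase.1 (s1 hx)).1 (hf _ (hsub (s1 hx)) _ (mem_of_mem_erase hb) h)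
      · exact hlt x hx y hy

namespace MG

variable {V E : Type} {G : MG V E} [DecidableEq V] [DecidableEq E]

variable (G) in
/-- A path `P` from `s` with positions, having no shortcut among the arcs of `A`. -/
structure Row (A P : Finset E) (s : V) (pos : V → ℤ) (On : Set V) : Prop where
  on_src : ∀ e ∈ P, G.src e ∈ On
  on_tgt : ∀ e ∈ P, G.tgt e ∈ On
  on_s : s ∈ On
  step : ∀ e ∈ P, pos (G.tgt e) = pos (G.src e) + 1
  inj : ∀ u ∈ On, ∀ v ∈ On, pos u = pos v → u = v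
  first : ∀ e ∈ P, pos s ≤ pos (G.src e)
  short : ∀ u ∈ On, ∀ v ∈ On, G.Arc A u v → pos v ≤ pos u + 1
  src_inj : ∀ e ∈ P, ∀ f ∈ P, G.src e = G.src f → e = f

theorem Row.near {A P : Finset E} {s : V} {pos : V → ℤ} {On : Set V} (h : G.Row A P s pos On)
    (a : ℤ) : ∃ N : Finset V, N.card ≤ 2 ∧ ∀ y ∈ On, a ≤ pos y → pos y ≤ a + 1 → y ∈ N := by
  have one : ∀ a : ℤ, ∃ N : Finset V, N.card ≤ 1 ∧ ∀ y ∈ On, pos y = a → y ∈ N := by
    intro a
    by_cases hx : ∃ x ∈ On, pos x = a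
    · obtain ⟨x, hx, rfl⟩ := hx
      exact ⟨{x}, by simp, fun y hy e => mem_singleton.2 (h.inj _ hy _ hx e)⟩
    · exact ⟨∅, by simp, fun y hy e => absurd ⟨y, hy, e⟩ hx⟩
  obtain ⟨N₁, c1, m1⟩ := one a
  obtain ⟨N₂, c2, m2⟩ := one (a + 1)
  refine ⟨N₁ ∪ N₂, (card_union_le _ _).trans (by omega), fun y hy h1 h2 => ?_⟩
  by_cases e : pos y = a
  · exact mem_union_left _ (m1 y hy e)
  · exact mem_union_right _ (m2 y hy (by omega))

theorem Arc.mem_tails {A : Finset E} {x y : V} {S : Set V} (h : G.Arc A x y) (hx : x ∈ S)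
    (hy : y ∉ S) : x ∈ (G.cut A S).image G.src := by
  obtain ⟨e, he, rfl, rfl⟩ := h
  exact mem_image_of_mem _ (mem_cut.2 ⟨he, hx, hy⟩)

theorem Arc.mem_heads {A : Finset E} {x y : V} {S : Set V} (h : G.Arc A x y) (hx : x ∈ S)
    (hy : y ∉ S) : y ∈ (G.cut A S).image G.tgt := by
  obtain ⟨e, he, rfl, rfl⟩ := h
  exact mem_image_of_mem _ (mem_cut.2 ⟨he, hx, hy⟩)

theorem Row.exists_set {A P : Finset E} {s : V} {pos : V → ℤ} {On : Set V}
    (h : G.Row A P s pos On) {X : V → Finset V} {Δ K m : ℕ} (h1 : ∀ x, (X x).card ≤ Δ)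
    (h3 : ∀ x ∈ G.Vs, ∀ y ∈ G.Vs, ∀ z ∈ G.Vs, x ≠ y → y ≠ z → x ≠ z →
      G.Nb A X x y ∨ G.Nb A X y z ∨ G.Nb A X x z)
    (hP : G.WF P) (hs : s ∈ G.Vs) {S S' : Set V} (hsS : s ∉ S) (hsS' : s ∉ S')
    (c1 : (G.cut A S).card ≤ K) (c2 : (G.cut A S').card ≤ K) (c3 : (G.cut P S').card ≤ K)
    (c4 : 2 * (m + 2 * Δ + 3 * K + 5) ≤ (G.cut P S).card) :
    ∃ W : Finset V, m ≤ W.card ∧ ∀ w ∈ W, w ∈ G.Vs ∧ w ∈ S ∧ w ∉ S' ∧ ¬ G.Nb A X s w := by
  classical
  have hc : ∀ e ∈ G.cut P S, e ∈ P := fun e he => (mem_cut.1 he).1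
  obtain ⟨L₁, s1, L₂, s2, d1, d2, hlt⟩ := exists_halves (fun e => pos (G.src e)) _ (G.cut P S)
    (fun a ha b hb e => h.src_inj a (hc a ha) b (hc b hb)
      (h.inj _ (h.on_src a (hc a ha)) _ (h.on_src b (hc b hb)) e)) c4
  obtain ⟨Ns, n1, n2⟩ := h.near (pos s)
  let T := (G.cut A S).image G.src
  let T' := (G.cut A S').image G.src
  have t1 : T.card ≤ K := card_image_le.trans c1
  have t2 : T'.card ≤ K := card_image_le.trans c2
  let B := X s ∪ T ∪ Ns
  have hB : B.card ≤ Δ + K + 2 := by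
    have a1 := card_union_le (X s ∪ T) Ns
    have a2 := card_union_le (X s) T
    have := h1 s
    simp only [B]
    omega
  have hnb : ∀ e ∈ G.cut P S, G.src e ∉ B → ¬ G.Nb A X s (G.src e) := by
    intro e he hb
    simp only [B, mem_union, not_or] at hb
    rintro (a | a | a)
    · exact hb.2 (n2 _ (h.on_src e (hc e he)) (h.first e (hc e he))
        (h.short _ h.on_s _ (h.on_src e (hc e he)) a))
    · exact hb.1.2 (a.mem_tails (mem_cut.1 he).2.1 hsS)
    · exact hb.1.1 a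
  have inj1 : ∀ L ⊆ G.cut P S, (L.image G.src).card = L.card := fun L hL =>
    card_image_of_injOn fun a ha b hb e => h.src_inj a (hc a (hL ha)) b (hc b (hL hb)) e
  have stepB : ∀ e ∈ L₁, G.Nb A X s (G.tgt e) := by
    intro e he
    have heP := hc e (s1 he)
    obtain ⟨Nz, z1, z2⟩ := h.near (pos (G.tgt e))
    obtain ⟨w, hw, hw'⟩ : ∃ w ∈ L₂.image G.src, w ∉ B ∪ (X (G.tgt e) ∪ Nz) := by
      refine exists_mem_notMem_of_card_lt_card ?_
      have a1 := card_union_le B (X (G.tgt e) ∪ Nz)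
      have a2 := card_union_le (X (G.tgt e)) Nz
      have := h1 (G.tgt e)
      rw [inj1 _ s2]
      omega
    obtain ⟨f, hf, rfl⟩ := mem_image.1 hw
    have hfP := hc f (s2 hf)
    have hfS := (mem_cut.1 (s2 hf)).2.1
    have heS := (mem_cut.1 (s1 he)).2.2
    simp only [mem_union, not_or] at hw'
    have p1 := h.step e heP
    have p2 := h.first e heP
    have p3 := hlt e he f hf
    rcases h3 s hs _ (hP e heP).2 _ (hP f hfP).1 (fun e => by rw [← e] at p1; omega)
      (fun e => heS (e ▸ hfS)) (fun e => hsS (e ▸ hfS)) with a | a | a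
    · exact a
    · exfalso
      rcases a with a | a | a
      · exact hw'.2.2 (z2 _ (h.on_src f hfP) (by omega)
          (h.short _ (h.on_tgt e heP) _ (h.on_src f hfP) a))
      · exact hw'.1 (mem_union_left _ (mem_union_right _ (a.mem_tails hfS heS)))
      · exact hw'.2.1 a
    · exact absurd a (hnb f (s2 hf) hw'.1)
  let B' := X s ∪ T' ∪ Ns
  have hB' : B'.card ≤ Δ + K + 2 := by
    have a1 := card_union_le (X s ∪ T') Ns
    have a2 := card_union_le (X s) T'
    have := h1 s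
    simp only [B']
    omega
  let L := L₁ \ ((L₁.filter fun e => G.tgt e ∈ B') ∪ G.cut P S' ∪
    (L₁.filter fun e => G.src e ∈ B))
  have f1 : (L₁.filter fun e => G.tgt e ∈ B').card ≤ B'.card := by
    refine card_le_card_of_injOn G.tgt (fun e he => (mem_filter.1 he).2) fun a ha b hb e => ?_
    have ha := hc a (s1 (mem_filter.1 ha).1)
    have hb := hc b (s1 (mem_filter.1 hb).1)
    refine h.src_inj a ha b hb (h.inj _ (h.on_src a ha) _ (h.on_src b hb) ?_)
    have p1 := h.step a ha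
    have p2 := h.step b hb
    rw [e] at p1
    omega
  have f2 : (L₁.filter fun e => G.src e ∈ B).card ≤ B.card :=
    card_le_card_of_injOn G.src (fun e he => (mem_filter.1 he).2) fun a ha b hb e =>
      h.src_inj a (hc a (s1 (mem_filter.1 ha).1)) b (hc b (s1 (mem_filter.1 hb).1)) e
  refine ⟨L.image G.src, ?_, fun w hw => ?_⟩
  · rw [inj1 _ (sdiff_subset.trans s1)]
    have a0 := le_card_sdiff ((L₁.filter fun e => G.tgt e ∈ B') ∪ G.cut P S' ∪
      (L₁.filter fun e => G.src e ∈ B)) L₁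
    have a1 := card_union_le ((L₁.filter fun e => G.tgt e ∈ B') ∪ G.cut P S')
      (L₁.filter fun e => G.src e ∈ B)
    have a2 := card_union_le (L₁.filter fun e => G.tgt e ∈ B') (G.cut P S')
    omega
  · obtain ⟨e, he, rfl⟩ := mem_image.1 hw
    obtain ⟨he, he'⟩ := mem_sdiff.1 he
    simp only [mem_union, mem_filter, not_or, he, true_and] at he'
    have heP := hc e (s1 he)
    refine ⟨(hP e heP).1, (mem_cut.1 (s1 he)).2.1, fun hS' => ?_, hnb e (s1 he) he'.2⟩
    have hz : G.tgt e ∈ S' := by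
      by_contra hz
      exact he'.1.2 (mem_cut.2 ⟨heP, hS', hz⟩)
    have hb := he'.1.1
    simp only [B', mem_union, not_or] at hb
    rcases stepB e he with a | a | a
    · have p1 := h.step e heP
      have p2 := h.first e heP
      exact hb.2 (n2 _ (h.on_tgt e heP) (by omega) (h.short _ h.on_s _ (h.on_tgt e heP) a))
    · exact hb.1.2 (a.mem_tails hz hsS')
    · exact hb.1.1 a

theorem two_rows {A P P' : Finset E} {s : V} {pos pos' : V → ℤ} {On On' : Set V} {Δ K : ℕ}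
    (hA : G.Rob A Δ) (h : G.Row A P s pos On) (h' : G.Row A P' s pos' On')
    (hP : G.WF P) (hP' : G.WF P') (hs : s ∈ G.Vs) {S S' : Set V} (hsS : s ∉ S) (hsS' : s ∉ S')
    (c1 : (G.cut A S).card ≤ K) (c2 : (G.cut A S').card ≤ K) (c3 : (G.cut P S').card ≤ K)
    (c3' : (G.cut P' S).card ≤ K)
    (c4 : 2 * (3 * Δ + 5 * K + 6) ≤ (G.cut P S).card)
    (c4' : 2 * (3 * Δ + 5 * K + 6) ≤ (G.cut P' S').card) : False := by
  obtain ⟨X, h1, -, h3⟩ := hA
  obtain ⟨W, w1, w2⟩ := h.exists_set (m := Δ + 2 * K + 1) h1 h3 hP hs hsS hsS' c1 c2 c3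
    (by omega)
  obtain ⟨W', w1', w2'⟩ := h'.exists_set (m := Δ + 2 * K + 1) h1 h3 hP' hs hsS' hsS c2 c1 c3'
    (by omega)
  obtain ⟨w, hw, hw'⟩ : ∃ w ∈ W, w ∉ (G.cut A S).image G.src ∪ (G.cut A S').image G.tgt := by
    refine exists_mem_notMem_of_card_lt_card ?_
    have a1 := card_union_le ((G.cut A S).image G.src) ((G.cut A S').image G.tgt)
    have a2 := card_image_le (s := G.cut A S) (f := G.src)
    have a3 := card_image_le (s := G.cut A S') (f := G.tgt)
    omega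
  obtain ⟨z, hz, hz'⟩ : ∃ z ∈ W', z ∉ X w :=
    exists_mem_notMem_of_card_lt_card (by have := h1 w; omega)
  obtain ⟨a1, a2, a3, a4⟩ := w2 w hw
  obtain ⟨b1, b2, b3, b4⟩ := w2' z hz
  simp only [mem_union, not_or] at hw'
  rcases h3 s hs w a1 z b1 (fun e => hsS (e ▸ a2)) (fun e => b3 (e ▸ a2))
    (fun e => hsS' (e ▸ b2)) with a | (a | a | a) | a
  exacts [a4 a, hw'.1 (a.mem_tails a2 b3), hw'.2 (a.mem_heads b2 a3), hz' a, b4 a]

/-- A family of arc-disjoint paths of least total length. -/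
theorem exists_rows {A : Finset E} {s t : V} {N : ℕ} (h : G.Rich A N s t) :
    ∃ P : ℕ → List E,
      (∀ i ∈ range N, G.Walk s t (P i) ∧ (∀ e ∈ P i, e ∈ A) ∧ (G.verts s (P i)).Nodup) ∧
      (∀ i ∈ range N, ∀ j ∈ range N, i ≠ j → Disjoint (P i).toFinset (P j).toFinset) ∧
      ∀ i ∈ range N, ∃ pos On,
        G.Row (A \ (range N).biUnion fun i => (P i).toFinset) (P i).toFinset s pos On ∧
        G.rev.Row (A \ (range N).biUnion fun i => (P i).toFinset) (P i).toFinset t (-pos) On := by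
  classical
  let Q : (ℕ → List E) → Prop := fun P =>
    (∀ i ∈ range N, G.Walk s t (P i) ∧ (∀ e ∈ P i, e ∈ A) ∧ (G.verts s (P i)).Nodup) ∧
      (∀ i ∈ range N, ∀ j ∈ range N, i ≠ j → Disjoint (P i).toFinset (P j).toFinset)
  have hex : ∃ n, ∃ P, Q P ∧ ∑ i ∈ range N, (P i).length = n := by
    obtain ⟨F, h1, h2⟩ := menger h
    have : ∀ i, ∃ l, i ∈ range N → G.Walk s t l ∧ (∀ e ∈ l, e ∈ F i) ∧ (G.verts s l).Nodup := by
      intro i
      by_cases hi : i ∈ range N
      · obtain ⟨l, hl⟩ := (h1 i hi).2.exists_simple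
        exact ⟨l, fun _ => hl⟩
      · exact ⟨[], fun h => absurd h hi⟩
    choose P hP using this
    refine ⟨_, P, ⟨fun i hi => ⟨(hP i hi).1, fun e he => (h1 i hi).1 ((hP i hi).2.1 e he),
      (hP i hi).2.2⟩, fun i hi j hj hij => (h2 i hi j hj hij).mono ?_ ?_⟩, rfl⟩
    · exact fun e he => (hP i hi).2.1 e (List.mem_toFinset.1 he)
    · exact fun e he => (hP j hj).2.1 e (List.mem_toFinset.1 he)
  obtain ⟨P, hQ, hlen⟩ := Nat.find_spec hex
  refine ⟨P, hQ.1, hQ.2, fun i hi => ?_⟩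
  obtain ⟨hw, hA, hn⟩ := hQ.1 i hi
  obtain ⟨pos, p0, p1, p2, p3⟩ := hw.exists_pos hn
  have hshort : ∀ u ∈ G.verts s (P i), ∀ v ∈ G.verts s (P i),
      G.Arc (A \ (range N).biUnion fun i => (P i).toFinset) u v → pos v ≤ pos u + 1 := by
    rintro u hu v hv ⟨f, hf, rfl, rfl⟩
    obtain ⟨hfA, hfU⟩ := mem_sdiff.1 hf
    obtain ⟨l₁, l₂, e1, w1, -⟩ := hw.split_vert hu
    obtain ⟨l₃, l₄, e2, w3, w4⟩ := hw.split_vert hv
    obtain ⟨l, hs, hlw, hln⟩ := (w1.append (Walk.cons f _ _ w4)).exists_simple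
    have hmem : ∀ e ∈ l, e = f ∨ e ∈ P i := by
      intro e he
      have := hs.subset he
      simp only [List.mem_append, List.mem_cons] at this
      rcases this with a | a | a
      · exact Or.inr (e1 ▸ List.mem_append_left _ a)
      · exact Or.inl a
      · exact Or.inr (e2 ▸ List.mem_append_right _ a)
    have hd : ∀ j ∈ range N, j ≠ i → Disjoint (P j).toFinset l.toFinset := by
      intro j hj hji
      refine disjoint_right.2 fun e he he' => ?_
      rcases hmem e (List.mem_toFinset.1 he) with rfl | a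
      · exact hfU (mem_biUnion.2 ⟨j, hj, he'⟩)
      · exact disjoint_left.1 (hQ.2 j hj i hi hji) he' (List.mem_toFinset.2 a)
    have hQ' : Q (Function.update P i l) := by
      refine ⟨fun j hj => ?_, fun j hj j' hj' hjj => ?_⟩
      · by_cases hji : j = i
        · subst hji
          rw [Function.update_self]
          exact ⟨hlw, fun e he => (hmem e he).elim (fun a => a ▸ hfA) (hA e), hln⟩
        · rw [Function.update_of_ne hji]
          exact hQ.1 j hj
      · by_cases hji : j = i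
        · subst hji
          rw [Function.update_self, Function.update_of_ne hjj.symm]
          exact (hd j' hj' hjj.symm).symm
        · by_cases hj'i : j' = i
          · subst hj'i
            rw [Function.update_self, Function.update_of_ne hji]
            exact hd j hj hji
          · rw [Function.update_of_ne hji, Function.update_of_ne hj'i]
            exact hQ.2 j hj j' hj' hjj
    have hmin := Nat.find_min' hex ⟨_, hQ', rfl⟩
    rw [← hlen, ← add_sum_erase _ _ hi, ← add_sum_erase _ _ hi, Function.update_self] at hmin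
    have hsame : ∑ j ∈ (range N).erase i, (Function.update P i l j).length =
        ∑ j ∈ (range N).erase i, (P j).length :=
      sum_congr rfl fun j hj => by rw [Function.update_of_ne (mem_erase.1 hj).1]
    have a1 := hs.length_le
    have a2 := p3 _ _ _ e1 w1
    have a3 := p3 _ _ _ e2 w3
    have a4 := congrArg List.length e2
    simp only [List.length_append, List.length_cons] at a1 a4
    omega
  have hlast : ∀ u ∈ G.verts s (P i), pos u ≤ pos t := by
    intro u hu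
    obtain ⟨l₁, l₂, e1, w1, -⟩ := hw.split_vert hu
    rw [p3 _ _ _ e1 w1, p3 t (P i) [] (by simp) hw, e1]
    simp
  refine ⟨fun v => pos v, {v | v ∈ G.verts s (P i)}, ⟨?_, ?_, ?_, ?_, ?_, ?_, ?_, ?_⟩,
    ⟨?_, ?_, ?_, ?_, ?_, ?_, ?_, ?_⟩⟩
  · exact fun e he => hw.src_mem (List.mem_toFinset.1 he)
  · exact fun e he => tgt_mem_verts (List.mem_toFinset.1 he)
  · simp [verts]
  · exact fun e he => by have := p1 e (List.mem_toFinset.1 he); omega
  · exact fun u hu v hv e => p2 u hu v hv (by omega)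
  · exact fun e he => by omega
  · exact fun u hu v hv a => by have := hshort u hu v hv a; omega
  · exact fun e he f hf => hw.src_inj hn (List.mem_toFinset.1 he) (List.mem_toFinset.1 hf)
  · exact fun e he => tgt_mem_verts (List.mem_toFinset.1 he)
  · exact fun e he => hw.src_mem (List.mem_toFinset.1 he)
  · exact hw.end_mem
  · exact fun e he => by have := p1 e (List.mem_toFinset.1 he); simp; omega
  · exact fun u hu v hv e => p2 u hu v hv (by simpa using e)
  · exact fun e he => by have := hlast _ (tgt_mem_verts (List.mem_toFinset.1 he)); simpa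
  · exact fun u hu v hv a => by have := hshort v hv u hu (arc_rev.1 a); simp; omega
  · exact fun e he f hf =>
      tgt_inj_of_nodup hn (List.mem_toFinset.1 he) (List.mem_toFinset.1 hf)

theorem Walk.cut_nonempty {x y : V} {l : List E} (h : G.Walk x y l) {S : Set V} (hx : x ∈ S)
    (hy : y ∉ S) : (G.cut l.toFinset S).Nonempty := by
  by_contra hc
  refine hy (h.reach.induction (· ∈ S) hx fun e he h1 => ?_)
  by_contra h2
  exact hc ⟨e, mem_cut.2 ⟨he, h1, h2⟩⟩

theorem card_cut_le_add (A F : Finset E) (S : Set V) :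
    (G.cut A S).card ≤ (G.cut (A \ F) S).card + (G.cut F S).card := by
  refine le_trans (card_le_card fun e he => ?_) (card_union_le _ _)
  simp only [mem_union, mem_cut, mem_sdiff] at he ⊢
  tauto

/-- A richly connected pair is joined by a path whose removal keeps rich pairs rich. -/
theorem exists_good_path (Δ K' : ℕ) : ∃ K : ℕ, ∀ (G : MG V E) (A : Finset E) (s t : V),
    G.Rob A Δ → G.WF A → s ∈ G.Vs → t ∈ G.Vs → G.Rich A K s t →
    ∃ l, G.Walk s t l ∧ (∀ e ∈ l, e ∈ A) ∧ (G.verts s l).Nodup ∧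
      ∀ u v, G.Rich A K u v → G.Rich (A \ l.toFinset) K' u v := by
  refine ⟨K' + 3 + 2 * (3 * (Δ + (K' + 3) * 2) + 5 * K' + 6), fun G A s t hA hW hs ht hr => ?_⟩
  obtain ⟨P, h1, h2, h3⟩ := exists_rows (hr.of_le (Nat.le_add_right (K' + 3) _))
  by_contra hcon
  have hbad : ∀ i, ∃ S : Set V, i ∈ range (K' + 3) →
      (G.cut (A \ (P i).toFinset) S).card < K' ∧
      2 * (3 * (Δ + (K' + 3) * 2) + 5 * K' + 6) ≤ (G.cut (P i).toFinset S).card := by
    intro i
    by_cases hi : i ∈ range (K' + 3)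
    · have : ¬ ∀ u v, G.Rich A (K' + 3 + 2 * (3 * (Δ + (K' + 3) * 2) + 5 * K' + 6)) u v →
          G.Rich (A \ (P i).toFinset) K' u v :=
        fun h => hcon ⟨P i, (h1 i hi).1, (h1 i hi).2.1, (h1 i hi).2.2, h⟩
      simp only [Rich, not_forall, not_le] at this
      obtain ⟨u, v, huv, S, hu, hv, hS⟩ := this
      have a1 := huv S hu hv
      have a2 := card_cut_le_add (G := G) A (P i).toFinset S
      exact ⟨S, fun _ => ⟨hS, by omega⟩⟩
    · exact ⟨∅, fun h => absurd h hi⟩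
  choose S hS using hbad
  set A₀ := A \ (range (K' + 3)).biUnion fun i => (P i).toFinset with hA₀
  have hPA : ∀ i ∈ range (K' + 3), (P i).toFinset ⊆ A :=
    fun i hi e he => (h1 i hi).2.1 e (List.mem_toFinset.1 he)
  have hR : G.Rob A₀ (Δ + (K' + 3) * 2) := by
    have := hA.sdiff (deg_biUnion (I := range (K' + 3)) fun i hi => (h1 i hi).1.deg (h1 i hi).2.2)
    rwa [card_range] at this
  have c0 : ∀ i ∈ range (K' + 3), (G.cut A₀ (S i)).card ≤ K' := fun i hi =>
    le_trans (card_le_card (cut_mono (sdiff_subset_sdiff Subset.rfl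
      (subset_biUnion_of_mem (fun i => (P i).toFinset) hi)) _)) (hS i hi).1.le
  have hsub : ∀ i ∈ range (K' + 3), ∀ j ∈ range (K' + 3), i ≠ j →
      (P j).toFinset ⊆ A \ (P i).toFinset := fun i hi j hj hij =>
    subset_sdiff.2 ⟨hPA j hj, h2 j hj i hi hij.symm⟩
  have c1 : ∀ i ∈ range (K' + 3), ∀ j ∈ range (K' + 3), i ≠ j →
      (G.cut (P j).toFinset (S i)).card ≤ K' := fun i hi j hj hij =>
    le_trans (card_le_card (cut_mono (hsub i hi j hj hij) _)) (hS i hi).1.le
  have typ : ∀ i ∈ range (K' + 3), s ∉ S i ∨ t ∈ S i := by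
    intro i hi
    by_contra hc
    push Not at hc
    have a1 : ((range (K' + 3)).erase i).card ≤
        (((range (K' + 3)).erase i).biUnion fun j => G.cut (P j).toFinset (S i)).card := by
      refine card_le_card_biUnion (fun j hj j' hj' hjj => ?_) fun j hj =>
        (h1 j (mem_of_mem_erase hj)).1.cut_nonempty hc.1 hc.2
      refine (h2 j (mem_of_mem_erase hj) j' (mem_of_mem_erase hj') hjj).mono ?_ ?_ <;>
        exact fun e he => (mem_cut.1 he).1
    have a2 : (((range (K' + 3)).erase i).biUnion fun j => G.cut (P j).toFinset (S i)) ⊆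
        G.cut (A \ (P i).toFinset) (S i) := biUnion_subset.2 fun j hj =>
      cut_mono (hsub i hi j (mem_of_mem_erase hj) (mem_erase.1 hj).1.symm) _
    have a3 := card_le_card a2
    have a4 := (hS i hi).1
    rw [card_erase_of_mem hi, card_range] at a1
    omega
  have k1 : ∀ i ∈ range (K' + 3), ∀ j ∈ range (K' + 3), i ≠ j → s ∉ S i → s ∉ S j → False := by
    intro i hi j hj hij a b
    obtain ⟨_, _, r1, -⟩ := h3 i hi
    obtain ⟨_, _, r2, -⟩ := h3 j hj
    exact two_rows hR r1 r2 (hW.mono (hPA i hi)) (hW.mono (hPA j hj)) hs a b (c0 i hi) (c0 j hj)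
      (c1 j hj i hi hij.symm) (c1 i hi j hj hij) (hS i hi).2 (hS j hj).2
  have k2 : ∀ i ∈ range (K' + 3), ∀ j ∈ range (K' + 3), i ≠ j → t ∈ S i → t ∈ S j → False := by
    intro i hi j hj hij a b
    obtain ⟨_, _, -, r1⟩ := h3 i hi
    obtain ⟨_, _, -, r2⟩ := h3 j hj
    refine two_rows (K := K') (S := (S i)ᶜ) (S' := (S j)ᶜ) hR.rev r1 r2 (hW.mono (hPA i hi)).rev
      (hW.mono (hPA j hj)).rev ht (by simpa) (by simpa) ?_ ?_ ?_ ?_ ?_ ?_ <;> rw [cut_rev]
    exacts [c0 i hi, c0 j hj, c1 j hj i hi hij.symm, c1 i hi j hj hij, (hS i hi).2, (hS j hj).2]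
  have m0 : 0 ∈ range (K' + 3) := by simp
  have m1 : 1 ∈ range (K' + 3) := by simp
  have m2 : 2 ∈ range (K' + 3) := by simp
  rcases typ 0 m0 with a | a <;> rcases typ 1 m1 with b | b <;> rcases typ 2 m2 with c | c
  · exact k1 0 m0 1 m1 (by simp) a b
  · exact k1 0 m0 1 m1 (by simp) a b
  · exact k1 0 m0 2 m2 (by simp) a c
  · exact k2 1 m1 2 m2 (by simp) b c
  · exact k1 1 m1 2 m2 (by simp) b c
  · exact k2 0 m0 2 m2 (by simp) a c
  · exact k2 0 m0 1 m1 (by simp) a b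
  · exact k2 0 m0 1 m1 (by simp) a b

theorem Feas.insert {ι : Type} [DecidableEq ι] {A F : Finset E} {dem : ι → V × V} {I : Finset ι}
    {i : ι} (h : G.Feas (A \ F) dem I) (hF : F ⊆ A) (hr : G.Reach F (dem i).1 (dem i).2) :
    G.Feas A dem (insert i I) := by
  obtain ⟨F', h1, h2⟩ := h
  have hd : ∀ j ∈ Insert.insert i I, j ≠ i → Disjoint (F' j) F := fun j hj hji =>
    Disjoint.mono_left (h1 j ((mem_insert.1 hj).resolve_left hji)).1 sdiff_disjoint
  refine ⟨Function.update F' i F, fun j hj => ?_, fun j hj j' hj' hjj => ?_⟩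
  · by_cases hji : j = i
    · subst hji
      simpa using ⟨hF, hr⟩
    · rw [Function.update_of_ne hji]
      have := h1 j ((mem_insert.1 hj).resolve_left hji)
      exact ⟨this.1.trans sdiff_subset, this.2⟩
  · by_cases hji : j = i
    · subst hji
      rw [Function.update_self, Function.update_of_ne hjj.symm]
      exact (hd j' hj' hjj.symm).symm
    · by_cases hj'i : j' = i
      · subst hj'i
        rw [Function.update_self, Function.update_of_ne hji]
        exact hd j hj hji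
      · rw [Function.update_of_ne hji, Function.update_of_ne hj'i]
        exact h2 j ((mem_insert.1 hj).resolve_left hji) j' ((mem_insert.1 hj').resolve_left hj'i)
          hjj

/-- If all demands are rich, they can be met. -/
theorem all_rich {ι : Type} [DecidableEq ι] (k Δ : ℕ) : ∃ K : ℕ, ∀ (G : MG V E) (A : Finset E)
    (dem : ι → V × V) (I : Finset ι), I.card ≤ k → G.Rob A Δ → G.WF A →
    (∀ i ∈ I, (dem i).1 ∈ G.Vs ∧ (dem i).2 ∈ G.Vs ∧ G.Rich A K (dem i).1 (dem i).2) →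
    G.Feas A dem I := by
  induction k generalizing Δ with
  | zero =>
    refine ⟨0, fun G A dem I hI _ _ _ => ?_⟩
    obtain rfl : I = ∅ := card_eq_zero.1 (by omega)
    exact ⟨fun _ => ∅, by simp, by simp⟩
  | succ k ih =>
    obtain ⟨K', hK'⟩ := ih (Δ + 2)
    obtain ⟨K, hK⟩ := exists_good_path (V := V) (E := E) Δ K'
    refine ⟨K, fun G A dem I hI hA hW hd => ?_⟩
    rcases I.eq_empty_or_nonempty with rfl | ⟨i, hi⟩
    · exact ⟨fun _ => ∅, by simp, by simp⟩
    obtain ⟨l, h1, h2, h3, h4⟩ := hK G A _ _ hA hW (hd i hi).1 (hd i hi).2.1 (hd i hi).2.2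
    have := hK' G (A \ l.toFinset) dem (I.erase i) (by rw [card_erase_of_mem hi]; omega)
      (hA.sdiff (h1.deg h3)) (hW.mono sdiff_subset) fun j hj => by
        have := hd j (mem_of_mem_erase hj)
        exact ⟨this.1, this.2.1, h4 _ _ this.2.2⟩
    rw [← insert_erase hi]
    exact this.insert (fun e he => h2 e (List.mem_toFinset.1 he)) h1.reach

end MG

end Pool.Agent.P.MP_eb0bd2_lc
end

-- part Pool.Agent.P.MP_eb0bd2_lc.Lift
section

set_option autoImplicit false
set_option linter.unusedSectionVars false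

namespace Pool.Agent.P.MP_eb0bd2_lc

open Finset

theorem exists_first {E : Type} (p : E → Prop) (l : List E) :
    (∀ e ∈ l, ¬ p e) ∨ ∃ l₁ a l₂, l = l₁ ++ a :: l₂ ∧ p a ∧ ∀ e ∈ l₁, ¬ p e := by
  induction l with
  | nil => simp
  | cons x l ih =>
    by_cases hx : p x
    · exact Or.inr ⟨[], x, l, rfl, hx, by simp⟩
    · rcases ih with h | ⟨l₁, a, l₂, rfl, h1, h2⟩
      · exact Or.inl (by simpa using ⟨hx, h⟩)
      · exact Or.inr ⟨x :: l₁, a, l₂, rfl, h1, by simpa using ⟨hx, h2⟩⟩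

theorem exists_last {E : Type} (p : E → Prop) (l : List E) :
    (∀ e ∈ l, ¬ p e) ∨ ∃ l₁ a l₂, l = l₁ ++ a :: l₂ ∧ p a ∧ ∀ e ∈ l₂, ¬ p e := by
  rcases exists_first p l.reverse with h | ⟨l₁, a, l₂, e, h1, h2⟩
  · exact Or.inl (by simpa using h)
  · refine Or.inr ⟨l₂.reverse, a, l₁.reverse, ?_, h1, by simpa using h2⟩
    simpa using congrArg List.reverse e

namespace MG

variable {V E : Type} {G : MG V E} [DecidableEq V] [DecidableEq E]

theorem Walk.free_middle {x y : V} {l : List E} (h : G.Walk x y l) (hn : l.Nodup) (p : E → Prop) :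
    ∃ (x' y' : V) (Fr Kp Ex : Finset E), Fr ⊆ l.toFinset ∧ Kp ⊆ l.toFinset ∧ Disjoint Fr Kp ∧
      Ex.card ≤ 2 ∧ (∀ e ∈ l, p e → e ∈ Fr ∨ e ∈ Ex) ∧ G.Reach Kp x x' ∧ G.Reach Kp y' y ∧
      ((x' = y ∧ y' = y) ∨ ∃ a ∈ l, ∃ b ∈ l, p a ∧ p b ∧ x' = G.tgt a ∧ y' = G.src b) := by
  rcases exists_first p l with h0 | ⟨l₁, a, r, rfl, ha, h1⟩
  · exact ⟨y, y, ∅, l.toFinset, ∅, by simp, by simp, by simp, by simp,
      fun e he hp => absurd hp (h0 e he), h.reach, Reach.refl _ _, Or.inl ⟨rfl, rfl⟩⟩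
  rcases exists_last p r with h0 | ⟨l₂, b, l₃, rfl, hb, h2⟩
  · refine ⟨y, y, ∅, (l₁ ++ a :: r).toFinset, {a}, by simp, by simp, by simp, by simp,
      fun e he hp => Or.inr ?_, h.reach, Reach.refl _ _, Or.inl ⟨rfl, rfl⟩⟩
    simp only [List.mem_append, List.mem_cons] at he
    rcases he with he | rfl | he
    exacts [absurd hp (h1 e he), mem_singleton_self _, absurd hp (h0 e he)]
  obtain ⟨w1, w2⟩ := h.split_arc
  obtain ⟨-, w3⟩ := w2.split_arc
  refine ⟨G.tgt a, G.src b, l₂.toFinset, (l₁ ++ a :: b :: l₃).toFinset, {a, b}, ?_, ?_, ?_,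
    card_le_two, fun e he hp => ?_, ?_, ?_, Or.inr ⟨a, by simp, b, by simp, ha, hb, rfl, rfl⟩⟩
  · intro e; simp only [List.mem_toFinset, List.mem_append, List.mem_cons]; tauto
  · intro e; simp only [List.mem_toFinset, List.mem_append, List.mem_cons]; tauto
  · rw [disjoint_left]
    intro e he he'
    simp only [List.nodup_append, List.nodup_cons, List.mem_append, List.mem_cons,
      List.mem_toFinset] at hn he he'
    rcases he' with he' | rfl | rfl | he'
    · exact hn.2.2 e he' e (Or.inr (Or.inl he)) rfl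
    · exact hn.2.1.1 (Or.inl he)
    · exact hn.2.1.2.2.2 e he e (Or.inl rfl) rfl
    · exact hn.2.1.2.2.2 e he e (Or.inr he') rfl
  · simp only [List.mem_append, List.mem_cons, List.mem_toFinset, mem_insert,
      mem_singleton] at he ⊢
    have := h1 e
    have := h2 e
    tauto
  · exact ⟨l₁ ++ [a], w1.append (Walk.single a), fun e he => by
      simp only [List.mem_toFinset, List.mem_append, List.mem_cons] at he ⊢; tauto⟩
  · exact ⟨b :: l₃, Walk.cons b _ _ w3, fun e he => by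
      simp only [List.mem_toFinset, List.mem_append, List.mem_cons] at he ⊢; tauto⟩

theorem Feas.exists_paths {ι : Type} {A : Finset E} {dem : ι → V × V} {I : Finset ι}
    (h : G.Feas A dem I) : ∃ P : ι → List E,
      (∀ i ∈ I, G.Walk (dem i).1 (dem i).2 (P i) ∧ (∀ e ∈ P i, e ∈ A) ∧
        (G.verts (dem i).1 (P i)).Nodup) ∧
      ∀ i ∈ I, ∀ j ∈ I, i ≠ j → Disjoint (P i).toFinset (P j).toFinset := by
  obtain ⟨F, h1, h2⟩ := h
  have : ∀ i, ∃ l, i ∈ I → G.Walk (dem i).1 (dem i).2 l ∧ (∀ e ∈ l, e ∈ F i) ∧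
      (G.verts (dem i).1 l).Nodup := by
    intro i
    by_cases hi : i ∈ I
    · obtain ⟨l, hl⟩ := (h1 i hi).2.exists_simple
      exact ⟨l, fun _ => hl⟩
    · exact ⟨[], fun h => absurd h hi⟩
  choose P hP using this
  refine ⟨P, fun i hi => ⟨(hP i hi).1, fun e he => (h1 i hi).1 ((hP i hi).2.1 e he),
    (hP i hi).2.2⟩, fun i hi j hj hij => (h2 i hi j hj hij).mono ?_ ?_⟩
  · exact fun e he => (hP i hi).2.1 e (List.mem_toFinset.1 he)
  · exact fun e he => (hP j hj).2.1 e (List.mem_toFinset.1 he)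

/-- A mutually rich pair can be added to a feasible family of demands. -/
theorem add_rich {ι : Type} [DecidableEq ι] (k Δ : ℕ) : ∃ K : ℕ, ∀ (G : MG V E) (A : Finset E)
    (dem : ι → V × V) (I : Finset ι) (j : ι), I.card ≤ k → j ∉ I → G.Rob A Δ → G.WF A →
    (∀ i ∈ insert j I, (dem i).1 ∈ G.Vs ∧ (dem i).2 ∈ G.Vs) → G.Feas A dem I →
    G.Rich A K (dem j).1 (dem j).2 → G.Rich A K (dem j).2 (dem j).1 →
    G.Feas A dem (insert j I) := by
  classical
  obtain ⟨K₁, hK₁⟩ := all_rich (V := V) (E := E) (ι := ι) (k + 1) (Δ + k * 2)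
  set w := wd (Δ + k * 2) K₁ with hw
  refine ⟨w * w * K₁ + w * w * (K₁ + k * 2) + 1,
    fun G A dem I j hI hj hA hW hd hF huv hvu => ?_⟩
  obtain ⟨P, h1, h2⟩ := hF.exists_paths
  set U := I.biUnion fun i => (P i).toFinset with hU
  have hPA : ∀ i ∈ I, (P i).toFinset ⊆ A := fun i hi e he => (h1 i hi).2.1 e (List.mem_toFinset.1 he)
  have hUA : U ⊆ A := biUnion_subset.2 hPA
  have hR : G.Rob (A \ U) (Δ + k * 2) :=
    hA.sdiff ((deg_biUnion fun i hi => (h1 i hi).1.deg (h1 i hi).2.2).of_le (by omega))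
  let Γ : V → V → Prop := fun x y => G.Rich (A \ U) K₁ x y ∨ ∃ B ⊆ U, K₁ + k * 2 < B.card ∧
    ∀ e ∈ B, G.Rich (A \ U) K₁ x (G.src e) ∧ G.Rich (A \ U) K₁ (G.tgt e) y
  have claim : ∀ x y, G.Rich A (w * w * K₁ + w * w * (K₁ + k * 2) + 1) x y →
      Relation.ReflTransGen Γ x y := by
    intro x y hxy
    by_contra hc
    let S : Set V := {z | Relation.ReflTransGen Γ x z}
    have a1 := hxy S Relation.ReflTransGen.refl hc
    have a2 := card_cut_le_add (G := G) A U S
    have a3 := hR.card_cut_le_of_closed (hW.mono sdiff_subset) K₁ S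
      fun g _ hg g' _ hr => Relation.ReflTransGen.tail hg (Or.inl hr)
    have a4 := hR.card_cut_le (hW.mono hUA) K₁ (K₁ + k * 2) S fun g _ hg g' _ hg' B hB hr => by
      by_contra hlt
      exact hg' (Relation.ReflTransGen.tail hg (Or.inr ⟨B, hB, by omega, hr⟩))
    rw [← hw] at a3 a4
    omega
  set u := (dem j).1 with hu
  let M : V → Prop := fun x => Relation.ReflTransGen Γ u x ∧ Relation.ReflTransGen Γ x u
  let p : E → Prop := fun e => (∃ x, M x ∧ G.Rich (A \ U) K₁ x (G.src e)) ∧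
    ∃ y, M y ∧ G.Rich (A \ U) K₁ (G.tgt e) y
  have hex : ∀ i, ∃ (x' y' : V) (Fr Kp Ex : Finset E), i ∈ I → Fr ⊆ (P i).toFinset ∧
      Kp ⊆ (P i).toFinset ∧ Disjoint Fr Kp ∧ Ex.card ≤ 2 ∧ (∀ e ∈ P i, p e → e ∈ Fr ∨ e ∈ Ex) ∧
      G.Reach Kp (dem i).1 x' ∧ G.Reach Kp y' (dem i).2 ∧ ((x' = (dem i).2 ∧ y' = (dem i).2) ∨
        ∃ a ∈ P i, ∃ b ∈ P i, p a ∧ p b ∧ x' = G.tgt a ∧ y' = G.src b) := by
    intro i
    by_cases hi : i ∈ I
    · obtain ⟨x', y', Fr, Kp, Ex, h⟩ := (h1 i hi).1.free_middle (nodup_of_verts (h1 i hi).2.2) p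
      exact ⟨x', y', Fr, Kp, Ex, fun _ => h⟩
    · exact ⟨u, u, ∅, ∅, ∅, fun h => absurd h hi⟩
  choose x' y' Fr Kp Ex hx using hex
  set A₁ := A \ I.biUnion Kp with hA₁
  have s1 : A \ U ⊆ A₁ := sdiff_subset_sdiff Subset.rfl (biUnion_mono fun i hi => (hx i hi).2.1)
  have s2 : ∀ i ∈ I, Fr i ⊆ A₁ := by
    intro i hi
    refine subset_sdiff.2 ⟨(hx i hi).1.trans (hPA i hi), (disjoint_biUnion_right _ _ _).2
      fun i' hi' => ?_⟩
    by_cases e : i = i'
    · exact e ▸ (hx i hi).2.2.1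
    · exact (h2 i hi i' hi' e).mono (hx i hi).1 (hx i' hi').2.1
  have r1 : ∀ x y, M x → M y → Γ x y → G.Rich A₁ K₁ x y := by
    rintro x y mx my (h | ⟨B, hB, hc, hr⟩)
    · exact h.mono s1
    · intro S hxS hyS
      by_contra hlt
      have hlt' : (G.cut (A \ U) S).card < K₁ :=
        lt_of_le_of_lt (card_le_card (cut_mono s1 S)) (not_le.1 hlt)
      have b1 : B \ I.biUnion Ex ⊆ G.cut A₁ S := by
        intro e he
        obtain ⟨heB, he'⟩ := mem_sdiff.1 he
        obtain ⟨i, hi, hei⟩ := mem_biUnion.1 (hB heB)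
        refine mem_cut.2 ⟨?_, ?_, fun hc => ?_⟩
        · rcases (hx i hi).2.2.2.2.1 e (List.mem_toFinset.1 hei)
            ⟨⟨x, mx, (hr e heB).1⟩, ⟨y, my, (hr e heB).2⟩⟩ with a | a
          · exact s2 i hi a
          · exact absurd (mem_biUnion.2 ⟨i, hi, a⟩) he'
        · by_contra hc
          exact absurd ((hr e heB).1 S hxS hc) (not_le.2 hlt')
        · exact absurd ((hr e heB).2 S hc hyS) (not_le.2 hlt')
      have b2 := card_le_card b1
      have b3 := le_card_sdiff (I.biUnion Ex) B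
      have b4 := card_biUnion_le_card_mul I Ex 2 fun i hi => (hx i hi).2.2.2.1
      omega
  have r2 : ∀ x y, M x → Relation.ReflTransGen Γ x y → M y → G.Rich A₁ K₁ x y := by
    intro x y mx h
    induction h with
    | refl => exact fun _ => Rich.refl _ _ _
    | tail h h' ih =>
      intro my
      have mb : M _ := ⟨mx.1.trans h, (Relation.ReflTransGen.single h').trans my.2⟩
      exact (ih mb).trans (r1 _ _ mb my h')
  have r3 : ∀ x y, M x → M y → G.Rich A₁ K₁ x y := fun x y mx my => r2 x y mx (mx.2.trans my.1) my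
  obtain ⟨F, g1, g2⟩ := hK₁ G A₁ (fun i => if i = j then dem j else (x' i, y' i)) (insert j I)
    (by rw [card_insert_of_notMem hj]; omega) (hR.mono s1) (hW.mono sdiff_subset) fun i hi => by
      by_cases e : i = j
      · simp only [e, if_true]
        have := hd j (mem_insert_self _ _)
        exact ⟨this.1, this.2, r3 _ _ ⟨Relation.ReflTransGen.refl, Relation.ReflTransGen.refl⟩
          ⟨claim _ _ huv, claim _ _ hvu⟩⟩
      · simp only [e, if_false]
        have hi' := (mem_insert.1 hi).resolve_left e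
        rcases (hx i hi').2.2.2.2.2.2.2 with ⟨a, b⟩ | ⟨a, ha, b, hb, pa, pb, e1, e2⟩
        · rw [a, b]
          exact ⟨(hd i hi).2, (hd i hi).2, Rich.refl _ _ _⟩
        · rw [e1, e2]
          obtain ⟨y, my, hy⟩ := pa.2
          obtain ⟨x, mx, hx'⟩ := pb.1
          exact ⟨(hW a ((h1 i hi').2.1 a ha)).2, (hW b ((h1 i hi').2.1 b hb)).1,
            ((hy.mono s1).trans (r3 _ _ my mx)).trans (hx'.mono s1)⟩
  have dK : ∀ i ∈ insert j I, ∀ i' ∈ I, Disjoint (F i) (Kp i') := fun i hi i' hi' =>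
    Disjoint.mono (g1 i hi).1 (subset_biUnion_of_mem Kp hi') sdiff_disjoint
  refine ⟨fun i => if i = j then F i else F i ∪ Kp i, fun i hi => ?_, fun i hi i' hi' hii => ?_⟩
  · have := g1 i hi
    by_cases e : i = j
    · simp only [e, if_true] at this ⊢
      exact ⟨this.1.trans sdiff_subset, this.2⟩
    · simp only [e, if_false] at this ⊢
      have hi' := (mem_insert.1 hi).resolve_left e
      exact ⟨union_subset (this.1.trans sdiff_subset) ((hx i hi').2.1.trans (hPA i hi')),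
        (((hx i hi').2.2.2.2.2.1.mono subset_union_right).trans
          (this.2.mono subset_union_left)).trans
          ((hx i hi').2.2.2.2.2.2.1.mono subset_union_right)⟩
  · have a0 := g2 i hi i' hi' hii
    by_cases e : i = j <;> by_cases e' : i' = j
    · exact absurd (e.trans e'.symm) hii
    · simp only [if_pos e, if_neg e', disjoint_union_right]
      exact ⟨a0, dK i hi i' ((mem_insert.1 hi').resolve_left e')⟩
    · simp only [if_pos e', if_neg e, disjoint_union_left]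
      exact ⟨a0, (dK i' hi' i ((mem_insert.1 hi).resolve_left e)).symm⟩
    · have m := (mem_insert.1 hi).resolve_left e
      have m' := (mem_insert.1 hi').resolve_left e'
      simp only [if_neg e', if_neg e, disjoint_union_left, disjoint_union_right]
      exact ⟨⟨a0, (dK i' hi' i m).symm⟩, dK i hi i' m',
        (h2 i m i' m' hii).mono (hx i m).2.1 (hx i' m').2.1⟩

/-- Extra arcs between mutually rich vertices do not help. -/
theorem lift_tele {ι : Type} [DecidableEq ι] (k Δ : ℕ) : ∃ K : ℕ, ∀ (G : MG V E) (A T : Finset E)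
    (dem : ι → V × V) (I : Finset ι), I.card ≤ k → G.Rob A Δ → G.WF A → G.WF T →
    (∀ i ∈ I, (dem i).1 ∈ G.Vs ∧ (dem i).2 ∈ G.Vs) →
    (∀ e ∈ T, G.Rich A K (G.src e) (G.tgt e) ∧ G.Rich A K (G.tgt e) (G.src e)) →
    G.Feas (A ∪ T) dem I → G.Feas A dem I := by
  obtain ⟨K, hK⟩ := add_rich (V := V) (E := E) (ι := ι ⊕ Bool) (k + 1) Δ
  refine ⟨K, fun G A T dem I hI hA hW hT hd hr hF => ?_⟩
  induction T using Finset.induction_on with
  | empty => simpa using hF
  | insert e T heT ih =>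
    refine ih (hT.mono (subset_insert _ _)) (fun f hf => hr f (mem_insert_of_mem hf)) ?_
    have hWT : G.WF (A ∪ T) := fun f hf => (mem_union.1 hf).elim (hW f)
      fun h => hT f (mem_insert_of_mem h)
    obtain ⟨P, h1, h2⟩ := hF.exists_paths
    have hmem : ∀ i ∈ I, ∀ f ∈ P i, f ≠ e → f ∈ A ∪ T := fun i hi f hf hfe => by
      have := (h1 i hi).2.1 f hf
      simp only [mem_union, mem_insert] at this ⊢
      tauto
    by_cases hex : ∃ i ∈ I, e ∈ P i
    swap
    · exact ⟨fun i => (P i).toFinset, fun i hi => ⟨fun f hf => hmem i hi f (List.mem_toFinset.1 hf)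
        fun a => hex ⟨i, hi, a ▸ List.mem_toFinset.1 hf⟩, (h1 i hi).1.reach⟩, h2⟩
    obtain ⟨i, hi, hei⟩ := hex
    obtain ⟨l₁, l₂, hl⟩ := List.append_of_mem hei
    have hw := (h1 i hi).1
    have hn := nodup_of_verts (h1 i hi).2.2
    rw [hl] at hw hn
    obtain ⟨w1, w2⟩ := hw.split_arc
    simp only [List.nodup_append, List.nodup_cons, List.mem_cons] at hn
    have s1 : l₁.toFinset ⊆ (P i).toFinset := fun f hf => by
      simp only [hl, List.mem_toFinset, List.mem_append] at hf ⊢; tauto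
    have s2 : l₂.toFinset ⊆ (P i).toFinset := fun f hf => by
      simp only [hl, List.mem_toFinset, List.mem_append, List.mem_cons] at hf ⊢; tauto
    have he := hT e (mem_insert_self _ _)
    let dem' : ι ⊕ Bool → V × V := Sum.elim (Function.update dem i ((dem i).1, G.src e))
      fun b => if b then (G.src e, G.tgt e) else (G.tgt e, (dem i).2)
    let P' : ι ⊕ Bool → Finset E := Sum.elim (fun j => if j = i then l₁.toFinset else
      (P j).toFinset) fun _ => l₂.toFinset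
    have d1 : dem' (Sum.inl i) = ((dem i).1, G.src e) := Function.update_self _ _ _
    have d2 : ∀ j, j ≠ i → dem' (Sum.inl j) = dem j := fun j h => Function.update_of_ne h _ _
    have d3 : dem' (Sum.inr true) = (G.src e, G.tgt e) := rfl
    have d4 : dem' (Sum.inr false) = (G.tgt e, (dem i).2) := rfl
    have q1 : P' (Sum.inl i) = l₁.toFinset :=
      if_pos rfl
    have q2 : ∀ j, j ≠ i → P' (Sum.inl j) = (P j).toFinset :=
      fun j h => if_neg h
    have q3 : P' (Sum.inr false) = l₂.toFinset := rfl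
    clear_value dem' P'
    have sP : ∀ j, P' (Sum.inl j) ⊆ (P j).toFinset := fun j => by
      by_cases e : j = i
      · rw [e, q1]; exact s1
      · rw [q2 j e]
    obtain ⟨F, g1, g2⟩ := hK G (A ∪ T) dem' (insert (Sum.inr false) (I.map Function.Embedding.inl))
      (Sum.inr true) ((card_insert_le _ _).trans (by simpa using hI)) (by simp)
      (hA.mono subset_union_left) hWT (by
        simp only [mem_insert, mem_map, Function.Embedding.inl_apply]
        rintro _ (rfl | rfl | ⟨j, hj, rfl⟩)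
        · rw [d3]; exact he
        · rw [d4]; exact ⟨he.2, (hd i hi).2⟩
        · by_cases e : j = i
          · rw [e, d1]; exact ⟨(hd i hi).1, he.1⟩
          · rw [d2 j e]; exact hd j hj)
      ⟨P', by
        simp only [mem_insert, mem_map, Function.Embedding.inl_apply]
        rintro _ (rfl | ⟨j, hj, rfl⟩)
        · rw [q3, d4]
          refine ⟨fun f hf => hmem i hi f (List.mem_toFinset.1 (s2 hf)) ?_, w2.reach⟩
          rintro rfl
          exact hn.2.1.1 (List.mem_toFinset.1 hf)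
        · by_cases e' : j = i
          · subst e'
            rw [q1, d1]
            refine ⟨fun f hf => hmem j hi f (List.mem_toFinset.1 (s1 hf)) ?_, w1.reach⟩
            exact hn.2.2 f (List.mem_toFinset.1 hf) e (Or.inl rfl)
          · rw [q2 j e', d2 j e']
            refine ⟨fun f hf => hmem j hj f (List.mem_toFinset.1 hf) ?_, (h1 j hj).1.reach⟩
            rintro rfl
            exact disjoint_left.1 (h2 j hj i hi e') hf (List.mem_toFinset.2 hei), by
        have key : ∀ j ∈ I, Disjoint (P' (Sum.inl j)) l₂.toFinset := fun j hj => by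
          by_cases e' : j = i
          · subst e'
            rw [q1]
            exact disjoint_left.2 fun f hf hf' => hn.2.2 f (List.mem_toFinset.1 hf) f
              (Or.inr (List.mem_toFinset.1 hf')) rfl
          · exact (h2 j hj i hi e').mono (sP j) s2
        simp only [mem_insert, mem_map, Function.Embedding.inl_apply]
        rintro _ (rfl | ⟨j, hj, rfl⟩) _ (rfl | ⟨j', hj', rfl⟩) hne
        · exact absurd rfl hne
        · rw [q3]; exact (key j' hj').symm
        · rw [q3]; exact key j hj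
        · exact (h2 j hj j' hj' fun a => hne (by rw [a])).mono (sP j) (sP j')⟩
      (by rw [d3]; exact (hr e (mem_insert_self _ _)).1.mono subset_union_left)
      (by rw [d3]; exact (hr e (mem_insert_self _ _)).2.mono subset_union_left)
    have m1 : ∀ j ∈ I, Sum.inl j ∈ insert (Sum.inr true) (insert (Sum.inr false)
      (I.map (Function.Embedding.inl (β := Bool)))) := fun j hj => by simpa using hj
    have m2 : ∀ b, Sum.inr b ∈ insert (Sum.inr true) (insert (Sum.inr false)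
      (I.map (Function.Embedding.inl (β := Bool)))) := fun b => by cases b <;> simp
    refine ⟨fun j => if j = i then F (Sum.inl i) ∪ F (Sum.inr true) ∪ F (Sum.inr false)
      else F (Sum.inl j), fun j hj => ?_, fun j hj j' hj' hjj => ?_⟩
    · by_cases e' : j = i
      · subst e'
        have a1 := g1 _ (m1 j hj)
        have a2 := g1 _ (m2 true)
        have a3 := g1 _ (m2 false)
        rw [d1] at a1
        rw [d3] at a2
        rw [d4] at a3
        simp only [if_true]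
        exact ⟨union_subset (union_subset a1.1 a2.1) a3.1,
          ((a1.2.mono (subset_union_left.trans subset_union_left)).trans
            (a2.2.mono (subset_union_right.trans subset_union_left))).trans
            (a3.2.mono subset_union_right)⟩
      · have := g1 _ (m1 j hj)
        rw [d2 j e'] at this
        simpa only [if_neg e'] using this
    · have key : ∀ j ∈ I, j ≠ i →
          Disjoint (F (Sum.inl j)) (F (Sum.inl i) ∪ F (Sum.inr true) ∪ F (Sum.inr false)) :=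
        fun j hj e' => by
          simp only [disjoint_union_right]
          exact ⟨⟨g2 _ (m1 j hj) _ (m1 i hi) (by simpa using e'),
            g2 _ (m1 j hj) _ (m2 _) (by simp)⟩, g2 _ (m1 j hj) _ (m2 _) (by simp)⟩
      by_cases e1 : j = i <;> by_cases e2 : j' = i
      · exact absurd (e1.trans e2.symm) hjj
      · simp only [if_pos e1, if_neg e2]
        exact (key j' hj' e2).symm
      · simp only [if_neg e1, if_pos e2]
        exact key j hj e1
      · simp only [if_neg e1, if_neg e2]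
        exact g2 _ (m1 j hj) _ (m1 j' hj') (by simpa using hjj)

end MG

end Pool.Agent.P.MP_eb0bd2_lc
end

-- part Pool.Agent.P.MP_eb0bd2_lc.DP
section

set_option autoImplicit false
set_option linter.unusedSectionVars false

namespace Pool.Agent.P.MP_eb0bd2_lc

open Finset Relation

theorem rtg_of_forall {V : Type} {r s : V → V → Prop} (h : ∀ a b, r a b → ReflTransGen s a b)
    {x y : V} (hxy : ReflTransGen r x y) : ReflTransGen s x y := by
  induction hxy with
  | refl => exact ReflTransGen.refl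
  | tail _ h' ih => exact ih.trans (h _ _ h')

theorem rtg_mono {V : Type} {r s : V → V → Prop} {x y : V} (hxy : ReflTransGen r x y)
    (h : ∀ a b, r a b → s a b) : ReflTransGen s x y :=
  rtg_of_forall (fun a b hab => ReflTransGen.single (h a b hab)) hxy

variable {V : Type} [DecidableEq V]

/-- Tagged arcs on a vertex set. -/
def std (Vs : Finset V) : MG V (ℕ × V × V) := ⟨fun e => e.2.1, fun e => e.2.2, Vs⟩

@[simp] theorem std_src (Vs : Finset V) (e : ℕ × V × V) : (std Vs).src e = e.2.1 := rfl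
@[simp] theorem std_tgt (Vs : Finset V) (e : ℕ × V × V) : (std Vs).tgt e = e.2.2 := rfl
@[simp] theorem std_Vs (Vs : Finset V) : (std Vs).Vs = Vs := rfl

/-- The pairs of colour `i`. -/
def Col (R : List (ℕ × V × V)) (i : ℕ) (a b : V) : Prop := (i, a, b) ∈ R

/-- Short lists of coloured pairs. -/
def Short (Vs : Finset V) (k B : ℕ) (R : List (ℕ × V × V)) : Prop :=
  R.length ≤ B ∧ ∀ p ∈ R, p.1 < k ∧ p.2.1 ∈ Vs ∧ p.2.2 ∈ Vs

/-- Admissible new arcs at level `σ`. -/
def ValidN (arc tele : V → V → Prop) (lv : V → ℕ) (σ : ℕ) (N : List (ℕ × V × V)) : Prop :=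
  (∀ p ∈ N, tele p.2.1 p.2.2 ∨ (arc p.2.1 p.2.2 ∧ max (lv p.2.1) (lv p.2.2) = σ)) ∧
    ∀ p ∈ N, ∀ q ∈ N, p.2 = q.2 → p.1 = q.1 ∨ tele p.2.1 p.2.2

/-- The table of the dynamic program. -/
def Tab (Vs : Finset V) (k B : ℕ) (arc tele : V → V → Prop) (lv : V → ℕ) :
    ℕ → List (ℕ × V × V) → Prop
  | 0, R => R = []
  | σ + 1, R' => Short Vs k B R' ∧ ∃ R, Tab Vs k B arc tele lv σ R ∧ ∃ N, Short Vs k B N ∧
      ValidN arc tele lv σ N ∧ ∀ p ∈ R', ReflTransGen (Col (R ++ N) p.1) p.2.1 p.2.2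

theorem Tab.sound {Vs : Finset V} {k B : ℕ} {arc tele : V → V → Prop} {lv : V → ℕ} {σ : ℕ}
    {R : List (ℕ × V × V)} (h : Tab Vs k B arc tele lv σ R) :
    ∃ χ : Finset (ℕ × V × V), (∀ p ∈ χ, arc p.2.1 p.2.2 ∧ max (lv p.2.1) (lv p.2.2) < σ) ∧
      (∀ p ∈ χ, ∀ q ∈ χ, p.2 = q.2 → p.1 = q.1) ∧
      ∀ p ∈ R, ReflTransGen (fun a b => (p.1, a, b) ∈ χ ∨ tele a b) p.2.1 p.2.2 := by
  classical
  induction σ generalizing R with
  | zero =>
    obtain rfl : R = [] := h
    exact ⟨∅, by simp, by simp, by simp⟩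
  | succ σ ih =>
    obtain ⟨-, R₀, h0, N, -, ⟨v1, v2⟩, hc⟩ := h
    obtain ⟨χ, c1, c2, c3⟩ := ih h0
    have hm : ∀ p ∈ N.toFinset.filter fun p => ¬ tele p.2.1 p.2.2,
        p ∈ N ∧ ¬ tele p.2.1 p.2.2 := fun p hp => by simpa using hp
    refine ⟨χ ∪ N.toFinset.filter fun p => ¬ tele p.2.1 p.2.2, fun p hp => ?_,
      fun p hp q hq e => ?_, fun p hp => rtg_of_forall (fun a b hab => ?_) (hc p hp)⟩
    · rcases mem_union.1 hp with a | a
      · exact ⟨(c1 p a).1, (c1 p a).2.trans (by omega)⟩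
      · have := (v1 p (hm p a).1).resolve_left (hm p a).2
        exact ⟨this.1, by omega⟩
    · rcases mem_union.1 hp with a | a <;> rcases mem_union.1 hq with b | b
      · exact c2 p a q b e
      · have a1 := ((v1 q (hm q b).1).resolve_left (hm q b).2).2
        have a2 := (c1 p a).2
        rw [e] at a2
        omega
      · have a1 := ((v1 p (hm p a).1).resolve_left (hm p a).2).2
        have a2 := (c1 q b).2
        rw [e] at a1
        omega
      · exact (v2 p (hm p a).1 q (hm q b).1 e).resolve_right (hm p a).2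
    · rcases List.mem_append.1 hab with a' | a'
      · exact rtg_mono (c3 _ a') fun x y h => h.imp_left (mem_union_left _)
      · refine ReflTransGen.single ?_
        by_cases ht : tele a b
        · exact Or.inr ht
        · exact Or.inl (mem_union_right _ (mem_filter.2 ⟨List.mem_toFinset.2 a', ht⟩))

theorem Tab.complete {Vs : Finset V} {k B c d : ℕ} {arc tele : V → V → Prop} {lv : V → ℕ}
    (dem : ℕ → V × V) (P : ℕ → Finset (ℕ × V × V)) (hB : k * ((2 + 2 * c) * (2 + 2 * c)) ≤ B)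
    (hB' : k * d ≤ B) (hd : ∀ i < k, (dem i).1 ∈ Vs ∧ (dem i).2 ∈ Vs)
    (hW : ∀ i < k, (std Vs).WF (P i))
    (p1 : ∀ i < k, ∀ e ∈ P i, tele e.2.1 e.2.2 ∨ arc e.2.1 e.2.2)
    (p2 : ∀ i < k, ∀ j < k, ∀ e ∈ P i, ∀ f ∈ P j, e.2 = f.2 → i = j ∨ tele e.2.1 e.2.2)
    (p3 : ∀ i < k, ∀ σ, ((P i).filter fun e => max (lv e.2.1) (lv e.2.2) = σ).card ≤ d)
    (p4 : ∀ i < k, ∀ σ, ((P i).filter fun e => ¬ (lv e.2.1 < σ ↔ lv e.2.2 < σ)).card ≤ c)
    (σ : ℕ) : ∃ R, Tab Vs k B arc tele lv σ R ∧ ∀ i < k,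
      (std Vs).Reach ((P i).filter fun e => max (lv e.2.1) (lv e.2.2) < σ) (dem i).1 (dem i).2 →
      ReflTransGen (Col R i) (dem i).1 (dem i).2 := by
  classical
  let Cr : ℕ → ℕ → Finset (ℕ × V × V) := fun i σ =>
    (P i).filter fun e => ¬ (lv e.2.1 < σ ↔ lv e.2.2 < σ)
  let Y : ℕ → ℕ → Finset V := fun i σ =>
    {(dem i).1, (dem i).2} ∪ ((Cr i σ).image (·.2.1) ∪ (Cr i σ).image (·.2.2))
  let In : ℕ → ℕ → Finset (ℕ × V × V) := fun i σ =>
    (P i).filter fun e => max (lv e.2.1) (lv e.2.2) < σ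
  have hY : ∀ i σ a, a ∈ Y i σ ↔ a = (dem i).1 ∨ a = (dem i).2 ∨
      ∃ e ∈ P i, ¬ (lv e.2.1 < σ ↔ lv e.2.2 < σ) ∧ (e.2.1 = a ∨ e.2.2 = a) := by
    intro i σ a
    simp only [Y, Cr, mem_union, mem_insert, mem_singleton, mem_image, mem_filter]
    constructor
    · rintro ((h | h) | ⟨e, h1, h2⟩ | ⟨e, h1, h2⟩)
      exacts [Or.inl h, Or.inr (Or.inl h), Or.inr (Or.inr ⟨e, h1.1, h1.2, Or.inl h2⟩),
        Or.inr (Or.inr ⟨e, h1.1, h1.2, Or.inr h2⟩)]
    · rintro (h | h | ⟨e, h1, h2, h | h⟩)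
      exacts [Or.inl (Or.inl h), Or.inl (Or.inr h), Or.inr (Or.inl ⟨e, ⟨h1, h2⟩, h⟩),
        Or.inr (Or.inr ⟨e, ⟨h1, h2⟩, h⟩)]
  have cY : ∀ i < k, ∀ σ, (Y i σ).card ≤ 2 + 2 * c := by
    intro i hi σ
    have a1 := card_union_le {(dem i).1, (dem i).2}
      ((Cr i σ).image (·.2.1) ∪ (Cr i σ).image (·.2.2))
    have a2 := card_union_le ((Cr i σ).image (·.2.1)) ((Cr i σ).image (·.2.2))
    have a3 := card_image_le (s := Cr i σ) (f := (·.2.1))
    have a4 := card_image_le (s := Cr i σ) (f := (·.2.2))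
    have a5 : (Cr i σ).card ≤ c := p4 i hi σ
    have a6 : ({(dem i).1, (dem i).2} : Finset V).card ≤ 2 := card_le_two
    simp only [Y]
    omega
  have vY : ∀ i < k, ∀ σ, ∀ a ∈ Y i σ, a ∈ Vs := by
    intro i hi σ a ha
    rcases (hY i σ a).1 ha with rfl | rfl | ⟨e, he, -, rfl | rfl⟩
    exacts [(hd i hi).1, (hd i hi).2, (hW i hi e he).1, (hW i hi e he).2]
  suffices h : ∃ R, Tab Vs k B arc tele lv σ R ∧ ∀ i < k, ∀ a ∈ Y i σ, ∀ b ∈ Y i σ,
      (std Vs).Reach (In i σ) a b → ReflTransGen (Col R i) a b by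
    obtain ⟨R, h1, h2⟩ := h
    exact ⟨R, h1, fun i hi => h2 i hi _ ((hY _ _ _).2 (Or.inl rfl)) _
      ((hY _ _ _).2 (Or.inr (Or.inl rfl)))⟩
  induction σ with
  | zero =>
    refine ⟨[], rfl, fun i _ a _ b _ h => ?_⟩
    exact h.induction (ReflTransGen (Col [] i) a) ReflTransGen.refl fun e he => by simp [In] at he
  | succ σ ih =>
    obtain ⟨R, h1, h2⟩ := ih
    let R' : Finset (ℕ × V × V) := (range k).biUnion fun i =>
      ((Y i (σ + 1) ×ˢ Y i (σ + 1)).filter fun p =>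
        (std Vs).Reach (In i (σ + 1)) p.1 p.2).image fun p => (i, p)
    let N : Finset (ℕ × V × V) := (range k).biUnion fun i =>
      ((P i).filter fun e => max (lv e.2.1) (lv e.2.2) = σ).image fun e => (i, e.2)
    have hR' : ∀ p, p ∈ R'.toList ↔ p.1 < k ∧ p.2.1 ∈ Y p.1 (σ + 1) ∧ p.2.2 ∈ Y p.1 (σ + 1) ∧
        (std Vs).Reach (In p.1 (σ + 1)) p.2.1 p.2.2 := by
      rintro ⟨i, a, b⟩
      simp only [R', mem_toList, mem_biUnion, mem_range, mem_image, mem_filter, mem_product]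
      constructor
      · rintro ⟨j, hj, q, hq, e⟩
        cases e
        exact ⟨hj, hq.1.1, hq.1.2, hq.2⟩
      · rintro ⟨a1, a2, a3, a4⟩
        exact ⟨i, a1, (a, b), ⟨⟨a2, a3⟩, a4⟩, rfl⟩
    have hN : ∀ p, p ∈ N.toList ↔ p.1 < k ∧ ∃ e ∈ P p.1, max (lv e.2.1) (lv e.2.2) = σ ∧
        e.2 = p.2 := by
      rintro ⟨i, a⟩
      simp only [N, mem_toList, mem_biUnion, mem_range, mem_image, mem_filter]
      constructor
      · rintro ⟨j, hj, q, hq, e⟩
        cases e
        exact ⟨hj, q, hq.1, hq.2, rfl⟩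
      · rintro ⟨a1, e, a2, a3, rfl⟩
        exact ⟨i, a1, e, ⟨a2, a3⟩, rfl⟩
    refine ⟨R'.toList, ⟨⟨?_, fun p hp => ?_⟩, R, h1, N.toList, ⟨?_, fun p hp => ?_⟩,
      ⟨fun p hp => ?_, fun p hp q hq e => ?_⟩, fun p hp => ?_⟩, fun i hi a ha b hb hr => ?_⟩
    · rw [length_toList]
      refine le_trans (card_biUnion_le_card_mul _ _ ((2 + 2 * c) * (2 + 2 * c)) fun i hi => ?_)
        (by rwa [card_range])
      refine card_image_le.trans ((card_filter_le _ _).trans ?_)
      rw [card_product]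
      have := cY i (mem_range.1 hi) (σ + 1)
      gcongr
    · obtain ⟨a1, a2, a3, -⟩ := (hR' p).1 hp
      exact ⟨a1, vY _ a1 _ _ a2, vY _ a1 _ _ a3⟩
    · rw [length_toList]
      exact le_trans (card_biUnion_le_card_mul _ _ d fun i hi =>
        card_image_le.trans (p3 i (mem_range.1 hi) σ)) (by rwa [card_range])
    · obtain ⟨a1, e, a2, -, a4⟩ := (hN p).1 hp
      rw [← a4]
      exact ⟨a1, hW _ a1 e a2⟩
    · obtain ⟨a1, e, a2, a3, a4⟩ := (hN p).1 hp
      rw [← a4]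
      exact (p1 _ a1 e a2).imp_right fun h => ⟨h, a3⟩
    · obtain ⟨a1, e₁, a2, -, a4⟩ := (hN p).1 hp
      obtain ⟨b1, e₂, b2, -, b4⟩ := (hN q).1 hq
      rw [← a4]
      exact p2 _ a1 _ b1 _ a2 _ b2 (by rw [a4, b4, e])
    · obtain ⟨i, a, b⟩ := p
      obtain ⟨hi, ha, hb, hr⟩ := (hR' _).1 hp
      simp only at hi ha hb hr ⊢
      let Z : V → Prop := fun z => z ∈ Y i σ ∨ σ ≤ lv z
      have z1 : ∀ z ∈ Y i (σ + 1), Z z := by
        intro z hz
        by_cases hl : σ ≤ lv z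
        · exact Or.inr hl
        refine Or.inl ((hY _ _ _).2 ?_)
        rcases (hY _ _ _).1 hz with h | h | ⟨e, he, h, h'⟩
        · exact Or.inl h
        · exact Or.inr (Or.inl h)
        · refine Or.inr (Or.inr ⟨e, he, ?_, h'⟩)
          rcases h' with rfl | rfl <;> omega
      have close : ∀ z₀ z, Z z₀ → Z z → (std Vs).Reach (In i σ) z₀ z →
          ReflTransGen (Col (R ++ N.toList) i) z₀ z := by
        intro z₀ z m₀ m hr
        have : z₀ = z ∨ (lv z₀ < σ ∧ lv z < σ) := by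
          refine hr.induction (fun z => z₀ = z ∨ (lv z₀ < σ ∧ lv z < σ)) (Or.inl rfl)
            fun e he h => Or.inr ?_
          have := (mem_filter.1 he).2
          simp only [std_src, std_tgt] at h ⊢
          rcases h with rfl | h <;> omega
        rcases this with rfl | ⟨l₀, l⟩
        · exact ReflTransGen.refl
        · exact rtg_mono (h2 i hi z₀ (m₀.resolve_right (by omega)) z (m.resolve_right (by omega)) hr)
            fun x y h => List.mem_append_left _ h
      obtain ⟨z₀, m₀, r1, r2⟩ := hr.induction (fun z => ∃ z₀, Z z₀ ∧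
          ReflTransGen (Col (R ++ N.toList) i) a z₀ ∧ (std Vs).Reach (In i σ) z₀ z)
        ⟨a, z1 a ha, ReflTransGen.refl, MG.Reach.refl _ _⟩ fun e he ⟨z₀, m₀, r1, r2⟩ => by
          obtain ⟨heP, hl⟩ := mem_filter.1 he
          by_cases hl' : max (lv e.2.1) (lv e.2.2) < σ
          · exact ⟨z₀, m₀, r1, r2.trans (MG.Reach.single (mem_filter.2 ⟨heP, hl'⟩))⟩
          · have m1 : Z e.2.1 := by
              by_cases h : σ ≤ lv e.2.1
              · exact Or.inr h
              · exact Or.inl ((hY _ _ _).2 (Or.inr (Or.inr ⟨e, heP, by omega, Or.inl rfl⟩)))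
            have m2 : Z e.2.2 := by
              by_cases h : σ ≤ lv e.2.2
              · exact Or.inr h
              · exact Or.inl ((hY _ _ _).2 (Or.inr (Or.inr ⟨e, heP, by omega, Or.inr rfl⟩)))
            exact ⟨e.2.2, m2, (r1.trans (close _ _ m₀ m1 r2)).tail (List.mem_append_right _
              ((hN (i, e.2.1, e.2.2)).2 ⟨hi, e, heP, by omega, rfl⟩)), MG.Reach.refl _ _⟩
      exact r1.trans (close _ _ m₀ (z1 b hb) r2)
    · exact ReflTransGen.single ((hR' (i, a, b)).2 ⟨hi, ha, hb, hr⟩)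

open Classical in
/-- The number of vertices richly reachable from `x`. -/
noncomputable def lvl (Vs : Finset V) (A : Finset (ℕ × V × V)) (K : ℕ) (x : V) : ℕ :=
  (Vs.filter fun y => (std Vs).Rich A K x y).card

/-- Mutually rich vertices. -/
def Tele (Vs : Finset V) (A : Finset (ℕ × V × V)) (K : ℕ) (x y : V) : Prop :=
  x ∈ Vs ∧ y ∈ Vs ∧ (std Vs).Rich A K x y ∧ (std Vs).Rich A K y x

theorem lvl_le {Vs : Finset V} {A : Finset (ℕ × V × V)} {K : ℕ} {x y : V}
    (h : (std Vs).Rich A K x y) : lvl Vs A K y ≤ lvl Vs A K x := by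
  classical
  refine card_le_card fun z hz => ?_
  simp only [mem_filter] at hz ⊢
  exact ⟨hz.1, h.trans hz.2⟩

theorem rich_of_lvl {Vs : Finset V} {A : Finset (ℕ × V × V)} {K : ℕ} {x y : V} (hx : x ∈ Vs)
    (h : (std Vs).Rich A K x y) (e : lvl Vs A K x ≤ lvl Vs A K y) : (std Vs).Rich A K y x := by
  classical
  have := eq_of_subset_of_card_le (s := Vs.filter fun z => (std Vs).Rich A K y z)
    (t := Vs.filter fun z => (std Vs).Rich A K x z) (fun z hz => by
      simp only [mem_filter] at hz ⊢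
      exact ⟨hz.1, h.trans hz.2⟩) (by unfold lvl at e; convert e)
  have h1 : x ∈ Vs.filter fun z => (std Vs).Rich A K x z := mem_filter.2 ⟨hx, MG.Rich.refl _ _ _⟩
  rw [← this] at h1
  exact (mem_filter.1 h1).2

theorem exists_nice {Vs : Finset V} {A F : Finset (ℕ × V × V)} {Δ : ℕ} (K : ℕ)
    (hA : (std Vs).Rob A Δ) (hW : (std Vs).WF A) (hF : F ⊆ A) {s t : V}
    (hr : (std Vs).Reach F s t) : ∃ P : Finset (ℕ × V × V), (std Vs).WF P ∧
      (∀ e ∈ P, Tele Vs A K e.2.1 e.2.2 ∨ e ∈ F) ∧ (std Vs).Reach P s t ∧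
      (∀ σ, (P.filter fun e => max (lvl Vs A K e.2.1) (lvl Vs A K e.2.2) = σ).card ≤
        MG.wd Δ K * 4 * 2) ∧
      ∀ σ, (P.filter fun e => ¬ (lvl Vs A K e.2.1 < σ ↔ lvl Vs A K e.2.2 < σ)).card ≤
        2 * (MG.wd Δ K * MG.wd Δ K * K) + 1 := by
  classical
  let T : Finset (ℕ × V × V) := ((Vs ×ˢ Vs).filter fun p => Tele Vs A K p.1 p.2).image
    fun p => (0, p)
  have hT : ∀ e ∈ T, Tele Vs A K e.2.1 e.2.2 := by
    intro e he
    obtain ⟨p, hp, rfl⟩ := mem_image.1 he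
    exact (mem_filter.1 hp).2
  have hT' : ∀ x y, Tele Vs A K x y → (0, x, y) ∈ T := fun x y h =>
    mem_image.2 ⟨(x, y), mem_filter.2 ⟨mem_product.2 ⟨h.1, h.2.1⟩, h⟩, rfl⟩
  have h1 : (std Vs).Rich (F ∪ T) 1 s t := fun S hs ht => by
    obtain ⟨l, hl, hm⟩ := hr
    exact card_pos.2 ((hl.cut_nonempty hs ht).mono (MG.cut_mono (fun e he =>
      mem_union_left _ (hm e (List.mem_toFinset.1 he))) _))
  obtain ⟨P, a1, -, a3⟩ := MG.exists_rows h1
  obtain ⟨hw, hm, hn⟩ := a1 0 (by simp)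
  obtain ⟨pos, On, hrow, -⟩ := a3 0 (by simp)
  simp only [range_one, singleton_biUnion] at hrow
  have hP : ∀ e ∈ (P 0).toFinset, Tele Vs A K e.2.1 e.2.2 ∨ e ∈ F := fun e he =>
    (mem_union.1 (hm e (List.mem_toFinset.1 he))).symm.imp_left (hT e)
  have hWP : (std Vs).WF (P 0).toFinset := fun e he =>
    (hP e he).elim (fun h => ⟨h.1, h.2.1⟩) fun h => hW e (hF h)
  have hshort : ∀ u ∈ On, ∀ v ∈ On, Tele Vs A K u v → pos v ≤ pos u + 1 := by
    intro u hu v hv h
    by_cases hf : (0, u, v) ∈ (P 0).toFinset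
    · exact (hrow.step _ hf).le
    · exact hrow.short u hu v hv ⟨(0, u, v), mem_sdiff.2 ⟨mem_union_right _ (hT' u v h), hf⟩,
        rfl, rfl⟩
  refine ⟨(P 0).toFinset, hWP, hP, hw.reach, fun σ => ?_, fun σ => ?_⟩
  · let X := Vs.filter fun v => v ∈ On ∧ lvl Vs A K v = σ
    obtain ⟨Gs, g1, g2, g3⟩ := MG.exists_gen (r := (std Vs).Rich A K) (MG.Rich.refl A K)
      (fun _ _ _ => MG.Rich.trans) X (MG.wd Δ K)
      fun Y hY hc => hA.exists_rich K (hY.trans (filter_subset _ _)) hc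
    choose Nr n1 n2 using hrow.near
    have hX : X ⊆ Gs.biUnion fun g => Nr (pos g - 1) ∪ Nr (pos g) := by
      intro y hy
      obtain ⟨g, hg, r⟩ := g3 y hy
      obtain ⟨y1, y2, y3⟩ := mem_filter.1 hy
      obtain ⟨x1, x2, x3⟩ := mem_filter.1 (g1 hg)
      have r' := rich_of_lvl x1 r (by omega)
      have b1 := hshort g x2 y y2 ⟨x1, y1, r, r'⟩
      have b2 := hshort y y2 g x2 ⟨y1, x1, r', r⟩
      refine mem_biUnion.2 ⟨g, hg, ?_⟩
      by_cases h : pos g ≤ pos y
      · exact mem_union_right _ (n2 _ y y2 h b1)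
      · exact mem_union_left _ (n2 _ y y2 (by omega) (by omega))
    have cX : X.card ≤ MG.wd Δ K * 4 := by
      refine (card_le_card hX).trans ((card_biUnion_le_card_mul _ _ 4 fun g _ => ?_).trans
        (by gcongr))
      have := n1 (pos g - 1)
      have := n1 (pos g)
      exact (card_union_le _ _).trans (by omega)
    have hsub : ((P 0).toFinset.filter fun e => max (lvl Vs A K e.2.1) (lvl Vs A K e.2.2) = σ) ⊆
        X.biUnion fun x => (P 0).toFinset.filter fun e =>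
          (std Vs).src e = x ∨ (std Vs).tgt e = x := by
      intro e he
      obtain ⟨he, hl⟩ := mem_filter.1 he
      by_cases h : lvl Vs A K e.2.1 = σ
      · exact mem_biUnion.2 ⟨e.2.1, mem_filter.2 ⟨(hWP e he).1, hrow.on_src e he, h⟩,
          mem_filter.2 ⟨he, Or.inl rfl⟩⟩
      · exact mem_biUnion.2 ⟨e.2.2, mem_filter.2 ⟨(hWP e he).2, hrow.on_tgt e he, by omega⟩,
          mem_filter.2 ⟨he, Or.inr rfl⟩⟩
    exact (card_le_card hsub).trans ((card_biUnion_le_card_mul _ _ 2 fun x _ =>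
      hw.deg hn x).trans (by gcongr))
  · let L : Set V := {v | lvl Vs A K v < σ}
    have c1 := hA.card_cut_le_of_closed hW K L fun g _ hg g' _ r => lt_of_le_of_lt (lvl_le r) hg
    have c2 : (std Vs).cut (P 0).toFinset L ⊆ (std Vs).cut A L := by
      intro e he
      obtain ⟨b1, b2, b3⟩ := MG.mem_cut.1 he
      refine MG.mem_cut.2 ⟨hF ((hP e b1).resolve_left fun h => ?_), b2, b3⟩
      exact b3 (lt_of_le_of_lt (lvl_le h.2.2.1) b2)
    have c3 := MG.sum_indicator (G := std Vs) (P 0).toFinset L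
    rw [List.sum_toFinset _ (MG.nodup_of_verts hn),
      hw.sum_eq fun v => if v ∈ L then (1 : ℤ) else 0] at c3
    have c4 := card_le_card c2
    have c5 : ((P 0).toFinset.filter fun e => ¬ (lvl Vs A K e.2.1 < σ ↔ lvl Vs A K e.2.2 < σ)) ⊆
        (std Vs).cut (P 0).toFinset L ∪ (std Vs).cut (P 0).toFinset Lᶜ := by
      intro e he
      obtain ⟨he, hl⟩ := mem_filter.1 he
      simp only [mem_union, MG.mem_cut, L, he, true_and, std_src, std_tgt, Set.mem_compl_iff,
        Set.mem_ofPred_eq]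
      tauto
    have c6 := (card_le_card c5).trans (card_union_le _ _)
    split_ifs at c3 <;> omega

/-- Correctness of the dynamic program. -/
theorem dp_correct (k Δ : ℕ) : ∃ K B : ℕ, ∀ (Vs : Finset V) (A : Finset (ℕ × V × V))
    (dem : ℕ → V × V) (m : ℕ), m ≤ k → (std Vs).Rob A Δ → (std Vs).WF A → (∀ e ∈ A, e.1 = 0) →
    (∀ i < m, (dem i).1 ∈ Vs ∧ (dem i).2 ∈ Vs) →
    ((std Vs).Feas A dem (range m) ↔
      ∃ R, Tab Vs k B (fun x y => (0, x, y) ∈ A) (Tele Vs A K) (lvl Vs A K) (Vs.card + 1) R ∧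
        ∀ i < m, ReflTransGen (Col R i) (dem i).1 (dem i).2) := by
  classical
  obtain ⟨K, hK⟩ := MG.lift_tele (V := V) (E := ℕ × V × V) (ι := ℕ) k Δ
  set w := MG.wd Δ K
  refine ⟨K, k * ((2 + 2 * (2 * (w * w * K) + 1)) * (2 + 2 * (2 * (w * w * K) + 1))) +
    k * (w * 4 * 2), fun Vs A dem m hm hA hW h0 hd => ⟨?_, ?_⟩⟩
  · rintro ⟨F, h1, h2⟩
    rcases Nat.eq_zero_or_pos m with rfl | hm0
    · obtain ⟨R, hR, -⟩ := Tab.complete (Vs := Vs) (k := 0) (B := 0) (c := 0) (d := 0)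
        (arc := fun x y => (0, x, y) ∈ A) (tele := Tele Vs A K) (lv := lvl Vs A K) dem
        (fun _ => ∅) (by simp) (by simp) (by simp) (by simp) (by simp) (by simp) (by simp)
        (by simp) (Vs.card + 1)
      have mono : ∀ k B σ R, Tab Vs 0 0 (fun x y => (0, x, y) ∈ A) (Tele Vs A K) (lvl Vs A K) σ R →
          Tab Vs k B (fun x y => (0, x, y) ∈ A) (Tele Vs A K) (lvl Vs A K) σ R := by
        intro k B σ
        have sh : ∀ R, Short Vs 0 0 R → Short Vs k B R := fun R h =>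
          ⟨h.1.trans (Nat.zero_le _), fun p hp => absurd (h.2 p hp).1 (by simp)⟩
        induction σ with
        | zero => exact fun R h => h
        | succ σ ih =>
          rintro R ⟨a1, R₀, a2, N, a3, a4⟩
          exact ⟨sh _ a1, R₀, ih _ a2, N, sh _ a3, a4⟩
      exact ⟨R, mono _ _ _ _ hR, by simp⟩
    have hex : ∀ i, ∃ P : Finset (ℕ × V × V), (std Vs).WF P ∧
        (∀ e ∈ P, Tele Vs A K e.2.1 e.2.2 ∨ (i < m ∧ e ∈ F i)) ∧
        (i < m → (std Vs).Reach P (dem i).1 (dem i).2) ∧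
        (∀ σ, (P.filter fun e => max (lvl Vs A K e.2.1) (lvl Vs A K e.2.2) = σ).card ≤ w * 4 * 2) ∧
        ∀ σ, (P.filter fun e => ¬ (lvl Vs A K e.2.1 < σ ↔ lvl Vs A K e.2.2 < σ)).card ≤
          2 * (w * w * K) + 1 := by
      intro i
      by_cases hi : i < m
      · obtain ⟨P, a1, a2, a3, a4⟩ := exists_nice K hA hW (h1 i (mem_range.2 hi)).1
          (h1 i (mem_range.2 hi)).2
        exact ⟨P, a1, fun e he => (a2 e he).imp_right fun h => ⟨hi, h⟩, fun _ => a3, a4⟩
      · exact ⟨∅, fun e he => by simp at he, by simp, fun h => absurd h hi, by simp, by simp⟩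
    choose P a1 a2 a3 a4 a5 using hex
    obtain ⟨R, hR, hc⟩ := Tab.complete (Vs := Vs) (k := k)
      (B := k * ((2 + 2 * (2 * (w * w * K) + 1)) * (2 + 2 * (2 * (w * w * K) + 1))) +
        k * (w * 4 * 2)) (c := 2 * (w * w * K) + 1) (d := w * 4 * 2)
      (arc := fun x y => (0, x, y) ∈ A) (tele := Tele Vs A K) (lv := lvl Vs A K)
      (fun i => if i < m then dem i else dem 0) P (Nat.le_add_right _ _) (Nat.le_add_left _ _)
      (fun i _ => by split_ifs with h; exacts [hd i h, hd 0 hm0]) (fun i _ => a1 i)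
      (fun i _ e he => (a2 i e he).imp_right fun h => by
        have hA' := (h1 i (mem_range.2 h.1)).1 h.2
        rw [← h0 e hA']
        exact hA')
      (fun i _ j _ e he f hf hef => by
        by_cases ht : Tele Vs A K e.2.1 e.2.2
        · exact Or.inr ht
        obtain ⟨hi, b1⟩ := (a2 i e he).resolve_left ht
        obtain ⟨hj, b2⟩ := (a2 j f hf).resolve_left (hef ▸ ht)
        refine Or.inl (by_contra fun hij => ?_)
        have : e = f := Prod.ext (by rw [h0 e ((h1 i (mem_range.2 hi)).1 b1),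
          h0 f ((h1 j (mem_range.2 hj)).1 b2)]) hef
        exact disjoint_left.1 (h2 i (mem_range.2 hi) j (mem_range.2 hj) hij) b1 (this ▸ b2))
      (fun i _ => a4 i) (fun i _ => a5 i) (Vs.card + 1)
    refine ⟨R, hR, fun i hi => ?_⟩
    have := hc i (by omega)
    simp only [hi, if_true] at this
    refine this ((a3 i hi).mono fun e he => mem_filter.2 ⟨he, ?_⟩)
    have b : ∀ x, lvl Vs A K x ≤ Vs.card := fun x => card_filter_le _ _
    have := b e.2.1
    have := b e.2.2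
    omega
  · rintro ⟨R, hR, hc⟩
    obtain ⟨χ, c1, c2, c3⟩ := hR.sound
    let T : Finset (ℕ × V × V) := (range m).image (· + 1) ×ˢ
      ((Vs ×ˢ Vs).filter fun p => Tele Vs A K p.1 p.2)
    have hT : ∀ e ∈ T, Tele Vs A K e.2.1 e.2.2 := fun e he => (mem_filter.1 (mem_product.1 he).2).2
    refine hK (std Vs) A T dem (range m) (by simpa using hm) hA hW
      (fun e he => ⟨(hT e he).1, (hT e he).2.1⟩) (fun i hi => hd i (mem_range.1 hi))
      (fun e he => (hT e he).2.2)
      ⟨fun i => (A.filter fun e => (i, e.2) ∈ χ) ∪ T.filter fun e => e.1 = i + 1,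
        fun i hi => ⟨union_subset_union (filter_subset _ _) (filter_subset _ _), ?_⟩,
        fun i hi j hj hij => ?_⟩
    · rw [MG.reach_iff_rtg]
      refine rtg_of_forall (fun a b hab => rtg_mono (c3 _ hab) fun x y h => ?_) (hc i (mem_range.1 hi))
      rcases h with h | h
      · exact ⟨(0, x, y), mem_union_left _ (mem_filter.2 ⟨(c1 _ h).1, h⟩), rfl, rfl⟩
      · exact ⟨(i + 1, x, y), mem_union_right _ (mem_filter.2 ⟨mem_product.2
          ⟨mem_image_of_mem _ hi, mem_filter.2 ⟨mem_product.2 ⟨h.1, h.2.1⟩, h⟩⟩, rfl⟩), rfl, rfl⟩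
    · rw [disjoint_left]
      intro e he he'
      simp only [mem_union, mem_filter] at he he'
      rcases he with he | he <;> rcases he' with he' | he'
      · exact hij (c2 _ he.2 _ he'.2 rfl)
      · have := h0 e he.1; omega
      · have := h0 e he'.1; omega
      · omega

end Pool.Agent.P.MP_eb0bd2_lc
end

-- part Pool.Agent.P.MP_eb0bd2_lc.Tree
section

set_option autoImplicit false
set_option linter.unusedSectionVars false

namespace Pool.Agent.P.MP_eb0bd2_lc

open Finset Relation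

namespace MG

variable {V E : Type} {G : MG V E} [DecidableEq V] [DecidableEq E]

theorem exists_tree [Nonempty E] {H : Finset E} {s : V} (h : ∀ v ∈ G.Vs, G.Reach H s v) :
    ∃ (p : V → E) (d : V → ℕ), ∀ v ∈ G.Vs, v ≠ s →
      p v ∈ H ∧ G.tgt (p v) = v ∧ d (G.src (p v)) < d v := by
  let d : V → ℕ := fun v => sInf {n | ∃ l, G.Walk s v l ∧ (∀ e ∈ l, e ∈ H) ∧ l.length = n}
  have : ∀ v, ∃ e, v ∈ G.Vs → v ≠ s → e ∈ H ∧ G.tgt e = v ∧ d (G.src e) < d v := by
    intro v
    by_cases hv : v ∈ G.Vs ∧ v ≠ s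
    swap
    · exact ⟨Classical.arbitrary E, fun a b => absurd ⟨a, b⟩ hv⟩
    obtain ⟨l₀, a, b⟩ := h v hv.1
    obtain ⟨l, h1, h2, h3⟩ := Nat.sInf_mem
      (s := {n | ∃ l, G.Walk s v l ∧ (∀ e ∈ l, e ∈ H) ∧ l.length = n}) ⟨_, l₀, a, b, rfl⟩
    rcases List.eq_nil_or_concat' l with rfl | ⟨l', e, rfl⟩
    · exact absurd (walk_nil_iff.1 h1).symm hv.2
    obtain ⟨w1, w2⟩ := h1.split_arc
    refine ⟨e, fun _ _ => ⟨h2 e (by simp), walk_nil_iff.1 w2, ?_⟩⟩
    have : d (G.src e) ≤ l'.length := Nat.sInf_le ⟨l', w1, fun f hf => h2 f (by simp [hf]), rfl⟩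
    have h4 : d v = l'.length + 1 := by simpa using h3.symm
    omega
  choose p hp using this
  exact ⟨p, d, hp⟩

theorem exists_subtrees [Nonempty E] {H : Finset E} {s : V} (hW : G.WF H)
    (h : ∀ v ∈ G.Vs, G.Reach H s v) :
    ∃ Tr : Finset V → Finset E, (∀ X Y, X ⊆ Y → Tr X ⊆ Tr Y) ∧ (∀ X, Tr X ⊆ H) ∧
      (∀ X ⊆ G.Vs, ∀ x ∈ X, G.Reach (Tr X) s x) ∧
      ∀ X, 2 * (G.Vs.filter fun u => 3 ≤ ((Tr X).filter fun e => G.src e = u).card).card ≤
        X.card := by
  classical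
  obtain ⟨p, d, hp⟩ := exists_tree h
  let st : V → V → Prop := fun a b => a ∈ G.Vs ∧ a ≠ s ∧ b = G.src (p a)
  let An : Finset V → Finset V := fun X => G.Vs.filter fun v => ∃ x ∈ X, ReflTransGen st x v
  have up : ∀ X, ∀ v ∈ (An X).erase s, G.src (p v) ∈ An X := by
    intro X v hv
    obtain ⟨h1, h2⟩ := mem_erase.1 hv
    obtain ⟨h2, x, hx, h3⟩ := mem_filter.1 h2
    exact mem_filter.2 ⟨(hW _ (hp v h2 h1).1).1, x, hx, h3.tail ⟨h2, h1, rfl⟩⟩
  refine ⟨fun X => ((An X).erase s).image p, fun X Y hXY => ?_, fun X e he => ?_,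
    fun X hX x hx => ?_, fun X => ?_⟩
  · refine image_subset_image (erase_subset_erase _ fun v hv => ?_)
    obtain ⟨h2, x, hx, h3⟩ := mem_filter.1 hv
    exact mem_filter.2 ⟨h2, x, hXY hx, h3⟩
  · obtain ⟨v, hv, rfl⟩ := mem_image.1 he
    exact (hp v (mem_filter.1 (mem_erase.1 hv).2).1 (mem_erase.1 hv).1).1
  · have : ∀ n v, d v = n → v ∈ An X → G.Reach (((An X).erase s).image p) s v := by
      intro n
      induction n using Nat.strong_induction_on with
      | _ n ih =>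
        intro v hn hv
        by_cases e : v = s
        · exact e ▸ Reach.refl _ _
        have hv' := mem_erase.2 ⟨e, hv⟩
        obtain ⟨-, a2, a3⟩ := hp v (mem_filter.1 hv).1 e
        have := (ih _ (hn ▸ a3) _ rfl (up X v hv')).trans (Reach.single (mem_image_of_mem p hv'))
        rwa [a2] at this
    exact this _ x rfl (mem_filter.2 ⟨hX hx, x, hx, ReflTransGen.refl⟩)
  · let fb : V → Finset V := fun u => ((An X).erase s).filter fun v => G.src (p v) = u
    have e1 := card_eq_sum_card_fiberwise (f := fun v => G.src (p v)) (s := (An X).erase s)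
      (t := An X) (up X)
    let Hs := (An X).filter fun u => 3 ≤ (fb u).card
    have s1 : (G.Vs.filter fun u => 3 ≤ ((((An X).erase s).image p).filter
        fun e => G.src e = u).card) ⊆ Hs := by
      intro u hu
      have a1 := (mem_filter.1 hu).2
      rw [filter_image] at a1
      have a2 : 3 ≤ (fb u).card := a1.trans card_image_le
      obtain ⟨v, hv⟩ : (fb u).Nonempty := card_pos.1 (by omega)
      obtain ⟨b1, b2⟩ := mem_filter.1 hv
      exact mem_filter.2 ⟨b2 ▸ up X v b1, a2⟩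
    have s2 : ∑ u ∈ An X, ((if u ∉ X then 1 else 0) + 2 * (if 3 ≤ (fb u).card then 1 else 0)) ≤
        ∑ u ∈ An X, (fb u).card := by
      refine sum_le_sum fun u hu => ?_
      have : u ∉ X → 1 ≤ (fb u).card := by
        intro hX
        obtain ⟨h2, x, hx, h3⟩ := mem_filter.1 hu
        rcases h3.cases_tail with rfl | ⟨a, h4, h5, h6, h7⟩
        · exact absurd hx hX
        · exact card_pos.2 ⟨a, mem_filter.2 ⟨mem_erase.2 ⟨h6, mem_filter.2 ⟨h5, x, hx, h4⟩⟩,
            h7.symm⟩⟩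
      split_ifs with a b b
      · omega
      · omega
      · omega
      · have := this a; omega
    rw [sum_add_distrib, ← mul_sum, ← card_filter, ← card_filter] at s2
    have s3 : (An X).card ≤ ((An X).filter fun u => u ∉ X).card + X.card := by
      refine le_trans (card_le_card fun u hu => ?_) (card_union_le _ _)
      by_cases a : u ∈ X
      · exact mem_union_right _ a
      · exact mem_union_left _ (mem_filter.2 ⟨hu, a⟩)
    have s4 := card_le_card s1
    have s5 : ((An X).erase s).card ≤ (An X).card := card_erase_le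
    simp only [Hs, fb] at *
    omega

theorem Rob.exists_order {A : Finset E} {Δ : ℕ} (h : G.Rob A Δ) :
    ∃ ρ : V → ℕ, ∀ f, (G.Vs.filter fun v =>
      (A.filter fun e => G.tgt e = v ∧ ρ (G.src e) < ρ v).card ≤ f).card ≤ 2 * (2 * f + Δ + 1) := by
  classical
  have key : ∀ R ⊆ G.Vs, ∃ ρ : V → ℕ, ∀ f, (R.filter fun v =>
      (R.filter fun u => (u ≠ v ∧ G.rev.Arc A v u) ∧ ρ u < ρ v).card ≤ f).card ≤
        2 * (2 * f + Δ + 1) := by
    intro R
    induction R using Finset.strongInduction with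
    | H R ih =>
      intro hR
      rcases R.eq_empty_or_nonempty with rfl | hne
      · exact ⟨fun _ => 0, by simp⟩
      obtain ⟨v₀, hv₀, hmax⟩ := exists_max_image R
        (fun v => (R.filter fun u => u ≠ v ∧ G.rev.Arc A v u).card) hne
      obtain ⟨ρ, hρ⟩ := ih (R.erase v₀) (erase_ssubset hv₀) ((erase_subset _ _).trans hR)
      refine ⟨Function.update ρ v₀ (R.sup ρ + 1), fun f => ?_⟩
      by_cases hf : (R.filter fun u => u ≠ v₀ ∧ G.rev.Arc A v₀ u).card ≤ f
      · exact (card_filter_le _ _).trans (h.rev.card_le hR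
          (by convert fun v hv => (hmax v hv).trans hf))
      refine le_trans (card_le_card fun v hv => ?_) (hρ f)
      obtain ⟨a1, a2⟩ := mem_filter.1 hv
      have hne : v ≠ v₀ := by
        rintro rfl
        refine hf (le_trans (card_le_card fun u hu => ?_) a2)
        obtain ⟨b1, b2⟩ := mem_filter.1 hu
        refine mem_filter.2 ⟨b1, b2, ?_⟩
        rw [Function.update_self, Function.update_of_ne b2.1]
        exact Nat.lt_succ_of_le (le_sup b1)
      refine mem_filter.2 ⟨mem_erase.2 ⟨hne, a1⟩, le_trans (card_le_card fun u hu => ?_) a2⟩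
      obtain ⟨b1, b2, b3⟩ := mem_filter.1 hu
      refine mem_filter.2 ⟨mem_of_mem_erase b1, b2, ?_⟩
      rwa [Function.update_of_ne hne, Function.update_of_ne (mem_erase.1 b1).1]
  obtain ⟨ρ, hρ⟩ := key G.Vs Subset.rfl
  refine ⟨ρ, fun f => le_trans (card_le_card fun v hv => ?_) (hρ f)⟩
  obtain ⟨a1, a2⟩ := mem_filter.1 hv
  refine mem_filter.2 ⟨a1, le_trans (le_trans (card_le_card fun u hu => ?_)
    (card_image_le (f := G.src))) a2⟩
  obtain ⟨-, ⟨-, e, he, b1, b2⟩, b3⟩ := mem_filter.1 hu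
  exact mem_image.2 ⟨e, mem_filter.2 ⟨he, b1, by rw [show G.src e = u from b2]; exact b3⟩, b2⟩

variable (G) in
/-- A list of arc-disjoint trails inside `T`. -/
def Fam (T : Finset E) (L : List (V × V × List E)) : Prop :=
  (∀ p ∈ L, G.Walk p.1 p.2.1 p.2.2 ∧ p.1 ∈ G.Vs ∧ p.2.1 ∈ G.Vs) ∧
    (L.flatMap fun p => p.2.2).Nodup ∧ ∀ e ∈ L.flatMap fun p => p.2.2, e ∈ T

/-- The pairs of ends of the trails. -/
def Pr (L : List (V × V × List E)) (a b : V) : Prop := ∃ l, (a, b, l) ∈ L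

theorem exists_fam {T : Finset E} (hW : G.WF T) {s : V} (hs : s ∈ G.Vs) (X : Finset V)
    (h : ∀ x ∈ X, G.Reach T s x) : ∃ L, L.length ≤ 2 * X.card ∧ G.Fam T L ∧
      (∀ p ∈ L, ReflTransGen (Pr L) s p.1) ∧ ∀ x ∈ X, ReflTransGen (Pr L) s x := by
  induction X using Finset.induction_on with
  | empty => exact ⟨[], by simp, by simp [Fam], by simp, by simp⟩
  | insert x X hx ih =>
    obtain ⟨L, c, ⟨f1, f2, f3⟩, r1, r2⟩ := ih fun y hy => h y (mem_insert_of_mem hy)
    rw [card_insert_of_notMem hx]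
    obtain ⟨z, hz, hr⟩ := (h x (mem_insert_self _ _)).induction
      (fun y => ∃ z, (z = s ∨ ∃ e ∈ L.flatMap fun p => p.2.2, G.tgt e = z) ∧
        G.Reach (T \ (L.flatMap fun p => p.2.2).toFinset) z y)
      ⟨s, Or.inl rfl, Reach.refl _ _⟩ fun e he ⟨z, hz, hr⟩ => by
        by_cases hm : e ∈ L.flatMap fun p => p.2.2
        · exact ⟨_, Or.inr ⟨e, hm, rfl⟩, Reach.refl _ _⟩
        · exact ⟨z, hz, hr.trans (Reach.single (mem_sdiff.2 ⟨he, by simpa using hm⟩))⟩
    obtain ⟨l, w, m, n⟩ := hr.exists_simple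
    have hxV : x ∈ G.Vs := (h x (mem_insert_self _ _)).mem_Vs hW hs
    obtain ⟨L', c', ⟨g1, g2⟩, r3, r4, r5⟩ : ∃ L', L'.length ≤ L.length + 1 ∧
        ((∀ p ∈ L', G.Walk p.1 p.2.1 p.2.2 ∧ p.1 ∈ G.Vs ∧ p.2.1 ∈ G.Vs) ∧
        (L'.flatMap fun p => p.2.2) = L.flatMap fun p => p.2.2) ∧
        (∀ a b, Pr L a b → ReflTransGen (Pr L') a b) ∧
        (∀ p ∈ L', ReflTransGen (Pr L') s p.1) ∧ (ReflTransGen (Pr L') s z ∧ z ∈ G.Vs) := by
      rcases hz with rfl | ⟨e, he, rfl⟩
      · exact ⟨L, by omega, ⟨f1, rfl⟩, fun a b h => ReflTransGen.single h, r1,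
          ReflTransGen.refl, hs⟩
      obtain ⟨⟨a, b, q⟩, hp, heq⟩ := List.mem_flatMap.1 he
      obtain ⟨L₁, L₂, rfl⟩ := List.append_of_mem hp
      obtain ⟨q₁, q₂, rfl⟩ := List.append_of_mem heq
      obtain ⟨w0, va, vb⟩ := f1 _ hp
      obtain ⟨w1, w2⟩ := w0.split_arc
      have ve := (hW e (f3 e he)).2
      have k1 : Pr (L₁ ++ (a, G.tgt e, q₁ ++ [e]) :: (G.tgt e, b, q₂) :: L₂) a (G.tgt e) :=
        ⟨_, List.mem_append_right _ List.mem_cons_self⟩
      have k2 : Pr (L₁ ++ (a, G.tgt e, q₁ ++ [e]) :: (G.tgt e, b, q₂) :: L₂) (G.tgt e) b :=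
        ⟨_, List.mem_append_right _ (List.mem_cons_of_mem _ List.mem_cons_self)⟩
      have k3 : ∀ a' b', Pr (L₁ ++ (a, b, q₁ ++ e :: q₂) :: L₂) a' b' → ReflTransGen
          (Pr (L₁ ++ (a, G.tgt e, q₁ ++ [e]) :: (G.tgt e, b, q₂) :: L₂)) a' b' := by
        rintro a' b' ⟨l', hl'⟩
        simp only [List.mem_append, List.mem_cons] at hl'
        rcases hl' with k | k | k
        · exact ReflTransGen.single ⟨l', by simp [k]⟩
        · cases k
          exact (ReflTransGen.single k1).tail k2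
        · exact ReflTransGen.single ⟨l', by simp [k]⟩
      have k4 := rtg_of_forall k3 (r1 _ hp)
      refine ⟨_, by simp; omega, ⟨fun p hp' => ?_, by simp⟩, k3, fun p hp' => ?_, k4.tail k1, ve⟩
      · simp only [List.mem_append, List.mem_cons] at hp'
        rcases hp' with k | rfl | rfl | k
        exacts [f1 p (by simp [k]), ⟨w1.append (Walk.single e), va, ve⟩, ⟨w2, ve, vb⟩,
          f1 p (by simp [k])]
      · simp only [List.mem_append, List.mem_cons] at hp'
        rcases hp' with k | rfl | rfl | k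
        exacts [rtg_of_forall k3 (r1 p (by simp [k])), k4, k4.tail k1,
          rtg_of_forall k3 (r1 p (by simp [k]))]
    have up : ∀ a b, ReflTransGen (Pr L') a b → ReflTransGen (Pr ((z, x, l) :: L')) a b :=
      fun a b h => rtg_mono h fun _ _ ⟨l', hl'⟩ => ⟨l', List.mem_cons_of_mem _ hl'⟩
    refine ⟨(z, x, l) :: L', by simp; omega, ⟨fun p hp => ?_, ?_, fun e he => ?_⟩,
      fun p hp => ?_, fun y hy => ?_⟩
    · rcases List.mem_cons.1 hp with rfl | hp
      exacts [⟨w, r5.2, hxV⟩, g1 p hp]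
    · rw [List.flatMap_cons, g2, List.nodup_append]
      refine ⟨nodup_of_verts n, f2, fun a ha b hb e => ?_⟩
      exact (mem_sdiff.1 (m a ha)).2 (List.mem_toFinset.2 (e ▸ hb))
    · rw [List.flatMap_cons, g2, List.mem_append] at he
      exact he.elim (fun a => (mem_sdiff.1 (m e a)).1) (f3 e)
    · rcases List.mem_cons.1 hp with rfl | hp
      exacts [up _ _ r5.1, up _ _ (r4 p hp)]
    · rcases mem_insert.1 hy with rfl | hy
      · exact (up _ _ r5.1).tail ⟨l, List.mem_cons_self⟩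
      · exact up _ _ (rtg_of_forall r3 (r2 y hy))

theorem Fam.avoid {T : Finset E} (hW : G.WF T) {L : List (V × V × List E)} (h : G.Fam T L)
    (Φ : Finset E) : ∃ L', L'.length ≤ L.length + Φ.card ∧ G.Fam (T \ Φ) L' ∧
      ∀ a b, Pr L a b → ReflTransGen (fun a b => Pr L' a b ∨ G.Arc (T ∩ Φ) a b) a b := by
  induction Φ using Finset.induction_on with
  | empty => exact ⟨L, by simp, by simpa using h, fun a b h => ReflTransGen.single (Or.inl h)⟩
  | insert e Φ heΦ ih =>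
    obtain ⟨L', c, ⟨f1, f2, f3⟩, r⟩ := ih
    rw [card_insert_of_notMem heΦ]
    have sb : T ∩ Φ ⊆ T ∩ insert e Φ := inter_subset_inter_left (subset_insert _ _)
    by_cases he : e ∈ L'.flatMap fun p => p.2.2
    swap
    · refine ⟨L', by omega, ⟨f1, f2, fun f hf => ?_⟩, fun a b h => rtg_mono (r a b h)
        fun _ _ h => h.imp_right (·.mono sb)⟩
      have := mem_sdiff.1 (f3 f hf)
      refine mem_sdiff.2 ⟨this.1, fun a => ?_⟩
      rcases mem_insert.1 a with rfl | a
      exacts [he hf, this.2 a]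
    obtain ⟨⟨a, b, q⟩, hp, heq⟩ := List.mem_flatMap.1 he
    obtain ⟨L₁, L₂, rfl⟩ := List.append_of_mem hp
    obtain ⟨q₁, q₂, rfl⟩ := List.append_of_mem heq
    obtain ⟨w0, va, vb⟩ := f1 _ hp
    obtain ⟨w1, w2⟩ := w0.split_arc
    have heT := (mem_sdiff.1 (f3 e he)).1
    have ve := hW e heT
    have hperm : ((L₁ ++ (a, b, q₁ ++ e :: q₂) :: L₂).flatMap fun p => p.2.2).Perm
        (e :: (L₁ ++ (a, G.src e, q₁) :: (G.tgt e, b, q₂) :: L₂).flatMap fun p => p.2.2) := by
      simp only [List.flatMap_append, List.flatMap_cons, List.append_assoc, List.cons_append]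
      rw [← List.append_assoc, ← List.append_assoc _ q₁]
      exact List.perm_middle
    have n := List.nodup_cons.1 (hperm.nodup_iff.1 f2)
    refine ⟨L₁ ++ (a, G.src e, q₁) :: (G.tgt e, b, q₂) :: L₂, by simp at c ⊢; omega,
      ⟨fun p hp' => ?_, n.2, fun f hf => ?_⟩, fun a' b' h => rtg_of_forall ?_ (r a' b' h)⟩
    · simp only [List.mem_append, List.mem_cons] at hp'
      rcases hp' with k | rfl | rfl | k
      exacts [f1 p (by simp [k]), ⟨w1, va, ve.1⟩, ⟨w2, ve.2, vb⟩, f1 p (by simp [k])]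
    · have := mem_sdiff.1 (f3 f (hperm.mem_iff.2 (List.mem_cons_of_mem _ hf)))
      refine mem_sdiff.2 ⟨this.1, fun a => ?_⟩
      rcases mem_insert.1 a with rfl | a
      exacts [n.1 hf, this.2 a]
    · rintro a' b' (⟨l', hl'⟩ | h)
      · simp only [List.mem_append, List.mem_cons] at hl'
        rcases hl' with k | k | k
        · exact ReflTransGen.single (Or.inl ⟨l', by simp [k]⟩)
        · cases k
          refine ReflTransGen.tail (b := G.tgt e) (ReflTransGen.tail (b := G.src e)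
            (ReflTransGen.single (Or.inl ⟨q₁, by simp⟩))
            (Or.inr ⟨e, mem_inter.2 ⟨heT, mem_insert_self _ _⟩, rfl, rfl⟩)) (Or.inl ⟨q₂, by simp⟩)
        · exact ReflTransGen.single (Or.inl ⟨l', by simp [k]⟩)
      · exact ReflTransGen.single (Or.inr (h.mono sb))

variable (G) in
/-- A list of demands with pairwise disjoint connecting arc sets inside `T`. -/
def FamS (T : Finset E) (L : List ((V × V) × Finset E)) : Prop :=
  (∀ p ∈ L, p.2 ⊆ T ∧ G.Reach p.2 p.1.1 p.1.2 ∧ p.1.1 ∈ G.Vs ∧ p.1.2 ∈ G.Vs) ∧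
    L.Pairwise fun p q => Disjoint p.2 q.2

theorem exists_famS {T : Finset E} (hW : G.WF T) {s : V} (hs : s ∈ G.Vs) (X : Finset V)
    (h : ∀ x ∈ X, G.Reach T s x) (Φ : Finset E) : ∃ L, L.length ≤ 2 * X.card + Φ.card ∧
      G.FamS (T \ Φ) L ∧ ∀ x ∈ X,
        ReflTransGen (fun a b => (a, b) ∈ L.map Prod.fst ∨ G.Arc (T ∩ Φ) a b) s x := by
  obtain ⟨L, c, f, -, r⟩ := exists_fam hW hs X h
  obtain ⟨L', c', ⟨f1, f2, f3⟩, r'⟩ := f.avoid hW Φ
  refine ⟨L'.map fun p => ((p.1, p.2.1), p.2.2.toFinset), by simp; omega, ⟨fun p hp => ?_, ?_⟩,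
    fun x hx => rtg_mono (rtg_of_forall r' (r x hx)) fun a b h => h.imp_left ?_⟩
  · obtain ⟨q, hq, rfl⟩ := List.mem_map.1 hp
    exact ⟨fun e he => f3 e (List.mem_flatMap.2 ⟨q, hq, List.mem_toFinset.1 he⟩),
      (f1 q hq).1.reach, (f1 q hq).2⟩
  · rw [List.pairwise_map]
    exact (List.nodup_flatMap.1 f2).2.imp fun h => List.disjoint_toFinset_iff_disjoint.2 h
  · rintro ⟨l, hl⟩
    simp only [List.map_map, List.mem_map]
    exact ⟨_, hl, rfl⟩

theorem FamS.feas {T : Finset E} {L : List ((V × V) × Finset E)} (h : G.FamS T L) (d : V × V) :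
    G.Feas T (fun i => (L.map Prod.fst).getD i d) (range L.length) := by
  refine ⟨fun i => (L.map Prod.snd).getD i ∅, fun i hi => ?_, fun i hi j hj hij => ?_⟩
  · have hi := mem_range.1 hi
    have := h.1 _ (List.getElem_mem hi)
    simp only [List.getD_eq_getElem?_getD, List.getElem?_map, List.getElem?_eq_getElem hi,
      Option.map_some, Option.getD_some]
    exact ⟨this.1, this.2.1⟩
  · have hi := mem_range.1 hi
    have hj := mem_range.1 hj
    simp only [List.getD_eq_getElem?_getD, List.getElem?_map, List.getElem?_eq_getElem hi,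
      List.getElem?_eq_getElem hj, Option.map_some, Option.getD_some]
    rcases lt_or_gt_of_ne hij with a | a
    · exact List.pairwise_iff_getElem.1 h.2 i j hi hj a
    · exact (List.pairwise_iff_getElem.1 h.2 j i hj hi a).symm

end MG

end Pool.Agent.P.MP_eb0bd2_lc
end

-- part Pool.Agent.P.MP_eb0bd2_lc.Reduce
section

set_option autoImplicit false
set_option linter.unusedSectionVars false

namespace Pool.Agent.P.MP_eb0bd2_lc

open Finset Relation

namespace MG

variable {V E : Type} {G : MG V E} [DecidableEq V] [DecidableEq E]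

variable (G) in
/-- Two disjoint arc sets, one reaching everything from `s`, one reaching `t` from everywhere. -/
def GP (A : Finset E) (s t : V) : Prop :=
  ∃ H₁ ⊆ A, ∃ H₂ ⊆ A, Disjoint H₁ H₂ ∧ (∀ v ∈ G.Vs, G.Reach H₁ s v) ∧ ∀ v ∈ G.Vs, G.Reach H₂ v t

variable (G) in
/-- Percolation from `X` reaches all vertices. -/
def Perc (A Φ : Finset E) (X : Finset V) : Prop :=
  ∃ ρ : V → ℕ, ∀ v ∈ G.Vs, v ∈ X ∨
    30 ≤ (A.filter fun e => G.tgt e = v ∧ ρ (G.src e) < ρ v).card ∨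
    2 ≤ ((A ∩ Φ).filter fun e => G.tgt e = v ∧ ρ (G.src e) < ρ v).card

variable (G) in
/-- The reduced problem. -/
def Red (A : Finset E) (s t : V) (X Y : Finset V) (Φ₁ Φ₂ : Finset E) (D₁ D₂ : List (V × V)) :
    Prop :=
  G.Perc A Φ₂ X ∧ G.rev.Perc A Φ₁ Y ∧
  (∀ x ∈ X, ReflTransGen (fun a b => (a, b) ∈ D₁ ∨ G.Arc ((A ∩ Φ₂) \ Φ₁) a b) s x) ∧
  (∀ y ∈ Y, ReflTransGen (fun a b => (a, b) ∈ D₂ ∨ G.Arc ((A ∩ Φ₁) \ Φ₂) a b) y t) ∧
  G.Feas (A \ (Φ₁ ∪ Φ₂)) (fun i => (D₁ ++ D₂).getD i (s, s)) (range (D₁ ++ D₂).length)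

theorem exists_thin {H : Finset E} {s : V} (X : Finset V) (h : ∀ x ∈ X, G.Reach H s x) :
    ∃ T ⊆ H, (∀ x ∈ X, G.Reach T s x) ∧ ∀ u, (T.filter fun e => G.src e = u).card ≤ X.card := by
  have : ∀ x, ∃ l, x ∈ X → G.Walk s x l ∧ (∀ e ∈ l, e ∈ H) ∧ (G.verts s l).Nodup := by
    intro x
    by_cases hx : x ∈ X
    · obtain ⟨l, hl⟩ := (h x hx).exists_simple
      exact ⟨l, fun _ => hl⟩
    · exact ⟨[], fun h => absurd h hx⟩
  choose P hP using this
  refine ⟨X.biUnion fun x => (P x).toFinset, biUnion_subset.2 fun x hx e he =>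
    (hP x hx).2.1 e (List.mem_toFinset.1 he), fun x hx => (hP x hx).1.reach.mono
      (subset_biUnion_of_mem (fun x => (P x).toFinset) hx), fun u => ?_⟩
  rw [filter_biUnion]
  refine (card_biUnion_le_card_mul _ _ 1 fun x hx => card_le_one.2 fun a ha b hb => ?_).trans
    (by simp)
  simp only [mem_filter, List.mem_toFinset] at ha hb
  exact (hP x hx).1.src_inj (hP x hx).2.2 ha.1 hb.1 (ha.2.trans hb.2.symm)

theorem Perc.options {A Φ T : Finset E} {X : Finset V} (h : G.Perc A Φ X) (hT : Disjoint T Φ)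
    (hd : ∀ u, (T.filter fun e => G.tgt e = u).card ≤ 28) :
    ∃ ρ : V → ℕ, ∀ v ∈ G.Vs, v ∉ X →
      2 ≤ ((A \ T).filter fun e => G.tgt e = v ∧ ρ (G.src e) < ρ v).card := by
  obtain ⟨ρ, hρ⟩ := h
  refine ⟨ρ, fun v hv hX => ?_⟩
  rcases (hρ v hv).resolve_left hX with a | a
  · have : (A.filter fun e => G.tgt e = v ∧ ρ (G.src e) < ρ v) ⊆
        ((A \ T).filter fun e => G.tgt e = v ∧ ρ (G.src e) < ρ v) ∪
          T.filter fun e => G.tgt e = v := by
      intro e he
      simp only [mem_union, mem_filter, mem_sdiff] at he ⊢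
      tauto
    have b1 := (card_le_card this).trans (card_union_le _ _)
    have b2 := hd v
    omega
  · refine a.trans (card_le_card (filter_subset_filter _ fun e he => ?_))
    exact mem_sdiff.2 ⟨(mem_inter.1 he).1, fun b => disjoint_left.1 hT b (mem_inter.1 he).2⟩

theorem reach_of_choice {H : Finset E} {s : V} {X : Finset V} (ρ : V → ℕ) (hW : G.WF H)
    (h1 : ∀ x ∈ X, G.Reach H s x)
    (h2 : ∀ v ∈ G.Vs, v ∉ X → ∃ e ∈ H, G.tgt e = v ∧ ρ (G.src e) < ρ v) :
    ∀ v ∈ G.Vs, G.Reach H s v := by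
  suffices ∀ n, ∀ v ∈ G.Vs, ρ v = n → G.Reach H s v from fun v hv => this _ v hv rfl
  intro n
  induction n using Nat.strong_induction_on with
  | _ n ih =>
    intro v hv hn
    by_cases hX : v ∈ X
    · exact h1 v hX
    obtain ⟨e, he, rfl, a⟩ := h2 v hv hX
    exact (ih _ (hn ▸ a) _ (hW e he).1 rfl).trans (Reach.single he)

theorem Red.gp {A : Finset E} (hW : G.WF A) {s t : V} {X Y : Finset V} {Φ₁ Φ₂ : Finset E}
    {D₁ D₂ : List (V × V)} (h : G.Red A s t X Y Φ₁ Φ₂ D₁ D₂) (hX : X.card ≤ 28)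
    (hY : Y.card ≤ 28) : G.GP A s t := by
  obtain ⟨p1, p2, c1, c2, F, f1, f2⟩ := h
  let H₁ := (range D₁.length).biUnion F ∪ (A ∩ Φ₂) \ Φ₁
  let H₂ := (Ico D₁.length (D₁ ++ D₂).length).biUnion F ∪ (A ∩ Φ₁) \ Φ₂
  have m1 : ∀ i ∈ range D₁.length, i ∈ range (D₁ ++ D₂).length := fun i hi => by
    simp at hi ⊢; omega
  have m2 : ∀ i ∈ Ico D₁.length (D₁ ++ D₂).length, i ∈ range (D₁ ++ D₂).length :=
    fun i hi => mem_range.2 (mem_Ico.1 hi).2
  have k1 : ∀ e ∈ H₁, e ∈ A ∧ e ∉ Φ₁ ∧ (e ∈ Φ₂ ∨ ∃ i ∈ range D₁.length, e ∈ F i) := by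
    intro e he
    rcases mem_union.1 he with a | a
    · obtain ⟨i, hi, a⟩ := mem_biUnion.1 a
      have := (f1 i (m1 i hi)).1 a
      simp only [mem_sdiff, mem_union, not_or] at this
      exact ⟨this.1, this.2.1, Or.inr ⟨i, hi, a⟩⟩
    · simp only [mem_sdiff, mem_inter] at a
      exact ⟨a.1.1, a.2, Or.inl a.1.2⟩
  have k2 : ∀ e ∈ H₂, e ∈ A ∧ e ∉ Φ₂ ∧
      (e ∈ Φ₁ ∨ ∃ i ∈ Ico D₁.length (D₁ ++ D₂).length, e ∈ F i) := by
    intro e he
    rcases mem_union.1 he with a | a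
    · obtain ⟨i, hi, a⟩ := mem_biUnion.1 a
      have := (f1 i (m2 i hi)).1 a
      simp only [mem_sdiff, mem_union, not_or] at this
      exact ⟨this.1, this.2.2, Or.inr ⟨i, hi, a⟩⟩
    · simp only [mem_sdiff, mem_inter] at a
      exact ⟨a.1.1, a.2, Or.inl a.1.2⟩
  have dH : Disjoint H₁ H₂ := disjoint_left.2 fun e a b => by
    obtain ⟨-, a1, a2⟩ := k1 e a
    obtain ⟨-, b1, b2⟩ := k2 e b
    obtain ⟨i, hi, a3⟩ := a2.resolve_left b1
    obtain ⟨j, hj, b3⟩ := b2.resolve_left a1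
    refine disjoint_left.1 (f2 i (m1 i hi) j (m2 j hj) ?_) a3 b3
    have := mem_range.1 hi
    have := (mem_Ico.1 hj).1
    omega
  have r1 : ∀ x ∈ X, G.Reach H₁ s x := fun x hx => reach_iff_rtg.2 (rtg_of_forall (by
    rintro a b (h | ⟨e, he, rfl, rfl⟩) <;> refine reach_iff_rtg.1 ?_
    · obtain ⟨i, hi, e⟩ := List.getElem_of_mem h
      have := (f1 i (m1 i (mem_range.2 hi))).2
      simp only [List.getD_eq_getElem?_getD, List.getElem?_append_left hi,
        List.getElem?_eq_getElem hi, e, Option.getD_some] at this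
      exact this.mono ((subset_biUnion_of_mem F (mem_range.2 hi)).trans subset_union_left)
    · exact Reach.single (mem_union_right _ he)) (c1 x hx))
  have r2 : ∀ y ∈ Y, G.rev.Reach H₂ t y := fun y hy => Reach.rev (reach_iff_rtg.2 (rtg_of_forall (by
    rintro a b (h | ⟨e, he, rfl, rfl⟩) <;> refine reach_iff_rtg.1 ?_
    · obtain ⟨i, hi, e⟩ := List.getElem_of_mem h
      have hi' : D₁.length + i ∈ Ico D₁.length (D₁ ++ D₂).length := by simpa using hi
      have := (f1 _ (m2 _ hi')).2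
      simp only [List.getD_eq_getElem?_getD, List.getElem?_append_right (Nat.le_add_right _ _),
        Nat.add_sub_cancel_left, List.getElem?_eq_getElem hi, e, Option.getD_some] at this
      exact this.mono ((subset_biUnion_of_mem F hi').trans subset_union_left)
    · exact Reach.single (mem_union_right _ he)) (c2 y hy)))
  obtain ⟨T₁, s1, t1, d1⟩ := exists_thin X r1
  obtain ⟨T₂, s2, t2, d2⟩ := exists_thin Y r2
  obtain ⟨ρ₁, o1⟩ := p1.options (T := T₂) (disjoint_left.2 fun e he => (k2 e (s2 he)).2.1)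
    fun u => (d2 u).trans hY
  obtain ⟨ρ₂, o2⟩ := p2.options (T := T₁) (disjoint_left.2 fun e he => (k1 e (s1 he)).2.1)
    fun u => (d1 u).trans hX
  let op : {v // v ∈ G.Vs \ X} ⊕ {v // v ∈ G.Vs \ Y} → Finset E := Sum.elim
    (fun v => (A \ T₂).filter fun e => G.tgt e = v.1 ∧ ρ₁ (G.src e) < ρ₁ v.1)
    (fun v => (A \ T₁).filter fun e => G.src e = v.1 ∧ ρ₂ (G.tgt e) < ρ₂ v.1)
  obtain ⟨c, hc, hm⟩ := (all_card_le_biUnion_card_iff_exists_injective op).1 fun J => by
    have := card_mul_le_card_mul (s := J) (t := J.biUnion op) (m := 2) (n := 2)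
      (fun j e => e ∈ op j) (fun j hj => ?_) fun e _ => ?_
    · omega
    · have : 2 ≤ (op j).card := by
        rcases j with ⟨v, hv⟩ | ⟨v, hv⟩
        exacts [o1 v (mem_sdiff.1 hv).1 (mem_sdiff.1 hv).2,
          o2 v (mem_sdiff.1 hv).1 (mem_sdiff.1 hv).2]
      exact this.trans (card_le_card fun e he =>
        (mem_bipartiteAbove _).2 ⟨mem_biUnion.2 ⟨j, hj, he⟩, he⟩)
    · refine le_trans (card_le_card_of_injOn (t := (univ : Finset Bool)) Sum.isLeft
        (fun _ _ => mem_coe.2 (mem_univ _)) ?_) (by simp)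
      rintro (⟨v, hv⟩ | ⟨v, hv⟩) a (⟨w, hw⟩ | ⟨w, hw⟩) b e'
      · have a := (mem_filter.1 ((mem_bipartiteBelow _).1 a).2).2.1
        have b := (mem_filter.1 ((mem_bipartiteBelow _).1 b).2).2.1
        exact congrArg Sum.inl (Subtype.ext (a.symm.trans b))
      · simp at e'
      · simp at e'
      · have a := (mem_filter.1 ((mem_bipartiteBelow _).1 a).2).2.1
        have b := (mem_filter.1 ((mem_bipartiteBelow _).1 b).2).2.1
        exact congrArg Sum.inr (Subtype.ext (a.symm.trans b))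
  have n1 : ∀ v, c (Sum.inl v) ∈ A \ T₂ := fun v => (mem_filter.1 (hm (Sum.inl v))).1
  have n2 : ∀ v, c (Sum.inr v) ∈ A \ T₁ := fun v => (mem_filter.1 (hm (Sum.inr v))).1
  have n3 : ∀ v, G.tgt (c (Sum.inl v)) = v.1 ∧ ρ₁ (G.src (c (Sum.inl v))) < ρ₁ v.1 :=
    fun v => (mem_filter.1 (hm (Sum.inl v))).2
  have n4 : ∀ v, G.src (c (Sum.inr v)) = v.1 ∧ ρ₂ (G.tgt (c (Sum.inr v))) < ρ₂ v.1 :=
    fun v => (mem_filter.1 (hm (Sum.inr v))).2
  have u1 : T₁ ∪ univ.image (fun v => c (Sum.inl v)) ⊆ A :=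
    union_subset (fun e he => (k1 e (s1 he)).1) fun e he => by
      obtain ⟨v, -, rfl⟩ := mem_image.1 he
      exact (mem_sdiff.1 (n1 v)).1
  have u2 : T₂ ∪ univ.image (fun v => c (Sum.inr v)) ⊆ A :=
    union_subset (fun e he => (k2 e (s2 he)).1) fun e he => by
      obtain ⟨v, -, rfl⟩ := mem_image.1 he
      exact (mem_sdiff.1 (n2 v)).1
  refine ⟨_, u1, _, u2, disjoint_left.2 fun e a b => ?_, ?_, fun v hv => reach_rev_iff.1 ?_⟩
  · simp only [mem_union, mem_image, mem_univ, true_and] at a b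
    rcases a with a | ⟨v, rfl⟩ <;> rcases b with b | ⟨w, b⟩
    · exact disjoint_left.1 dH (s1 a) (s2 b)
    · exact (mem_sdiff.1 (n2 w)).2 (b ▸ a)
    · exact (mem_sdiff.1 (n1 v)).2 b
    · simpa using hc b
  · refine reach_of_choice ρ₁ (hW.mono u1) (fun x hx => (t1 x hx).mono subset_union_left)
      fun v hv hX => ⟨c (Sum.inl ⟨v, mem_sdiff.2 ⟨hv, hX⟩⟩),
        mem_union_right _ (mem_image_of_mem _ (mem_univ _)), n3 _⟩
  · refine reach_of_choice (G := G.rev) ρ₂ (hW.mono u2).rev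
      (fun x hx => (t2 x hx).mono subset_union_left) (fun v hv hY => ⟨c (Sum.inr ⟨v,
        mem_sdiff.2 ⟨hv, hY⟩⟩), mem_union_right _ (mem_image_of_mem _ (mem_univ _)),
        n4 _⟩) v hv

theorem perc_side {A T : Finset E} {ρ : V → ℕ} {X : Finset V} {m : ℕ}
    (hρ : ∀ f, (G.Vs.filter fun v =>
      (A.filter fun e => G.tgt e = v ∧ ρ (G.src e) < ρ v).card ≤ f).card ≤ 2 * (2 * f + 0 + 1))
    (hX : X = G.Vs.filter fun v =>
      ((A.filter fun e => G.tgt e = v ∧ ρ (G.src e) < ρ v) \ T).card ≤ 1)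
    (hT : 2 * (G.Vs.filter fun u => 3 ≤ (T.filter fun e => G.tgt e = u).card).card ≤ m) :
    2 * X.card ≤ 28 + m ∧ ∃ Φ : Finset E, Φ ⊆ A ∧ Φ.card ≤ 3422 ∧ Disjoint T Φ ∧ G.Perc A Φ X := by
  constructor
  · have : X ⊆ (G.Vs.filter fun v =>
        (A.filter fun e => G.tgt e = v ∧ ρ (G.src e) < ρ v).card ≤ 3) ∪
        G.Vs.filter fun u => 3 ≤ (T.filter fun e => G.tgt e = u).card := by
      intro v hv
      rw [hX] at hv
      obtain ⟨a1, a2⟩ := mem_filter.1 hv
      have b : (A.filter fun e => G.tgt e = v ∧ ρ (G.src e) < ρ v) ⊆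
          ((A.filter fun e => G.tgt e = v ∧ ρ (G.src e) < ρ v) \ T) ∪
            T.filter fun e => G.tgt e = v := by
        intro e he
        simp only [mem_union, mem_filter, mem_sdiff] at he ⊢
        tauto
      have b1 := (card_le_card b).trans (card_union_le _ _)
      simp only [mem_union, mem_filter, a1, true_and]
      omega
    have b1 := (card_le_card this).trans (card_union_le _ _)
    have b2 := hρ 3
    omega
  · refine ⟨(G.Vs.filter fun v => (A.filter fun e => G.tgt e = v ∧ ρ (G.src e) < ρ v).card ≤ 29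
      ).biUnion fun v => (A.filter fun e => G.tgt e = v ∧ ρ (G.src e) < ρ v) \ T,
      biUnion_subset.2 fun v _ => sdiff_subset.trans (filter_subset _ _), ?_,
      (disjoint_biUnion_right _ _ _).2 fun v _ => disjoint_sdiff, ρ, fun v hv => ?_⟩
    · refine (card_biUnion_le_card_mul _ _ 29 fun v hv =>
        (card_le_card sdiff_subset).trans (mem_filter.1 hv).2).trans ?_
      have := hρ 29
      omega
    · by_cases a : v ∈ X
      · exact Or.inl a
      by_cases b : (A.filter fun e => G.tgt e = v ∧ ρ (G.src e) < ρ v).card ≤ 29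
      swap
      · exact Or.inr (Or.inl (by omega))
      rw [hX, mem_filter, not_and] at a
      have a' : 2 ≤ ((A.filter fun e => G.tgt e = v ∧ ρ (G.src e) < ρ v) \ T).card := by
        have := a hv; omega
      refine Or.inr (Or.inr (a'.trans (card_le_card fun e he => ?_)))
      have := mem_filter.1 (mem_sdiff.1 he).1
      exact mem_filter.2 ⟨mem_inter.2 ⟨this.1, mem_biUnion.2 ⟨v, mem_filter.2 ⟨hv, b⟩, he⟩⟩, this.2⟩

theorem rtg_swap {α : Type} {r : α → α → Prop} {a b : α} (h : ReflTransGen r a b) :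
    ReflTransGen (fun x y => r y x) b a := by
  induction h with
  | refl => exact .refl
  | tail _ h ih => exact .head h ih

theorem GP.red [Nonempty E] {A : Finset E} (hW : G.WF A) (hA : G.Rob A 0) {s t : V}
    (hs : s ∈ G.Vs) (ht : t ∈ G.Vs) (h : G.GP A s t) :
    ∃ (X Y : Finset V) (Φ₁ Φ₂ : Finset E) (D₁ D₂ : List (V × V)), X ⊆ G.Vs ∧ Y ⊆ G.Vs ∧
      X.card ≤ 28 ∧ Y.card ≤ 28 ∧ Φ₁ ⊆ A ∧ Φ₂ ⊆ A ∧ Φ₁.card ≤ 3422 ∧ Φ₂.card ≤ 3422 ∧
      D₁.length ≤ 3478 ∧ D₂.length ≤ 3478 ∧ (∀ p ∈ D₁, p.1 ∈ G.Vs ∧ p.2 ∈ G.Vs) ∧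
      (∀ p ∈ D₂, p.1 ∈ G.Vs ∧ p.2 ∈ G.Vs) ∧ G.Red A s t X Y Φ₁ Φ₂ D₁ D₂ := by
  obtain ⟨H₁, s1, H₂, s2, dH, r1, r2⟩ := h
  obtain ⟨T₁, m1, a1, b1, c1⟩ := exists_subtrees (hW.mono s1) r1
  obtain ⟨T₂, m2, a2, b2, c2⟩ := exists_subtrees (G := G.rev) (hW.mono s2).rev
    fun v hv => (r2 v hv).rev
  obtain ⟨ρ₁, o1⟩ := hA.exists_order
  obtain ⟨ρ₂, o2⟩ := hA.rev.exists_order
  let f₁ : Finset V → Finset V := fun Y => G.Vs.filter fun v =>
    ((A.filter fun e => G.tgt e = v ∧ ρ₁ (G.src e) < ρ₁ v) \ T₂ Y).card ≤ 1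
  let f₂ : Finset V → Finset V := fun X => G.Vs.filter fun v =>
    ((A.filter fun e => G.src e = v ∧ ρ₂ (G.tgt e) < ρ₂ v) \ T₁ X).card ≤ 1
  have g1 : ∀ Y Y', Y ⊆ Y' → f₁ Y ⊆ f₁ Y' := fun Y Y' h v hv => mem_filter.2 ⟨(mem_filter.1 hv).1,
    (card_le_card (sdiff_subset_sdiff Subset.rfl (m2 _ _ h))).trans (mem_filter.1 hv).2⟩
  have g2 : ∀ Y Y', Y ⊆ Y' → f₂ Y ⊆ f₂ Y' := fun Y Y' h v hv => mem_filter.2 ⟨(mem_filter.1 hv).1,
    (card_le_card (sdiff_subset_sdiff Subset.rfl (m1 _ _ h))).trans (mem_filter.1 hv).2⟩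
  obtain ⟨X, hX, hmax⟩ := exists_max_image (G.Vs.powerset.filter fun X => X ⊆ f₁ (f₂ X)) card
    ⟨∅, by simp⟩
  obtain ⟨hXV, hX⟩ : X ⊆ G.Vs ∧ X ⊆ f₁ (f₂ X) := by simpa using hX
  have eX : X = f₁ (f₂ X) := eq_of_subset_of_card_le hX (hmax _ (mem_filter.2
    ⟨mem_powerset.2 (filter_subset _ _), g1 _ _ (g2 _ _ hX)⟩))
  obtain ⟨n1, Φ₂, q1, q2, q3, q4⟩ := perc_side o1 eX (c2 (f₂ X))
  obtain ⟨n2, Φ₁, q5, q6, q7, q8⟩ := perc_side (G := G.rev) (X := f₂ X) o2 rfl (c1 X)
  have hYV : f₂ X ⊆ G.Vs := filter_subset _ _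
  obtain ⟨L₁, l1, ⟨u1, v1⟩, w1⟩ := exists_famS (hW.mono ((a1 X).trans s1)) hs X (b1 X hXV) Φ₂
  obtain ⟨L₂, l2, ⟨u2, v2⟩, w2⟩ := exists_famS (G := G.rev) (hW.mono ((a2 _).trans s2)).rev ht
    (f₂ X) (b2 _ hYV) Φ₁
  have hF : G.FamS (A \ (Φ₁ ∪ Φ₂)) (L₁ ++ L₂.map fun p => (p.1.swap, p.2)) := by
    refine ⟨fun p hp => ?_, List.pairwise_append.2 ⟨v1, List.pairwise_map.2 v2,
      fun p hp q hq => ?_⟩⟩
    · rcases List.mem_append.1 hp with hp | hp
      · refine ⟨fun e he => ?_, (u1 p hp).2⟩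
        have := mem_sdiff.1 ((u1 p hp).1 he)
        exact mem_sdiff.2 ⟨s1 (a1 X this.1), fun a => (mem_union.1 a).elim
          (disjoint_left.1 q7 this.1) this.2⟩
      · obtain ⟨q, hq, rfl⟩ := List.mem_map.1 hp
        refine ⟨fun e he => ?_, (u2 q hq).2.1.rev, (u2 q hq).2.2.symm⟩
        have := mem_sdiff.1 ((u2 q hq).1 he)
        exact mem_sdiff.2 ⟨s2 (a2 _ this.1), fun a => (mem_union.1 a).elim this.2
          (disjoint_left.1 q3 this.1)⟩
    · obtain ⟨q', hq', rfl⟩ := List.mem_map.1 hq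
      exact dH.mono (((u1 p hp).1.trans sdiff_subset).trans (a1 X))
        (((u2 q' hq').1.trans sdiff_subset).trans (a2 _))
  have z1 : T₁ X ∩ Φ₂ ⊆ (A ∩ Φ₂) \ Φ₁ := fun e he => by
    have := mem_inter.1 he
    exact mem_sdiff.2 ⟨mem_inter.2 ⟨q1 this.2, this.2⟩, disjoint_left.1 q7 this.1⟩
  have z2 : T₂ (f₂ X) ∩ Φ₁ ⊆ (A ∩ Φ₁) \ Φ₂ := fun e he => by
    have := mem_inter.1 he
    exact mem_sdiff.2 ⟨mem_inter.2 ⟨q5 this.2, this.2⟩, disjoint_left.1 q3 this.1⟩
  have z3 : ∀ a b, (b, a) ∈ L₂.map Prod.fst → (a, b) ∈ L₂.map fun p => p.1.swap := by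
    intro a b h
    obtain ⟨q, hq, e⟩ := List.mem_map.1 h
    exact List.mem_map.2 ⟨q, hq, by rw [e]; rfl⟩
  refine ⟨X, f₂ X, Φ₁, Φ₂, L₁.map Prod.fst, L₂.map fun p => p.1.swap, hXV, hYV, by omega, by omega,
    q5, q1, q6, q2, by simp; omega, by simp; omega, fun p hp => ?_, fun p hp => ?_, q4, q8,
    fun x hx => rtg_mono (w1 x hx) fun a b h => h.imp_right (·.mono z1),
    fun y hy => rtg_mono (rtg_swap (w2 y hy)) fun a b h =>
      Or.imp (z3 a b) (fun h => (arc_rev.1 h).mono z2) h, ?_⟩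
  · obtain ⟨q, hq, rfl⟩ := List.mem_map.1 hp
    exact (u1 q hq).2.2
  · obtain ⟨q, hq, rfl⟩ := List.mem_map.1 hp
    exact (u2 q hq).2.2.symm
  · have := hF.feas (s, s)
    simpa [List.map_append, List.map_map, Function.comp_def] using this

end MG

end Pool.Agent.P.MP_eb0bd2_lc
end

-- part Pool.Agent.P.MP_eb0bd2_lc.Algo
section

set_option autoImplicit false

namespace Pool.Agent.P.MP_eb0bd2_lc

open Pool.Agent.Lib.PolyTime Relation Finset

theorem not_rich_iff {V E : Type} [DecidableEq E] {G : MG V E} {A : Finset E} {K : ℕ} {x y : V} :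
    ¬ G.Rich A K x y ↔ ∃ L : List E, (L.length ≤ K ∧ ∀ e ∈ L, e ∈ A) ∧ L.length < K ∧
      ¬ ReflTransGen (fun u v => ∃ e ∈ A, e ∉ L ∧ G.src e = u ∧ G.tgt e = v) x y := by
  constructor
  · intro h
    simp only [MG.Rich, not_forall, not_le] at h
    obtain ⟨S, h1, h2, h3⟩ := h
    refine ⟨(G.cut A S).toList, ⟨by simpa using h3.le, fun e he =>
      (MG.mem_cut.1 (mem_toList.1 he)).1⟩, by simpa using h3, fun h => h2 ?_⟩
    clear h2
    induction h with
    | refl => exact h1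
    | tail _ h ih =>
      obtain ⟨e, a, b, rfl, rfl⟩ := h
      by_contra c
      exact b (mem_toList.2 (MG.mem_cut.2 ⟨a, ih, c⟩))
  · rintro ⟨L, -, h1, h2⟩ h
    have := h {v | ReflTransGen (fun u v => ∃ e ∈ A, e ∉ L ∧ G.src e = u ∧ G.tgt e = v) x v}
      ReflTransGen.refl h2
    refine absurd (this.trans ((card_le_card fun e he => List.mem_toFinset.2 ?_).trans
      (List.toFinset_card_le L))) (by omega)
    obtain ⟨a, b, c⟩ := MG.mem_cut.1 he
    by_contra d
    exact c (ReflTransGen.tail b ⟨e, a, d, rfl, rfl⟩)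

variable {α : Type} [N487b59b3 α]

theorem ptp_ex {β : Type} [N487b59b3 β] {l : α → List β} {p : α × β → Prop} (hl : PT l)
    (hp : PTP p) : PTP fun a => ∃ x ∈ l a, p (a, x) :=
  PTP.exists_mem (p := fun a x => p (a, x)) hl hp

theorem ptp_rich (K : ℕ) (Vs : α → Finset ℕ) {A : α → List (ℕ × ℕ × ℕ)} {x y : α → ℕ} (hA : PT A)
    (hx : PT x) (hy : PT y) : PTP fun a => (std (Vs a)).Rich (A a).toFinset K (x a) (y a) := by
  have h : PTP fun q : α × List (ℕ × ℕ × ℕ) => ReflTransGen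
      (fun u v => ∃ e ∈ A q.1, e ∉ q.2 ∧ e.2.1 = u ∧ e.2.2 = v) (x q.1) (y q.1) :=
    ptp_rtg (l := fun q => (A q.1).map fun e => e.2.2) (by fun_prop) (by fun_prop) (by fun_prop)
      (PTP.exists_mem (by fun_prop) (by fun_prop))
      (by rintro a u v ⟨e, he, -, -, rfl⟩; exact List.mem_map_of_mem he)
  refine (ptp_short K (p := fun a L => L.length < K ∧ ¬ ReflTransGen
    (fun u v => ∃ e ∈ A a, e ∉ L ∧ e.2.1 = u ∧ e.2.2 = v) (x a) (y a)) hA
    (PTP.and (by fun_prop) h.not)).not.congr fun a => ?_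
  rw [← not_iff_not, not_rich_iff]
  simp [and_assoc]

theorem pt_lvl (K : ℕ) {vs : α → List ℕ} {A : α → List (ℕ × ℕ × ℕ)} {x : α → ℕ} (hv : PT vs)
    (hA : PT A) (hx : PT x) : PT fun a => lvl (vs a).toFinset (A a).toFinset K (x a) :=
  pt_card hv (ptp_rich K (fun q : α × ℕ => (vs q.1).toFinset) (by fun_prop) (by fun_prop)
    (by fun_prop))

theorem ptp_tele (K : ℕ) {vs : α → List ℕ} {A : α → List (ℕ × ℕ × ℕ)} {x y : α → ℕ} (hv : PT vs)
    (hA : PT A) (hx : PT x) (hy : PT y) :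
    PTP fun a => Tele (vs a).toFinset (A a).toFinset K (x a) (y a) :=
  ((PTP.mem hv hx).and ((PTP.mem hv hy).and ((ptp_rich K (fun a => (vs a).toFinset) hA hx hy).and
    (ptp_rich K (fun a => (vs a).toFinset) hA hy hx)))).congr fun a => by simp [Tele]

theorem ptp_col {R : α → List (ℕ × ℕ × ℕ)} {i x y : α → ℕ} (hR : PT R) (hi : PT i) (hx : PT x)
    (hy : PT y) : PTP fun a => ReflTransGen (Col (R a) (i a)) (x a) (y a) :=
  ptp_rtg (l := fun a => (R a).map fun e => e.2.2) (by fun_prop) hx hy (by unfold Col; fun_prop)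
    fun _ _ _ h => List.mem_map.2 ⟨_, h, rfl⟩

/-- All coloured pairs. -/
def trip (k : ℕ) (vs : List ℕ) : List (ℕ × ℕ × ℕ) :=
  (List.range k).flatMap fun i => vs.flatMap fun u => vs.map fun v => (i, u, v)

theorem mem_trip {k : ℕ} {vs : List ℕ} {p : ℕ × ℕ × ℕ} :
    p ∈ trip k vs ↔ p.1 < k ∧ p.2.1 ∈ vs ∧ p.2.2 ∈ vs := by
  obtain ⟨i, u, v⟩ := p
  simp [trip]

@[fun_prop] theorem pt_trip (k : ℕ) {vs : α → List ℕ} (hv : PT vs) : PT fun a => trip k (vs a) := by
  unfold trip; fun_prop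

theorem short_iff {k B : ℕ} {vs : List ℕ} {R : List (ℕ × ℕ × ℕ)} :
    Short vs.toFinset k B R ↔ R ∈ tuples B (trip k vs) := by
  simp [Short, mem_tuples, mem_trip]

theorem ptp_tab (k B : ℕ) {vs : α → List ℕ} {arc tele : α → ℕ → ℕ → Prop} {lv : α → ℕ → ℕ}
    {n : α → ℕ} (hv : PT vs) (harc : PTP fun q : α × ℕ × ℕ => arc q.1 q.2.1 q.2.2)
    (htele : PTP fun q : α × ℕ × ℕ => tele q.1 q.2.1 q.2.2) (hlv : PT fun q : α × ℕ => lv q.1 q.2)
    (hn : PT n) (hn' : Small n) : PTP fun q : α × List (ℕ × ℕ × ℕ) =>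
      Tab (vs q.1).toFinset k B (arc q.1) (tele q.1) (lv q.1) (n q.1) q.2 := by
  have hV : PTP fun q : α × ℕ × List (ℕ × ℕ × ℕ) =>
      ValidN (arc q.1) (tele q.1) (lv q.1) q.2.1 q.2.2 := by
    refine PTP.and (PTP.forall_mem (by fun_prop) (PTP.or
      (htele.comp (g := fun q : (α × ℕ × List (ℕ × ℕ × ℕ)) × ℕ × ℕ × ℕ => (q.1.1, q.2.2))
        (by fun_prop)) (PTP.and
      (harc.comp (g := fun q : (α × ℕ × List (ℕ × ℕ × ℕ)) × ℕ × ℕ × ℕ => (q.1.1, q.2.2))
        (by fun_prop)) (PTP.eq (PT.max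
      (hlv.comp (g := fun q : (α × ℕ × List (ℕ × ℕ × ℕ)) × ℕ × ℕ × ℕ => (q.1.1, q.2.2.1))
        (by fun_prop))
      (hlv.comp (g := fun q : (α × ℕ × List (ℕ × ℕ × ℕ)) × ℕ × ℕ × ℕ => (q.1.1, q.2.2.2))
        (by fun_prop))) (by fun_prop)))))
      (PTP.forall_mem (by fun_prop) (PTP.forall_mem (by fun_prop) (PTP.imp (by fun_prop)
        (PTP.or (by fun_prop) (htele.comp (g := fun q : ((α × ℕ × List (ℕ × ℕ × ℕ)) × ℕ × ℕ × ℕ) ×
          ℕ × ℕ × ℕ => (q.1.1.1, q.1.2.2)) (by fun_prop))))))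
  refine ptp_iter (l := fun a => tuples B (trip k (vs a))) (s := fun _ => [[]])
    (Q := fun a σ S R' => ∃ R, S R ∧ ∃ N ∈ tuples B (trip k (vs a)),
      ValidN (arc a) (tele a) (lv a) σ N ∧ ∀ p ∈ R', ReflTransGen (Col (R ++ N) p.1) p.2.1 p.2.2)
    (P := fun a => Tab (vs a).toFinset k B (arc a) (tele a) (lv a)) (by fun_prop) (PT.const _)
    hn hn' (PTP.exists_mem (by fun_prop) (PTP.exists_mem (by fun_prop) (PTP.and
      (hV.comp (g := fun q : ((α × List (List (ℕ × ℕ × ℕ)) × ℕ × List (ℕ × ℕ × ℕ)) ×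
        List (ℕ × ℕ × ℕ)) × List (ℕ × ℕ × ℕ) => (q.1.1.1, q.1.1.2.2.1, q.2)) (by fun_prop))
      (PTP.forall_mem (by fun_prop) (ptp_col (by fun_prop) (by fun_prop) (by fun_prop)
        (by fun_prop))))))
    (fun _ _ => by simp [Tab]) fun _ _ _ => by simp only [Tab, short_iff]

/-- The dynamic program accepts. -/
def DPok (k K B : ℕ) (Vs : Finset ℕ) (A : Finset (ℕ × ℕ × ℕ)) (D : List (ℕ × ℕ)) (d : ℕ × ℕ) :
    Prop :=
  ∃ R, Tab Vs k B (fun x y => (0, x, y) ∈ A) (Tele Vs A K) (lvl Vs A K) (Vs.card + 1) R ∧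
    ∀ i < D.length, ReflTransGen (Col R i) (D.getD i d).1 (D.getD i d).2

theorem ptp_dpok (k K B : ℕ) {vs : α → List ℕ} {A : α → List (ℕ × ℕ × ℕ)} {D : α → List (ℕ × ℕ)}
    {d : α → ℕ × ℕ} (hv : PT vs) (hA : PT A) (hD : PT D) (hd : PT d) :
    PTP fun a => DPok k K B (vs a).toFinset (A a).toFinset (D a) (d a) := by
  have h1 : PT fun a => (vs a).toFinset.card + 1 :=
    ((pt_dedup hv).length.congr fun a => List.card_toFinset _).add (PT.const 1)
  have h2 : Small fun a => (vs a).toFinset.card + 1 :=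
    ((Small.length hv).mono fun a => List.toFinset_card_le _).add (Small.const 1)
  have h := ptp_tab k B (arc := fun a x y => (0, x, y) ∈ (A a).toFinset)
    (tele := fun a => Tele (vs a).toFinset (A a).toFinset K)
    (lv := fun a => lvl (vs a).toFinset (A a).toFinset K) hv
    (by simp only [List.mem_toFinset]; fun_prop)
    (ptp_tele K (by fun_prop) (by fun_prop) (by fun_prop) (by fun_prop))
    (pt_lvl K (by fun_prop) (by fun_prop) (by fun_prop)) h1 h2
  refine (ptp_ex (l := fun a => tuples B (trip k (vs a))) (by fun_prop) (h.and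
    (PTP.forall_mem (l := fun q : α × List (ℕ × ℕ × ℕ) => List.range (D q.1).length)
      (p := fun q i => ReflTransGen (Col q.2 i) ((D q.1).getD i (d q.1)).1
        ((D q.1).getD i (d q.1)).2) (by fun_prop)
      (ptp_col (by fun_prop) (by fun_prop) (by fun_prop) (by fun_prop))))).congr fun a => ?_
  simp only [DPok, List.mem_range, ← short_iff]
  exact ⟨fun ⟨R, a, b⟩ => ⟨R, a.1, a, b⟩, fun ⟨R, _, a⟩ => ⟨R, a⟩⟩

theorem ptp_perc {G : α → MG ℕ (ℕ × ℕ × ℕ)} {vs X : α → List ℕ} {A Φ : α → List (ℕ × ℕ × ℕ)}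
    (hv : PT vs) (hX : PT X) (hA : PT A) (hΦ : PT Φ) (hG : ∀ a, (G a).Vs = (vs a).toFinset)
    (hs : PT fun q : α × ℕ × ℕ × ℕ => (G q.1).src q.2)
    (ht : PT fun q : α × ℕ × ℕ × ℕ => (G q.1).tgt q.2) (hW : ∀ a, (G a).WF (A a).toFinset) :
    PTP fun a => (G a).Perc (A a).toFinset (Φ a).toFinset (X a).toFinset := by
  classical
  have hs' : PT fun q : (α × List ℕ × ℕ) × ℕ × ℕ × ℕ => (G q.1.1).src q.2 :=
    hs.comp (g := fun q : (α × List ℕ × ℕ) × ℕ × ℕ × ℕ => (q.1.1, q.2)) (by fun_prop)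
  have ht' : PT fun q : (α × List ℕ × ℕ) × ℕ × ℕ × ℕ => (G q.1.1).tgt q.2 :=
    ht.comp (g := fun q : (α × List ℕ × ℕ) × ℕ × ℕ × ℕ => (q.1.1, q.2)) (by fun_prop)
  refine (ptp_rank (Q := fun a S v => v ∈ X a ∨
    30 ≤ ((A a).toFinset.filter fun e => (G a).tgt e = v ∧ S ((G a).src e)).card ∨
    2 ≤ ((A a).toFinset.filter fun e => e ∈ Φ a ∧ (G a).tgt e = v ∧ S ((G a).src e)).card) hv
    (PTP.or (by fun_prop) (PTP.or (PTP.le (PT.const _) (pt_card (by fun_prop) (by fun_prop)))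
      (PTP.le (PT.const _) (pt_card (by fun_prop) (by fun_prop)))))
    fun a S S' x h => Or.imp_right (Or.imp (·.trans (card_le_card fun e he => ?_))
      (·.trans (card_le_card fun e he => ?_)))).congr fun a => ?_
  · rw [mem_filter] at he ⊢
    exact ⟨he.1, he.2.1, h _ (by simpa [hG] using (hW a e he.1).1) he.2.2⟩
  · rw [mem_filter] at he ⊢
    exact ⟨he.1, he.2.1, he.2.2.1, h _ (by simpa [hG] using (hW a e he.1).1) he.2.2.2⟩
  · refine exists_congr fun ρ => forall_congr' fun v => imp_congr (by simp [hG]) (or_congr (by simp)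
      (or_congr ?_ ?_)) <;> rw [iff_iff_eq] <;> congr 2 <;> ext e <;> simp [and_assoc]

end Pool.Agent.P.MP_eb0bd2_lc
end

-- part Pool.Agent.P.MP_eb0bd2_lc.Final
section

set_option autoImplicit false

namespace Pool.Agent.P.MP_eb0bd2_lc

open Pool.Agent.Lib.PolyTime Relation Finset

/-- The test run on one guess. -/
def Test (K B : ℕ) (Vs : Finset ℕ) (A : Finset (ℕ × ℕ × ℕ)) (s t : ℕ) (X Y : Finset ℕ)
    (Φ₁ Φ₂ : Finset (ℕ × ℕ × ℕ)) (D₁ D₂ : List (ℕ × ℕ)) : Prop :=
  (std Vs).Perc A Φ₂ X ∧ (std Vs).rev.Perc A Φ₁ Y ∧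
  (∀ x ∈ X, ReflTransGen (fun a b => (a, b) ∈ D₁ ∨ (std Vs).Arc ((A ∩ Φ₂) \ Φ₁) a b) s x) ∧
  (∀ y ∈ Y, ReflTransGen (fun a b => (a, b) ∈ D₂ ∨ (std Vs).Arc ((A ∩ Φ₁) \ Φ₂) a b) y t) ∧
  DPok 6956 K B Vs (A \ (Φ₁ ∪ Φ₂)) (D₁ ++ D₂) (s, s)

/-- All pairs over a list. -/
def prs (vs : List ℕ) : List (ℕ × ℕ) := vs.flatMap fun u => vs.map fun v => (u, v)

theorem mem_prs {vs : List ℕ} {p : ℕ × ℕ} : p ∈ prs vs ↔ p.1 ∈ vs ∧ p.2 ∈ vs := by
  obtain ⟨u, v⟩ := p
  simp [prs]

/-- The algorithm accepts. -/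
def Acc (K B : ℕ) (vs : List ℕ) (A : List (ℕ × ℕ × ℕ)) (s t : ℕ) : Prop :=
  ∃ X ∈ tuples 28 vs, ∃ Y ∈ tuples 28 vs, ∃ Φ₁ ∈ tuples 3422 A, ∃ Φ₂ ∈ tuples 3422 A,
    ∃ D₁ ∈ tuples 3478 (prs vs), ∃ D₂ ∈ tuples 3478 (prs vs),
      Test K B vs.toFinset A.toFinset s t X.toFinset Y.toFinset Φ₁.toFinset Φ₂.toFinset D₁ D₂

theorem exists_acc : ∃ K B : ℕ, ∀ (vs : List ℕ) (A : List (ℕ × ℕ × ℕ)) (s t : ℕ),
    (std vs.toFinset).WF A.toFinset → (std vs.toFinset).Rob A.toFinset 0 → (∀ e ∈ A, e.1 = 0) →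
    s ∈ vs → t ∈ vs → (Acc K B vs A s t ↔ (std vs.toFinset).GP A.toFinset s t) := by
  obtain ⟨K, B, h⟩ := dp_correct (V := ℕ) 6956 6844
  refine ⟨K, B, fun vs A s t hW hR h0 hs ht => ?_⟩
  have key : ∀ (X Y : Finset ℕ) (Φ₁ Φ₂ : Finset (ℕ × ℕ × ℕ)) (D₁ D₂ : List (ℕ × ℕ)),
      Φ₁.card ≤ 3422 → Φ₂.card ≤ 3422 → D₁ ∈ tuples 3478 (prs vs) → D₂ ∈ tuples 3478 (prs vs) →
      (Test K B vs.toFinset A.toFinset s t X Y Φ₁ Φ₂ D₁ D₂ ↔
        (std vs.toFinset).Red A.toFinset s t X Y Φ₁ Φ₂ D₁ D₂) := by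
    intro X Y Φ₁ Φ₂ D₁ D₂ c1 c2 d1 d2
    obtain ⟨d1, e1⟩ := mem_tuples.1 d1
    obtain ⟨d2, e2⟩ := mem_tuples.1 d2
    refine and_congr_right fun _ => and_congr_right fun _ => and_congr_right fun _ =>
      and_congr_right fun _ => (h _ _ _ _ (by simp; omega) ?_ (hW.mono sdiff_subset)
        (fun e he => h0 e (List.mem_toFinset.1 (mem_sdiff.1 he).1)) fun i hi => ?_).symm
    · simpa using hR.sdiff ((MG.deg_card (Φ₁ ∪ Φ₂)).of_le
        ((card_union_le _ _).trans (by omega : _ ≤ 6844)))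
    · have : (D₁ ++ D₂).getD i (s, s) ∈ D₁ ++ D₂ := by
        rw [List.getD_eq_getElem _ _ hi]
        exact List.getElem_mem hi
      simpa [mem_prs] using (List.mem_append.1 this).elim (e1 _) (e2 _)
  constructor
  · rintro ⟨X, a1, Y, a2, Φ₁, a3, Φ₂, a4, D₁, a5, D₂, a6, a⟩
    exact ((key _ _ _ _ _ _ ((List.toFinset_card_le _).trans (mem_tuples.1 a3).1)
      ((List.toFinset_card_le _).trans (mem_tuples.1 a4).1) a5 a6).1 a).gp hW
      ((List.toFinset_card_le _).trans (mem_tuples.1 a1).1)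
      ((List.toFinset_card_le _).trans (mem_tuples.1 a2).1)
  · intro a
    obtain ⟨X, Y, Φ₁, Φ₂, D₁, D₂, a1, a2, a3, a4, a5, a6, a7, a8, a9, b1, b2, b3, b4⟩ :=
      a.red hW hR (by simpa using hs) (by simpa using ht)
    have c1 : D₁ ∈ tuples 3478 (prs vs) :=
      mem_tuples.2 ⟨a9, fun p hp => mem_prs.2 (by simpa using b2 p hp)⟩
    have c2 : D₂ ∈ tuples 3478 (prs vs) :=
      mem_tuples.2 ⟨b1, fun p hp => mem_prs.2 (by simpa using b3 p hp)⟩
    refine ⟨X.toList, mem_tuples.2 ⟨by simpa using a3, fun x hx => ?_⟩,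
      Y.toList, mem_tuples.2 ⟨by simpa using a4, fun x hx => ?_⟩,
      Φ₁.toList, mem_tuples.2 ⟨by simpa using a7, fun x hx => ?_⟩,
      Φ₂.toList, mem_tuples.2 ⟨by simpa using a8, fun x hx => ?_⟩, D₁, c1, D₂, c2, ?_⟩
    · simpa using a1 (mem_toList.1 hx)
    · simpa using a2 (mem_toList.1 hx)
    · simpa using a5 (mem_toList.1 hx)
    · simpa using a6 (mem_toList.1 hx)
    · simp only [toList_toFinset]
      exact (key _ _ _ _ _ _ a7 a8 c1 c2).2 b4

variable {α : Type} [N487b59b3 α]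

@[fun_prop] theorem pt_prs {vs : α → List ℕ} (hv : PT vs) : PT fun a => prs (vs a) := by
  unfold prs; fun_prop

theorem ptp_link (Vs : α → Finset ℕ) {A Φ Ψ : α → List (ℕ × ℕ × ℕ)} {D : α → List (ℕ × ℕ)}
    {x y : α → ℕ} (hA : PT A) (hΦ : PT Φ) (hΨ : PT Ψ) (hD : PT D) (hx : PT x) (hy : PT y) :
    PTP fun a => ReflTransGen (fun u v => (u, v) ∈ D a ∨
      (std (Vs a)).Arc (((A a).toFinset ∩ (Φ a).toFinset) \ (Ψ a).toFinset) u v) (x a) (y a) := by
  refine ptp_rtg (l := fun a => (D a).map (·.2) ++ (A a).map (·.2.2)) (by fun_prop) hx hy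
    (PTP.or (by fun_prop) ((PTP.exists_mem (l := fun q : α × ℕ × ℕ => A q.1)
      (p := fun q e => e ∈ Φ q.1 ∧ e ∉ Ψ q.1 ∧ e.2.1 = q.2.1 ∧ e.2.2 = q.2.2) (by fun_prop)
      (by fun_prop)).congr fun q => by simp [MG.Arc, and_assoc])) ?_
  rintro a u v (h | ⟨e, he, -, rfl⟩)
  · exact List.mem_append_left _ (List.mem_map.2 ⟨_, h, rfl⟩)
  · exact List.mem_append_right _ (List.mem_map.2
      ⟨e, List.mem_toFinset.1 (mem_inter.1 (mem_sdiff.1 he).1).1, rfl⟩)

theorem ptp_test (K B : ℕ) {vs X Y : α → List ℕ} {A Φ₁ Φ₂ : α → List (ℕ × ℕ × ℕ)}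
    {D₁ D₂ : α → List (ℕ × ℕ)} {s t : α → ℕ} (hv : PT vs) (hX : PT X) (hY : PT Y) (hA : PT A)
    (h1 : PT Φ₁) (h2 : PT Φ₂) (h3 : PT D₁) (h4 : PT D₂) (hs : PT s) (ht : PT t)
    (hW : ∀ a, (std (vs a).toFinset).WF (A a).toFinset) :
    PTP fun a => Test K B (vs a).toFinset (A a).toFinset (s a) (t a) (X a).toFinset
      (Y a).toFinset (Φ₁ a).toFinset (Φ₂ a).toFinset (D₁ a) (D₂ a) := by
  refine PTP.and (ptp_perc hv hX hA h2 (fun _ => rfl) (by simp only [std_src]; fun_prop)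
    (by simp only [std_tgt]; fun_prop) hW) (PTP.and (ptp_perc hv hY hA h1 (fun _ => rfl)
      (by simp only [MG.rev_src, std_tgt]; fun_prop)
      (by simp only [MG.rev_tgt, std_src]; fun_prop) fun a => (hW a).rev) (PTP.and ?_
      (PTP.and ?_ ?_)))
  · simp only [List.mem_toFinset]
    exact PTP.forall_mem hX (ptp_link (fun q : α × ℕ => (vs q.1).toFinset) (by fun_prop)
      (by fun_prop) (by fun_prop) (by fun_prop) (by fun_prop) (by fun_prop))
  · simp only [List.mem_toFinset]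
    exact PTP.forall_mem hY (ptp_link (fun q : α × ℕ => (vs q.1).toFinset) (by fun_prop)
      (by fun_prop) (by fun_prop) (by fun_prop) (by fun_prop) (by fun_prop))
  · refine (ptp_dpok 6956 K B (A := fun a => (A a).filter fun e => decide (e ∉ Φ₁ a ∧ e ∉ Φ₂ a))
      (D := fun a => D₁ a ++ D₂ a) (d := fun a => (s a, s a)) hv (by fun_prop) (by fun_prop)
      (by fun_prop)).congr fun a => ?_
    rw [iff_iff_eq]
    congr 1
    ext e
    simp

theorem ptp_acc (K B : ℕ) {vs : α → List ℕ} {A : α → List (ℕ × ℕ × ℕ)} {s t : α → ℕ} (hv : PT vs)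
    (hA : PT A) (hs : PT s) (ht : PT t) (hW : ∀ a, (std (vs a).toFinset).WF (A a).toFinset) :
    PTP fun a => Acc K B (vs a) (A a) (s a) (t a) := by
  refine PTP.exists_mem (by fun_prop) (PTP.exists_mem (by fun_prop) (PTP.exists_mem (by fun_prop)
    (PTP.exists_mem (by fun_prop) (PTP.exists_mem (by fun_prop) (PTP.exists_mem (by fun_prop)
      (ptp_test K B (by fun_prop) (by fun_prop) (by fun_prop) (by fun_prop) (by fun_prop)
        (by fun_prop) (by fun_prop) (by fun_prop) (by fun_prop) (by fun_prop) fun _ => hW _))))))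

/-- The arcs of a Boolean matrix. -/
def arcs (M : List (List Bool)) : List (ℕ × ℕ × ℕ) :=
  (List.range M.length).flatMap fun u =>
    ((List.range M.length).filter fun v => (M.getD u []).getD v false).map fun v => (0, u, v)

theorem mem_arcs {M : List (List Bool)} {e : ℕ × ℕ × ℕ} : e ∈ arcs M ↔
    e.1 = 0 ∧ e.2.1 < M.length ∧ e.2.2 < M.length ∧ (M.getD e.2.1 []).getD e.2.2 false = true := by
  obtain ⟨i, u, v⟩ := e
  simp only [arcs, List.mem_flatMap, List.mem_map, List.mem_filter, List.mem_range, Prod.mk.injEq]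
  constructor
  · rintro ⟨u, h1, v, ⟨h2, h3⟩, rfl, rfl, rfl⟩
    exact ⟨rfl, h1, h2, h3⟩
  · rintro ⟨rfl, h1, h2, h3⟩
    exact ⟨u, h1, v, ⟨h2, h3⟩, rfl, rfl, rfl⟩

theorem wf_arcs (M : List (List Bool)) :
    (std (List.range M.length).toFinset).WF (arcs M).toFinset := fun e he => by
  have := mem_arcs.1 (List.mem_toFinset.1 he)
  simp [this.2.1, this.2.2.1]

theorem exists_alg : ∃ f : List (List Bool) × ℕ × ℕ → Bool, PT f ∧
    ∀ (M : List (List Bool)) (s t : ℕ),
      (std (List.range M.length).toFinset).Rob (arcs M).toFinset 0 → s < M.length →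
      t < M.length →
      (f (M, s, t) = true ↔ (std (List.range M.length).toFinset).GP (arcs M).toFinset s t) := by
  obtain ⟨K, B, h⟩ := exists_acc
  obtain ⟨f, h1, h2⟩ := ptp_acc K B (vs := fun a : List (List Bool) × ℕ × ℕ =>
    List.range a.1.length) (A := fun a => arcs a.1) (s := fun a => a.2.1) (t := fun a => a.2.2)
    (by fun_prop) (by unfold arcs; fun_prop) (by fun_prop) (by fun_prop) fun a => wf_arcs _
  exact ⟨f, h1, fun M s t a b c => (h2 _).trans (h _ _ _ _ (wf_arcs M) a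
    (fun e he => (mem_arcs.1 he).1) (List.mem_range.2 b) (List.mem_range.2 c))⟩

end Pool.Agent.P.MP_eb0bd2_lc
end

-- part Pool.Agent.P.MP_eb0bd2_lc.Bridge
section

set_option autoImplicit false

namespace Pool.Agent.P.MP_eb0bd2_lc

open Relation Finset

theorem IsOutBranching.rtg {V : Type} {D B : Digraph V} {s : V} (h : IsOutBranching D B s)
    (v : V) : ReflTransGen B.Adj s v := by
  obtain ⟨-, h1, h2, h3⟩ := h
  have := (SimpleGraph.reachable_iff_reflTransGen _ _).1 (h1.connected s v)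
  induction this with
  | refl => exact .refl
  | @tail u w _ h ih =>
    rcases ((SimpleGraph.fromRel_adj _ _ _).1 h).2 with a | a
    · exact ih.tail a
    · rcases ih.cases_tail with rfl | ⟨x, b, c⟩
      · exact absurd a (h2 _)
      · rwa [(h3 u fun e => h2 _ (e ▸ a)).unique a c]

theorem exists_out {V : Type} [Finite V] {D : Digraph V} {r : V → V → Prop} {s : V}
    (hr : ∀ u v, r u v → D.Adj u v) (h : ∀ v, ReflTransGen r s v) :
    ∃ B : Digraph V, IsOutBranching D B s ∧ ∀ u v, B.Adj u v → r u v := by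
  classical
  have := Fintype.ofFinite V
  have : Nonempty (V × V) := ⟨(s, s)⟩
  obtain ⟨p, d, hp⟩ := MG.exists_tree (G := (⟨Prod.fst, Prod.snd, univ⟩ : MG V (V × V)))
    (H := univ.filter fun e => r e.1 e.2) (s := s) fun v _ => MG.reach_iff_rtg.2
      (rtg_mono (h v) fun a b hab => ⟨(a, b), by simpa using hab, rfl, rfl⟩)
  have h1 : ∀ v, v ≠ s → r (p v).1 v ∧ d (p v).1 < d v := fun v hv => by
    obtain ⟨a, b, c⟩ := hp v (mem_univ _) hv
    exact ⟨by simpa [show (p v).2 = v from b] using a, c⟩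
  have h2 : ∀ u v, v ≠ s ∧ u = (p v).1 → r u v := by
    rintro u v ⟨a, rfl⟩; exact (h1 v a).1
  refine ⟨⟨fun u v => v ≠ s ∧ u = (p v).1⟩, ⟨fun u v a => hr _ _ (h2 u v a), ?_,
    fun u a => a.1 rfl, fun v hv => ⟨(p v).1, ⟨hv, rfl⟩, fun u a => a.2⟩⟩, h2⟩
  set T := SimpleGraph.fromRel fun u v => v ≠ s ∧ u = (p v).1
  have hc : T.Connected := by
    refine (SimpleGraph.connected_iff_exists_forall_reachable _).2 ⟨s, fun v => ?_⟩
    induction hm : d v using Nat.strong_induction_on generalizing v with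
    | _ m ih =>
      by_cases hv : v = s
      · rw [hv]
      · refine (ih _ (hm ▸ (h1 v hv).2) _ rfl).trans (SimpleGraph.Adj.reachable ?_)
        exact (SimpleGraph.fromRel_adj _ _ _).2 ⟨fun e => by simpa [e] using (h1 v hv).2,
          Or.inl ⟨hv, rfl⟩⟩
  refine SimpleGraph.isTree_iff_connected_and_card.2 ⟨hc, le_antisymm ?_
    hc.card_vert_le_card_edgeSet_add_one⟩
  have : T.edgeSet ⊆ ((univ.erase s).image fun v => s((p v).1, v) : Finset (Sym2 V)) := by
    intro e he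
    induction e using Sym2.ind with
    | _ u v =>
      have he' : T.Adj u v := he
      rcases ((SimpleGraph.fromRel_adj _ _ _).1 he').2 with ⟨a, rfl⟩ | ⟨a, rfl⟩
      · exact mem_coe.2 (mem_image.2 ⟨v, by simpa using a, rfl⟩)
      · exact mem_coe.2 (mem_image.2 ⟨u, by simpa using a, Sym2.eq_swap⟩)
  have a1 := Set.ncard_le_ncard this
  rw [Set.ncard_coe_finset] at a1
  have a2 := card_image_le (s := univ.erase s) (f := fun v => s((p v).1, v))
  have a3 := card_erase_add_one (mem_univ s)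
  rw [Nat.card_coe_set_eq, Nat.card_eq_fintype_card, ← card_univ]
  omega

theorem isIn_iff {V : Type} {D B : Digraph V} {t : V} : IsInBranching D B t ↔
    IsOutBranching ⟨fun u v => D.Adj v u⟩ ⟨fun u v => B.Adj v u⟩ t := by
  have : (SimpleGraph.fromRel fun u v => B.Adj v u) = SimpleGraph.fromRel B.Adj := by
    ext u v; simp [or_comm]
  simp only [IsInBranching, IsOutBranching, this]
  exact and_congr_left' forall_comm

theorem goodPair_iff {V : Type} [Finite V] {D : Digraph V} {s t : V} : HasGoodPair D s t ↔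
    ∃ r₁ r₂ : V → V → Prop, (∀ u v, r₁ u v → D.Adj u v) ∧ (∀ u v, r₂ u v → D.Adj u v) ∧
      (∀ u v, ¬ (r₁ u v ∧ r₂ u v)) ∧ (∀ v, ReflTransGen r₁ s v) ∧ ∀ v, ReflTransGen r₂ v t := by
  constructor
  · rintro ⟨B₁, B₂, h1, h2, h3⟩
    exact ⟨B₁.Adj, B₂.Adj, h1.1, h2.1, h3, h1.rtg, fun v => MG.rtg_swap ((isIn_iff.1 h2).rtg v)⟩
  · rintro ⟨r₁, r₂, h1, h2, h3, h4, h5⟩
    obtain ⟨B₁, a1, a2⟩ := exists_out h1 h4
    obtain ⟨B₂, b1, b2⟩ := exists_out (D := ⟨fun u v => D.Adj v u⟩) (r := fun u v => r₂ v u)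
      (fun u v => h2 v u) fun v => MG.rtg_swap (h5 v)
    exact ⟨B₁, ⟨fun u v => B₂.Adj v u⟩, a1, isIn_iff.2 b1,
      fun u v h => h3 u v ⟨a2 _ _ h.1, b2 _ _ h.2⟩⟩

variable {n : ℕ} {D : Digraph (Fin n)} [DecidableRel D.Adj]

theorem length_adj : (adjMatrix D).length = n := by simp [adjMatrix]

theorem mem_arcs_adj {e : ℕ × ℕ × ℕ} :
    e ∈ arcs (adjMatrix D) ↔ ∃ u v : Fin n, D.Adj u v ∧ e = (0, u.1, v.1) := by
  obtain ⟨i, u, v⟩ := e
  rw [mem_arcs, length_adj]
  constructor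
  · rintro ⟨rfl, h1, h2, h3⟩
    refine ⟨⟨u, h1⟩, ⟨v, h2⟩, ?_, rfl⟩
    simp only at h1 h2
    simpa [adjMatrix, List.getD_eq_getElem?_getD, h1, h2] using h3
  · rintro ⟨u, v, h, e⟩
    obtain ⟨rfl, rfl, rfl⟩ : i = 0 ∧ _ = _ ∧ _ = _ := by simpa using e
    simpa [adjMatrix, List.getD_eq_getElem?_getD] using h

theorem rob_adj (hl : ∀ v, ¬ D.Adj v v) (hα : ∀ I, IsIndep D I → I.card ≤ 2) :
    (std (List.range (adjMatrix D).length).toFinset).Rob (arcs (adjMatrix D)).toFinset 0 := by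
  refine ⟨fun _ => ∅, by simp, by simp, fun x hx y hy z hz a b c => ?_⟩
  simp only [std_Vs, length_adj, List.mem_toFinset, List.mem_range] at hx hy hz
  lift x to Fin n using hx
  lift y to Fin n using hy
  lift z to Fin n using hz
  have m : ∀ u v : Fin n, D.Adj u v ∨ D.Adj v u → (std (List.range (adjMatrix D).length).toFinset).Nb
      (arcs (adjMatrix D)).toFinset (fun _ => ∅) u.1 v.1 := fun u v h => h.imp
    (fun h => ⟨_, List.mem_toFinset.2 (mem_arcs_adj.2 ⟨u, v, h, rfl⟩), rfl, rfl⟩)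
    fun h => Or.inl ⟨_, List.mem_toFinset.2 (mem_arcs_adj.2 ⟨v, u, h, rfl⟩), rfl, rfl⟩
  by_contra hc
  simp only [not_or] at hc
  have h1 := mt (m x y) hc.1
  have h2 := mt (m y z) hc.2.1
  have h3 := mt (m x z) hc.2.2
  have := hα {x, y, z} (by
    simp only [IsIndep, mem_insert, mem_singleton]
    rintro u (rfl | rfl | rfl) v (rfl | rfl | rfl) <;> first | exact hl _ | tauto)
  rw [card_eq_three.2 ⟨x, y, z, fun e => a (by rw [e]), fun e => c (by rw [e]),
    fun e => b (by rw [e]), rfl⟩] at this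
  omega

theorem gp_adj {s t : Fin n} :
    (std (List.range (adjMatrix D).length).toFinset).GP (arcs (adjMatrix D)).toFinset s t ↔
      HasGoodPair D s t := by
  classical
  rw [goodPair_iff]
  set G := std (List.range (adjMatrix D).length).toFinset
  have hv : ∀ v, v ∈ G.Vs ↔ v < n := by simp [G, length_adj]
  constructor
  · rintro ⟨H₁, a1, H₂, a2, a3, a4, a5⟩
    have k1 : ∀ H ⊆ (arcs (adjMatrix D)).toFinset, ∀ u v : Fin n, (0, u.1, v.1) ∈ H → D.Adj u v := by
      intro H hH u v h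
      obtain ⟨u', v', b, e⟩ := mem_arcs_adj.1 (List.mem_toFinset.1 (hH h))
      obtain ⟨rfl, rfl⟩ : u = u' ∧ v = v' := by simpa [Fin.ext_iff] using e
      exact b
    have k2 : ∀ H ⊆ (arcs (adjMatrix D)).toFinset, ∀ u v : Fin n, G.Reach H u v →
        ReflTransGen (fun u v : Fin n => (0, u.1, v.1) ∈ H) u v := by
      intro H hH u v h
      refine h.induction (fun x => ∀ v : Fin n, v.1 = x →
        ReflTransGen (fun u v : Fin n => (0, u.1, v.1) ∈ H) u v) ?_ ?_ v rfl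
      · intro w e
        rw [Fin.ext e]
      · intro e he ih w e'
        obtain ⟨u', v', -, rfl⟩ := mem_arcs_adj.1 (List.mem_toFinset.1 (hH he))
        obtain rfl : w = v' := Fin.ext e'
        exact (ih u' rfl).tail he
    exact ⟨_, _, k1 H₁ a1, k1 H₂ a2, fun u v h => disjoint_left.1 a3 h.1 h.2,
      fun v => k2 H₁ a1 _ _ (a4 _ ((hv _).2 v.2)), fun v => k2 H₂ a2 _ _ (a5 _ ((hv _).2 v.2))⟩
  · rintro ⟨r₁, r₂, a1, a2, a3, a4, a5⟩
    let H : (Fin n → Fin n → Prop) → Finset (ℕ × ℕ × ℕ) := fun r =>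
      (arcs (adjMatrix D)).toFinset.filter fun e => ∃ u v : Fin n, r u v ∧ e = (0, u.1, v.1)
    have k : ∀ r : Fin n → Fin n → Prop, (∀ u v, r u v → D.Adj u v) → ∀ u v,
        ReflTransGen r u v → G.Reach (H r) u v := by
      intro r hr u v h
      induction h with
      | refl => exact MG.Reach.refl _ _
      | @tail x y _ h ih =>
        exact ih.trans (MG.Reach.single (G := G) (e := (0, x.1, y.1)) (mem_filter.2
          ⟨List.mem_toFinset.2 (mem_arcs_adj.2 ⟨x, y, hr _ _ h, rfl⟩), x, y, h, rfl⟩))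
    refine ⟨H r₁, filter_subset _ _, H r₂, filter_subset _ _, disjoint_left.2 fun e b c => ?_,
      fun v h => k r₁ a1 s ⟨v, (hv v).1 h⟩ (a4 _), fun v h => k r₂ a2 ⟨v, (hv v).1 h⟩ t (a5 _)⟩
    obtain ⟨u, v, b', rfl⟩ := (mem_filter.1 b).2
    obtain ⟨u', v', c', e⟩ := (mem_filter.1 c).2
    obtain ⟨rfl, rfl⟩ : u = u' ∧ v = v' := by simpa [Fin.ext_iff] using e
    exact a3 u v ⟨b', c'⟩

theorem main : ∃ f : List (List Bool) × ℕ × ℕ → Bool, N68a2faeb.IsPolyTime f ∧
    ∀ (n : ℕ) (D : Digraph (Fin n)) [DecidableRel D.Adj] (s t : Fin n), (∀ v, ¬ D.Adj v v) →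
      (∀ I, IsIndep D I → I.card ≤ 2) →
      (f (adjMatrix D, s.1, t.1) = true ↔ HasGoodPair D s t) := by
  obtain ⟨f, h1, h2⟩ := exists_alg
  exact ⟨f, h1.isPolyTime, fun n D _ s t a b => (h2 _ _ _ (rob_adj a b)
    (by rw [length_adj]; exact s.2) (by rw [length_adj]; exact t.2)).trans gp_adj⟩

end Pool.Agent.P.MP_eb0bd2_lc
end
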